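import Pool.Agent.Lib.H75M.Defs

/-! # H75M, chunk C1A (S): sums over ordered quadruples -/

namespace H75M

/-- sum over `a < b < c < d` in `V` -/
def sum4 (V : Finset ℕ) (g : ℕ → ℕ → ℕ → ℕ → ℕ) : ℕ :=
  ∑ a ∈ V, ∑ b ∈ V.filter (fun b => a < b), ∑ c ∈ V.filter (fun c => b < c),
    ∑ d ∈ V.filter (fun d => c < d), g a b c d

/-- (C1a, S) PROOF. `Finset.sum_filter`, `Finset.mul_sum`/`ite_and`; `a < b ∧ b < c ∧ c < d`. -/
theorem sum4_eq (V : Finset ℕ) (g : ℕ → ℕ → ℕ → ℕ → ℕ) :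
    sum4 V g = ∑ a ∈ V, ∑ b ∈ V, ∑ c ∈ V, ∑ d ∈ V,
      if a < b ∧ b < c ∧ c < d then g a b c d else 0 := by
  unfold sum4
  refine Finset.sum_congr rfl fun a _ => ?_
  rw [Finset.sum_filter]
  refine Finset.sum_congr rfl fun b _ => ?_
  by_cases hab : a < b
  · rw [if_pos hab, Finset.sum_filter]
    refine Finset.sum_congr rfl fun c _ => ?_
    by_cases hbc : b < c
    · rw [if_pos hbc, Finset.sum_filter]
      refine Finset.sum_congr rfl fun d _ => ?_
      by_cases hcd : c < d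
      · rw [if_pos hcd, if_pos ⟨hab, hbc, hcd⟩]
      · rw [if_neg hcd, if_neg (fun h => hcd h.2.2)]
    · rw [if_neg hbc]
      exact (Finset.sum_eq_zero fun d _ => if_neg (fun h => hbc h.2.1)).symm
  · rw [if_neg hab]
    exact (Finset.sum_eq_zero fun c _ => Finset.sum_eq_zero fun d _ => if_neg (fun h => hab h.1)).symm

/-- (C1b, S) -/
theorem sum4_congr (V : Finset ℕ) {g h : ℕ → ℕ → ℕ → ℕ → ℕ}
    (H : ∀ a ∈ V, ∀ b ∈ V, ∀ c ∈ V, ∀ d ∈ V, a < b → b < c → c < d → g a b c d = h a b c d) :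
    sum4 V g = sum4 V h := by
  unfold sum4
  refine Finset.sum_congr rfl fun a ha => Finset.sum_congr rfl fun b hb => Finset.sum_congr rfl fun c hc =>
    Finset.sum_congr rfl fun d hd => ?_
  rw [Finset.mem_filter] at hb hc hd
  exact H a ha b hb.1 c hc.1 d hd.1 hb.2 hc.2 hd.2

end H75M
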