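import Pool.Agent.Lib.H75M.C1A

/-! # H75M, chunk C1B (S/M): the number of quadruples -/

namespace H75M

theorem c1b_step (V : Finset ℕ) (k : ℕ) :
    ∑ a ∈ V, ((V.filter (fun b => a < b)).card).choose k = V.card.choose (k + 1) := by
  induction V using Finset.induction_on_min with
  | empty => simp
  | insert m V' hm ih =>
    have hnot : m ∉ V' := fun h => lt_irrefl m (hm m h)
    rw [Finset.sum_insert hnot, Finset.card_insert_of_notMem hnot, Nat.choose_succ_succ]
    congr 1
    · congr 2
      ext b
      rw [Finset.mem_filter, Finset.mem_insert]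
      constructor
      · rintro ⟨h1 | h1, h2⟩
        · omega
        · exact h1
      · intro h
        exact ⟨Or.inr h, hm b h⟩
    · rw [← ih]
      refine Finset.sum_congr rfl fun a ha => ?_
      congr 2
      ext b
      rw [Finset.mem_filter, Finset.mem_filter, Finset.mem_insert]
      have hma := hm a ha
      constructor
      · rintro ⟨h1 | h1, h2⟩
        · omega
        · exact ⟨h1, h2⟩
      · rintro ⟨h1, h2⟩
        exact ⟨Or.inr h1, h2⟩

theorem c1b_filter (V : Finset ℕ) (x k : ℕ) :
    ∑ a ∈ V.filter (fun b => x < b), ((V.filter (fun b => a < b)).card).choose k =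
      (V.filter (fun b => x < b)).card.choose (k + 1) := by
  rw [← c1b_step]
  refine Finset.sum_congr rfl fun a ha => ?_
  rw [Finset.mem_filter] at ha
  congr 2
  ext b
  rw [Finset.mem_filter, Finset.mem_filter, Finset.mem_filter]
  constructor
  · rintro ⟨h1, h2⟩
    exact ⟨⟨h1, lt_trans ha.2 h2⟩, h2⟩
  · rintro ⟨h1, h2⟩
    exact ⟨h1.1, h2⟩

/-- (C1c, S/M) PROOF. Induction on `V` by the maximum (`Finset.induction_on_max`): `sum4 (insert N V) 1 = sum4 V 1 + (number of a < b < c in V)`, the same for triples and pairs; `Nat.choose_succ_succ`.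
(State and prove first: `∑ a ∈ V, ∑ b ∈ V.filter (a < ·), 1 = V.card.choose 2`, then with three sums `.choose 3`, then `.choose 4`.) Or: bijection with `V.powersetCard 4`. -/
theorem sum4_one (V : Finset ℕ) : sum4 V (fun _ _ _ _ => 1) = V.card.choose 4 := by
  unfold sum4
  have h1 : ∀ c, ∑ d ∈ V.filter (fun d => c < d), 1 = ((V.filter (fun d => c < d)).card).choose 1 := by
    intro c
    rw [Finset.sum_const, smul_eq_mul, mul_one, Nat.choose_one_right]
  simp only [h1, c1b_filter]
  exact c1b_step V 3

/-- (C1d, S) the number of edges -/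
theorem sum2_one (V : Finset ℕ) :
    ∑ a ∈ V, ∑ b ∈ V.filter (fun b => a < b), 1 = V.card.choose 2 := by
  have h1 : ∀ c, ∑ d ∈ V.filter (fun d => c < d), 1 = ((V.filter (fun d => c < d)).card).choose 1 := by
    intro c
    rw [Finset.sum_const, smul_eq_mul, mul_one, Nat.choose_one_right]
  simp only [h1]
  exact c1b_step V 1

end H75M
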