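import Pool.Agent.Lib.H75M.C1A

/-! # H75M, chunk C2 (M/L): the sum of (up) x (down) over all edges -/

namespace H75M

/-- the number of edges of `a < b < c < d` which separate the two other vertices -/
def sep4 (s : ℕ → ℕ → ℕ → Bool) (a b c d : ℕ) : ℕ :=
  (if s a b c = s a b d then 0 else 1) + (if s a b c = s a c d then 1 else 0) +
  (if s a b d = s a c d then 0 else 1) + (if s a b c = s b c d then 0 else 1) +
  (if s a b d = s b c d then 1 else 0) + (if s a c d = s b c d then 0 else 1)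

/-- sums over all quadruples -/
def c2_S (V : Finset ℕ) (f : ℕ → ℕ → ℕ → ℕ → ℕ) : ℕ :=
  ∑ a ∈ V, ∑ b ∈ V, ∑ c ∈ V, ∑ d ∈ V, f a b c d

theorem c2_sw12 (V : Finset ℕ) (f : ℕ → ℕ → ℕ → ℕ → ℕ) :
    c2_S V f = c2_S V (fun a b c d => f b a c d) := Finset.sum_comm

theorem c2_sw23 (V : Finset ℕ) (f : ℕ → ℕ → ℕ → ℕ → ℕ) :
    c2_S V f = c2_S V (fun a b c d => f a c b d) :=
  Finset.sum_congr rfl fun _ _ => Finset.sum_comm

theorem c2_sw34 (V : Finset ℕ) (f : ℕ → ℕ → ℕ → ℕ → ℕ) :
    c2_S V f = c2_S V (fun a b c d => f a b d c) :=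
  Finset.sum_congr rfl fun _ _ => Finset.sum_congr rfl fun _ _ => Finset.sum_comm

theorem c2_add (V : Finset ℕ) (f g : ℕ → ℕ → ℕ → ℕ → ℕ) :
    c2_S V (fun a b c d => f a b c d + g a b c d) = c2_S V f + c2_S V g := by
  unfold c2_S
  simp only [Finset.sum_add_distrib]

theorem c2_congr (V : Finset ℕ) (f g : ℕ → ℕ → ℕ → ℕ → ℕ) (h : ∀ a b c d, f a b c d = g a b c d) :
    c2_S V f = c2_S V g := by
  unfold c2_S
  simp only [h]

/-- the edge `xy` separates `u < v` -/
def c2_h (s : ℕ → ℕ → ℕ → Bool) (x y u v : ℕ) : ℕ :=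
  if x < y ∧ u < v ∧ u ≠ x ∧ u ≠ y ∧ v ≠ x ∧ v ≠ y ∧ ab s x y u ≠ ab s x y v then 1 else 0

/-- `u` above, `v` below the edge `xy` -/
def c2_g (s : ℕ → ℕ → ℕ → Bool) (x y u v : ℕ) : ℕ :=
  if x < y ∧ (u ≠ x ∧ u ≠ y ∧ ab s x y u = true) ∧ (v ≠ x ∧ v ≠ y ∧ ab s x y v = false) then 1 else 0

theorem c2_gh (s : ℕ → ℕ → ℕ → Bool) (x y u v : ℕ) :
    (if u < v then c2_g s x y u v + c2_g s x y v u else 0) = c2_h s x y u v := by
  unfold c2_g c2_h
  by_cases huv : u < v
  · rw [if_pos huv]
    by_cases hxy : x < y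
    · by_cases h1 : u ≠ x ∧ u ≠ y ∧ v ≠ x ∧ v ≠ y
      · obtain ⟨h1, h2, h3, h4⟩ := h1
        rcases Bool.eq_false_or_eq_true (ab s x y u) with h5 | h5 <;>
        rcases Bool.eq_false_or_eq_true (ab s x y v) with h6 | h6 <;>
        simp [hxy, huv, h1, h2, h3, h4, h5, h6]
      · rw [if_neg, if_neg, if_neg]
        · rintro ⟨_, _, a1, a2, a3, a4, _⟩; exact h1 ⟨a1, a2, a3, a4⟩
        · rintro ⟨_, ⟨a1, a2, _⟩, a3, a4, _⟩; exact h1 ⟨a3, a4, a1, a2⟩
        · rintro ⟨_, ⟨a1, a2, _⟩, a3, a4, _⟩; exact h1 ⟨a1, a2, a3, a4⟩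
    · rw [if_neg, if_neg, if_neg] <;> exact fun h => hxy h.1
  · rw [if_neg huv, if_neg]
    exact fun h => huv h.2.1

theorem c2_split (s : ℕ → ℕ → ℕ → Bool) (x y u v : ℕ) :
    c2_g s x y u v = (if u < v then c2_g s x y u v else 0) + (if v < u then c2_g s x y u v else 0) := by
  rcases lt_trichotomy u v with h | h | h
  · rw [if_pos h, if_neg (by omega)]; rfl
  · subst h
    have h0 : c2_g s x y u u = 0 := by
      unfold c2_g
      rw [if_neg]
      rintro ⟨_, ⟨_, _, h1⟩, _, _, h2⟩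
      rw [h1] at h2
      exact absurd h2 (by decide)
    rw [h0]; simp
  · rw [if_neg (by omega), if_pos h, zero_add]

theorem c2_S_g (s : ℕ → ℕ → ℕ → Bool) (V : Finset ℕ) : c2_S V (c2_g s) = c2_S V (c2_h s) := by
  rw [c2_congr V (c2_g s) _ (c2_split s), c2_add,
    c2_sw34 V (fun x y u v => if v < u then c2_g s x y u v else 0), ← c2_add]
  refine c2_congr V _ _ fun x y u v => ?_
  rw [← c2_gh]
  by_cases h : u < v
  · simp only [if_pos h]
  · simp only [if_neg h]

theorem c2_dec (s : ℕ → ℕ → ℕ → Bool) (x y u v : ℕ) :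
    c2_h s x y u v =
      (if u < v ∧ v < x ∧ x < y then c2_h s x y u v else 0) +
      ((if u < x ∧ x < v ∧ v < y then c2_h s x y u v else 0) +
      ((if u < x ∧ x < y ∧ y < v then c2_h s x y u v else 0) +
      ((if x < u ∧ u < v ∧ v < y then c2_h s x y u v else 0) +
      ((if x < u ∧ u < y ∧ y < v then c2_h s x y u v else 0) +
      (if x < y ∧ y < u ∧ u < v then c2_h s x y u v else 0))))) := by
  by_cases h : x < y ∧ u < v ∧ u ≠ x ∧ u ≠ y ∧ v ≠ x ∧ v ≠ y
  · obtain ⟨h1, h2, h3, h4, h5, h6⟩ := h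
    generalize c2_h s x y u v = k
    split_ifs <;> omega
  · have h0 : c2_h s x y u v = 0 := by
      unfold c2_h
      rw [if_neg]
      rintro ⟨h1, h2, h3, h4, h5, h6, _⟩
      exact h ⟨h1, h2, h3, h4, h5, h6⟩
    rw [h0]; simp

theorem c2_h_eq (s : ℕ → ℕ → ℕ → Bool) {x y u v : ℕ} (h1 : x < y) (h2 : u < v) (h3 : u ≠ x) (h4 : u ≠ y)
    (h5 : v ≠ x) (h6 : v ≠ y) : c2_h s x y u v = if ab s x y u = ab s x y v then 0 else 1 := by
  unfold c2_h
  by_cases h : ab s x y u = ab s x y v
  · rw [if_pos h, if_neg]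
    exact fun h' => h'.2.2.2.2.2.2 h
  · rw [if_neg h, if_pos ⟨h1, h2, h3, h4, h5, h6, h⟩]

theorem c2_sep (s : ℕ → ℕ → ℕ → Bool) {a b c d : ℕ} (h1 : a < b) (h2 : b < c) (h3 : c < d) :
    c2_h s c d a b + (c2_h s b d a c + (c2_h s b c a d + (c2_h s a d b c + (c2_h s a c b d +
      c2_h s a b c d)))) = sep4 s a b c d := by
  rw [c2_h_eq s (by omega) (by omega) (by omega) (by omega) (by omega) (by omega),
    c2_h_eq s (by omega) (by omega) (by omega) (by omega) (by omega) (by omega),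
    c2_h_eq s (by omega) (by omega) (by omega) (by omega) (by omega) (by omega),
    c2_h_eq s (by omega) (by omega) (by omega) (by omega) (by omega) (by omega),
    c2_h_eq s (by omega) (by omega) (by omega) (by omega) (by omega) (by omega),
    c2_h_eq s (by omega) (by omega) (by omega) (by omega) (by omega) (by omega)]
  have e1 : ab s c d a = !(s a c d) := by rw [ab, if_pos (by omega)]
  have e2 : ab s c d b = !(s b c d) := by rw [ab, if_pos (by omega)]
  have e3 : ab s b d a = !(s a b d) := by rw [ab, if_pos (by omega)]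
  have e4 : ab s b d c = s b c d := by rw [ab, if_neg (by omega), if_pos (by omega)]
  have e5 : ab s b c a = !(s a b c) := by rw [ab, if_pos (by omega)]
  have e6 : ab s b c d = !(s b c d) := by rw [ab, if_neg (by omega), if_neg (by omega)]
  have e7 : ab s a d b = s a b d := by rw [ab, if_neg (by omega), if_pos (by omega)]
  have e8 : ab s a d c = s a c d := by rw [ab, if_neg (by omega), if_pos (by omega)]
  have e9 : ab s a c b = s a b c := by rw [ab, if_neg (by omega), if_pos (by omega)]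
  have e10 : ab s a c d = !(s a c d) := by rw [ab, if_neg (by omega), if_neg (by omega)]
  have e11 : ab s a b c = !(s a b c) := by rw [ab, if_neg (by omega), if_neg (by omega)]
  have e12 : ab s a b d = !(s a b d) := by rw [ab, if_neg (by omega), if_neg (by omega)]
  rw [e1, e2, e3, e4, e5, e6, e7, e8, e9, e10, e11, e12]
  unfold sep4
  generalize s a b c = p
  generalize s a b d = q
  generalize s a c d = r
  generalize s b c d = t
  cases p <;> cases q <;> cases r <;> cases t <;> rfl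

theorem c2_S_h (s : ℕ → ℕ → ℕ → Bool) (V : Finset ℕ) : c2_S V (c2_h s) = sum4 V (sep4 s) := by
  rw [sum4_eq]
  change _ = c2_S V (fun a b c d => if a < b ∧ b < c ∧ c < d then sep4 s a b c d else 0)
  rw [c2_congr V (c2_h s) _ (c2_dec s), c2_add, c2_add, c2_add, c2_add, c2_add]
  have p1 : c2_S V (fun x y u v => if u < v ∧ v < x ∧ x < y then c2_h s x y u v else 0) =
      c2_S V (fun a b c d => if a < b ∧ b < c ∧ c < d then c2_h s c d a b else 0) := by
    rw [c2_sw23, c2_sw12, c2_sw34, c2_sw23]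
  have p2 : c2_S V (fun x y u v => if u < x ∧ x < v ∧ v < y then c2_h s x y u v else 0) =
      c2_S V (fun a b c d => if a < b ∧ b < c ∧ c < d then c2_h s b d a c else 0) := by
    rw [c2_sw23, c2_sw12, c2_sw34]
  have p3 : c2_S V (fun x y u v => if u < x ∧ x < y ∧ y < v then c2_h s x y u v else 0) =
      c2_S V (fun a b c d => if a < b ∧ b < c ∧ c < d then c2_h s b c a d else 0) := by
    rw [c2_sw23, c2_sw12]
  have p4 : c2_S V (fun x y u v => if x < u ∧ u < v ∧ v < y then c2_h s x y u v else 0) =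
      c2_S V (fun a b c d => if a < b ∧ b < c ∧ c < d then c2_h s a d b c else 0) := by
    rw [c2_sw23, c2_sw34]
  have p5 : c2_S V (fun x y u v => if x < u ∧ u < y ∧ y < v then c2_h s x y u v else 0) =
      c2_S V (fun a b c d => if a < b ∧ b < c ∧ c < d then c2_h s a c b d else 0) := by
    rw [c2_sw23]
  rw [p1, p2, p3, p4, p5, ← c2_add, ← c2_add, ← c2_add, ← c2_add, ← c2_add]
  refine c2_congr V _ _ fun a b c d => ?_
  by_cases h : a < b ∧ b < c ∧ c < d
  · simp only [if_pos h]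
    exact c2_sep s h.1 h.2.1 h.2.2
  · simp only [if_neg h]

/-- (C2b, M/L) PROOF. `(cap .. true).card * (cap .. false).card = ∑ u ∈ V, ∑ v ∈ V, (if u ≠ x ∧ u ≠ y ∧ v ≠ x ∧ v ≠ y ∧ ab s x y u = true ∧ ab s x y v = false then 1 else 0)`, and in this case `u ≠ v`. So the left side is the sum over all
`x, y, u, v ∈ V` with `x < y` of an indicator which is 0 unless the four are distinct. Split the indicator in 12 parts according to the order of the distinct numbers `x < y`, `u`, `v`
(`u < v < x < y`, `v < u < x < y`, `u < x < v < y`, ..., `x < y < v < u`): each part is, after renaming the summation variables (`Finset.sum_comm`), a sum over `a, b, c, d ∈ V` of `if a < b ∧ b < c ∧ c < d then .. else 0`;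
the two parts with the same pair of positions for `x, y` together are the term of `sep4` of this edge:
`x y = a b`: `u, v = c, d` or `d, c`: `ab s a b c = !(s a b c)`, `ab s a b d = !(s a b d)`; `x y = a c`: `ab s a c b = s a b c`, `ab s a c d = !(s a c d)`; `x y = a d`: `s a b d`, `s a c d`; `x y = b c`: `!(s a b c)`, `!(s b c d)`; `x y = b d`: `!(s a b d)`, `s b c d`; `x y = c d`: `!(s a c d)`, `!(s b c d)`. -/
theorem sum_updn (s : ℕ → ℕ → ℕ → Bool) (V : Finset ℕ) :
    ∑ x ∈ V, ∑ y ∈ V.filter (fun y => x < y), (cap s V x y true).card * (cap s V x y false).card =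
      sum4 V (sep4 s) := by
  rw [← c2_S_h, ← c2_S_g]
  unfold c2_S
  refine Finset.sum_congr rfl fun x _ => ?_
  rw [Finset.sum_filter]
  refine Finset.sum_congr rfl fun y _ => ?_
  by_cases hxy : x < y
  · rw [if_pos hxy]
    unfold cap
    rw [Finset.card_filter, Finset.card_filter, Finset.sum_mul_sum]
    refine Finset.sum_congr rfl fun u _ => Finset.sum_congr rfl fun v _ => ?_
    unfold c2_g
    by_cases h1 : u ≠ x ∧ u ≠ y ∧ ab s x y u = true
    · by_cases h2 : v ≠ x ∧ v ≠ y ∧ ab s x y v = false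
      · rw [if_pos h1, if_pos h2, if_pos (⟨hxy, h1, h2⟩ : x < y ∧ (u ≠ x ∧ u ≠ y ∧ ab s x y u = true) ∧
          (v ≠ x ∧ v ≠ y ∧ ab s x y v = false)), mul_one]
      · rw [if_pos h1, if_neg h2, mul_zero, if_neg]
        exact fun h => h2 h.2.2
    · rw [if_neg h1, zero_mul, if_neg]
      exact fun h => h1 h.2.1
  · rw [if_neg hxy]
    symm
    refine Finset.sum_eq_zero fun u _ => Finset.sum_eq_zero fun v _ => ?_
    unfold c2_g
    rw [if_neg fun h => hxy h.1]

end H75M
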