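import Pool.Agent.Lib.H75M.C1B
import Pool.Agent.Lib.H75M.C2

/-! # H75M, chunk C2A (S): (up) x (down) and crossings -/

namespace H75M

variable {s : ℕ → ℕ → ℕ → Bool} {V : Finset ℕ}

theorem c2a_bool (p q r t : Bool) (h1 : p = r → q = p) (h2 : t = q → r = t) :
    ((if p = q then 0 else 1) + (if p = r then 1 else 0) + (if q = r then 0 else 1) +
      (if p = t then 0 else 1) + (if q = t then 1 else 0) + (if r = t then 0 else 1)) +
      ((if p = t then 1 else 0) + (if q = r then 0 else 1)) = 3 := by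
  revert h1 h2
  cases p <;> cases q <;> cases r <;> cases t <;> simp

/-- (C2a, S) PROOF. The four values are Bool, `SS.l`, `SS.r`: generalize and `decide`. -/
theorem sep4_add (hs : SS s V) {a b c d : ℕ} (ha : a ∈ V) (hb : b ∈ V) (hc : c ∈ V) (hd : d ∈ V)
    (h1 : a < b) (h2 : b < c) (h3 : c < d) : sep4 s a b c d + c4 s a b c d = 3 := by
  have e1 := hs.l a ha b hb c hc d hd h1 h2 h3
  have e2 := hs.r a ha b hb c hc d hd h1 h2 h3
  unfold sep4 c4
  exact c2a_bool _ _ _ _ e1 e2

/-- (C2c, S) PROOF. `sum_updn`, `sum4_congr` with `sep4_add` (`sum4` is additive: unfold, `Finset.sum_add_distrib`), `sum4_one` (times 3). -/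
theorem updn_add_crs (hs : SS s V) :
    ∑ x ∈ V, ∑ y ∈ V.filter (fun y => x < y), (cap s V x y true).card * (cap s V x y false).card +
      crs s V = 3 * V.card.choose 4 := by
  rw [sum_updn, ← sum4_one]
  have h1 : crs s V = sum4 V (c4 s) := rfl
  have h2 : sum4 V (sep4 s) + sum4 V (c4 s) = sum4 V (fun a b c d => sep4 s a b c d + c4 s a b c d) := by
    unfold sum4
    simp only [Finset.sum_add_distrib]
  have h3 : 3 * sum4 V (fun _ _ _ _ => 1) = sum4 V (fun _ _ _ _ => 3) := by
    unfold sum4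
    simp only [Finset.mul_sum, mul_one]
  rw [h1, h2, h3]
  exact sum4_congr V fun a ha b hb c hc d hd => sep4_add hs ha hb hc hd

end H75M
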