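import Pool.Agent.Lib.H75M.Defs

/-! # H75M, chunk C3C (S/M): the Hill number -/

namespace H75M

theorem c3c_sum (r : ℕ) : 4 * ∑ K ∈ Finset.range (r + 1), K * (K + 1) * (K + 2) = r * (r + 1) * (r + 2) * (r + 3) := by
  induction r with
  | zero => simp
  | succ r ih =>
    rw [Finset.sum_range_succ, mul_add, ih]
    ring

theorem c3c_hill (r t : ℕ) (ht : r * (r + 1) = t + t) : hill (2 * (r + 1) + 1) = t * t := by
  unfold hill
  have e1 : (2 * (r + 1) + 1) / 2 = r + 1 := by omega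
  have e2 : (2 * (r + 1) + 1 - 1) / 2 = r + 1 := by omega
  have e3 : (2 * (r + 1) + 1 - 2) / 2 = r := by omega
  have e4 : (2 * (r + 1) + 1 - 3) / 2 = r := by omega
  rw [e1, e2, e3, e4]
  have e5 : (r + 1) * (r + 1) * r * r = 4 * (t * t) := by
    calc (r + 1) * (r + 1) * r * r = (r * (r + 1)) * (r * (r + 1)) := by ring
      _ = 4 * (t * t) := by rw [ht]; ring
  rw [e5]
  exact Nat.mul_div_cancel_left _ (by norm_num)

/-- (C3d, S/M) PROOF. `hill (2 m + 1) = m * m * (m - 1) * (m - 1) / 4`, and `m * (m - 1)` is even, so `4 * hill (2 m + 1) = (m * (m - 1)) ^ 2`. `∑ K ∈ range m, K (K + 1) (K + 2) = (m - 1) m (m + 1) (m + 2) / 4` (induction on `m`);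
`(2 m + 1).choose 2 = m (2 m + 1)`, `24 * (2 m + 1).choose 4 = (2 m + 1) (2 m) (2 m - 1) (2 m - 2)` (`Nat.succ_mul_choose_eq` or `Nat.choose_two_right`, `Nat.descFactorial`). The identity of polynomials: `m = r + 1`, `ring` (the case `m = 0` separately). -/
theorem hill_id (m : ℕ) :
    hill (2 * m + 1) + (2 * m + 1).choose 2 * (m * (m - 1)) =
      3 * (2 * m + 1).choose 4 + ∑ K ∈ Finset.range m, K * (K + 1) * (K + 2) := by
  rcases m with _ | r
  · decide
  obtain ⟨t, ht⟩ := Nat.even_mul_succ_self r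
  rw [c3c_hill r t ht]
  have h2 : (2 * (r + 1) + 1).choose 2 = (2 * r + 3) * (r + 1) := by
    rw [Nat.choose_two_right]
    have : (2 * (r + 1) + 1) * (2 * (r + 1) + 1 - 1) = 2 * ((2 * r + 3) * (r + 1)) := by
      have e : 2 * (r + 1) + 1 - 1 = 2 * (r + 1) := by omega
      rw [e]; ring
    rw [this]
    exact Nat.mul_div_cancel_left _ (by norm_num)
  have h4 : 24 * (2 * (r + 1) + 1).choose 4 = (2 * r + 3) * (2 * r + 2) * (2 * r + 1) * (2 * r) := by
    have h := Nat.descFactorial_eq_factorial_mul_choose (2 * (r + 1) + 1) 4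
    have f4 : Nat.factorial 4 = 24 := rfl
    rw [f4] at h
    rw [← h]
    simp only [Nat.descFactorial_succ, Nat.descFactorial_zero, mul_one]
    have e0 : 2 * (r + 1) + 1 - 0 = 2 * r + 3 := by omega
    have e1 : 2 * (r + 1) + 1 - 1 = 2 * r + 2 := by omega
    have e2 : 2 * (r + 1) + 1 - 2 = 2 * r + 1 := by omega
    have e3 : 2 * (r + 1) + 1 - 3 = 2 * r := by omega
    rw [e0, e1, e2, e3]
    ring
  have h3 := c3c_sum r
  have e6 : r + 1 - 1 = r := by omega
  rw [h2, e6]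
  have a1 : 8 * (t * t) = 2 * ((r * (r + 1)) * (r * (r + 1))) := by rw [ht]; ring
  have e7 : 8 * (t * t + (2 * r + 3) * (r + 1) * ((r + 1) * r)) =
      8 * (3 * (2 * (r + 1) + 1).choose 4 + ∑ K ∈ Finset.range (r + 1), K * (K + 1) * (K + 2)) := by
    rw [mul_add, a1]
    have a2 : 8 * (3 * (2 * (r + 1) + 1).choose 4 + ∑ K ∈ Finset.range (r + 1), K * (K + 1) * (K + 2)) =
        24 * (2 * (r + 1) + 1).choose 4 + 2 * (4 * ∑ K ∈ Finset.range (r + 1), K * (K + 1) * (K + 2)) := by ring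
    rw [a2, h4, h3]
    ring
  exact Nat.eq_of_mul_eq_mul_left (by norm_num) e7

end H75M
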