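import Pool.Agent.Lib.H75M.C3B
import Pool.Agent.Lib.H75M.C3C

/-! # H75M, chunk C3 (S): the crossing number formula for odd n -/

namespace H75M

variable {s : ℕ → ℕ → ℕ → Bool} {V : Finset ℕ}

/-- (C3e, S) PROOF. `crs_formula`, `hill_id`, `omega` / `linarith`. -/
theorem crs_eq (hs : SS s V) {m : ℕ} (hV : V.card = 2 * m + 1) :
    crs s V + ∑ K ∈ Finset.range m, K * (K + 1) * (K + 2) =
      hill (2 * m + 1) + ∑ K ∈ Finset.range m, 2 * F s V K := by
  have h1 := crs_formula hs hV
  have h2 := hill_id m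
  rw [← Finset.mul_sum]
  omega

end H75M
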