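import Pool.Agent.Lib.H75M.Defs

/-! # H75M, chunk C3A (S/M): up and down -/

namespace H75M

variable {s : ℕ → ℕ → ℕ → Bool} {V : Finset ℕ}

/-- (C3a, S) PROOF. `V` is the disjoint union of the two caps and `{x, y}`. -/
theorem cap_total {x y : ℕ} (hx : x ∈ V) (hy : y ∈ V) (hxy : x < y) :
    (cap s V x y true).card + (cap s V x y false).card + 2 = V.card := by
  classical
  have h1 : Disjoint (cap s V x y true) (cap s V x y false) := by
    rw [Finset.disjoint_left]
    intro v hv hv'
    simp only [cap, Finset.mem_filter] at hv hv'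
    rw [hv.2.2.2] at hv'
    exact absurd hv'.2.2.2 (by decide)
  have h2 : V = (cap s V x y true ∪ cap s V x y false) ∪ {x, y} := by
    ext v
    simp only [cap, Finset.mem_union, Finset.mem_filter, Finset.mem_insert, Finset.mem_singleton]
    constructor
    · intro hv
      by_cases hvx : v = x
      · exact Or.inr (Or.inl hvx)
      by_cases hvy : v = y
      · exact Or.inr (Or.inr hvy)
      left
      rcases Bool.eq_false_or_eq_true (ab s x y v) with h | h
      · exact Or.inl ⟨hv, hvx, hvy, h⟩
      · exact Or.inr ⟨hv, hvx, hvy, h⟩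
    · rintro ((h | h) | h | h)
      · exact h.1
      · exact h.1
      · rw [h]; exact hx
      · rw [h]; exact hy
  have h3 : Disjoint (cap s V x y true ∪ cap s V x y false) {x, y} := by
    rw [Finset.disjoint_left]
    intro v hv hv'
    simp only [cap, Finset.mem_union, Finset.mem_filter, Finset.mem_insert, Finset.mem_singleton] at hv hv'
    rcases hv with h | h <;> rcases hv' with h' | h'
    · exact h.2.1 h'
    · exact h.2.2.1 h'
    · exact h.2.1 h'
    · exact h.2.2.1 h'
  have h4 := congrArg Finset.card h2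
  rw [Finset.card_union_of_disjoint h3, Finset.card_union_of_disjoint h1,
    Finset.card_pair hxy.ne] at h4
  exact h4.symm

theorem c3a_sum (a m : ℕ) : 2 * ∑ K ∈ Finset.range m, (K - a) = (m - a) * (m - a - 1) := by
  induction m with
  | zero => simp
  | succ m ih =>
    rw [Finset.sum_range_succ, mul_add, ih]
    rcases Nat.lt_or_ge m (a + 1) with h | h
    · have h1 : m - a = 0 := by omega
      have h2 : m + 1 - a - 1 = 0 := by omega
      rw [h1, h2]; simp
    · obtain ⟨r, rfl⟩ := Nat.exists_eq_add_of_le h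
      have h1 : a + 1 + r - a = r + 1 := by omega
      have h2 : a + 1 + r + 1 - a = r + 2 := by omega
      rw [h1, h2]
      simp only [Nat.add_sub_cancel]
      have h3 : r + 2 - 1 = r + 1 := rfl
      rw [h3]; ring

theorem c3a_le (a b m : ℕ) (hab : a ≤ b) (h : a + b + 2 = 2 * m + 1) :
    a * b + 2 * ∑ K ∈ Finset.range m, (K - a) = m * (m - 1) := by
  rw [c3a_sum]
  obtain ⟨r, rfl⟩ : ∃ r, m = a + 1 + r := ⟨m - a - 1, by omega⟩
  obtain rfl : b = a + 1 + 2 * r := by omega
  have h1 : a + 1 + r - a = r + 1 := by omega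
  have h2 : a + 1 + r - 1 = a + r := by omega
  rw [h1, h2, Nat.add_sub_cancel]
  ring

/-- (C3b, S/M) PROOF. Let `a ≤ b` without loss of generality, `a + b = 2 m - 1`, `m ≥ 1`, `a ≤ m - 1`. `∑ K ∈ range m, (K - a) = ∑ i ∈ range (m - a), i` and twice this is `(m - a) * (m - a - 1)` (`Finset.sum_range_id_mul_two`); write `m = a + 1 + r`, `b = a + 1 + 2 r`, `ring`. -/
theorem updn_id (a b m : ℕ) (h : a + b + 2 = 2 * m + 1) :
    a * b + 2 * ∑ K ∈ Finset.range m, (K - min a b) = m * (m - 1) := by
  rcases le_total a b with hab | hab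
  · rw [min_eq_left hab]; exact c3a_le a b m hab h
  · rw [min_eq_right hab, mul_comm a b]; exact c3a_le b a m hab (by omega)

end H75M
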