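import Pool.Agent.Lib.H75M.C2A
import Pool.Agent.Lib.H75M.C3A

/-! # H75M, chunk C3B (S/M): the crossing number formula for odd n -/

namespace H75M

variable {s : ℕ → ℕ → ℕ → Bool} {V : Finset ℕ}

/-- (C3c, S/M) PROOF. Sum `updn_id` (with `cap_total`) over all edges: the right side is `(2 m + 1 choose 2) * (m * (m - 1))` (`sum2_one`), the left side the sum of up x down plus `2 ∑ K ∈ range m, F s V K` (`Finset.sum_comm`, twice); then `updn_add_crs`. -/
theorem crs_formula (hs : SS s V) {m : ℕ} (hV : V.card = 2 * m + 1) :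
    crs s V + (2 * m + 1).choose 2 * (m * (m - 1)) =
      3 * (2 * m + 1).choose 4 + 2 * ∑ K ∈ Finset.range m, F s V K := by
  have h1 := updn_add_crs hs
  have e : ∑ K ∈ Finset.range m, F s V K =
      ∑ x ∈ V, ∑ y ∈ V.filter (fun y => x < y), ∑ K ∈ Finset.range m, (K - jj s V x y) := by
    unfold F
    rw [Finset.sum_comm]
    refine Finset.sum_congr rfl fun x _ => ?_
    rw [Finset.sum_comm]
  have h2 : (∑ x ∈ V, ∑ y ∈ V.filter (fun y => x < y), (cap s V x y true).card * (cap s V x y false).card) +
      2 * ∑ K ∈ Finset.range m, F s V K = (2 * m + 1).choose 2 * (m * (m - 1)) := by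
    rw [e, Finset.mul_sum, ← Finset.sum_add_distrib, ← hV, ← sum2_one, Finset.sum_mul]
    refine Finset.sum_congr rfl fun x hx => ?_
    rw [Finset.mul_sum, ← Finset.sum_add_distrib, Finset.sum_mul]
    refine Finset.sum_congr rfl fun y hy => ?_
    rw [one_mul]
    have hy' := Finset.mem_filter.1 hy
    have h3 := cap_total (s := s) hx hy'.1 hy'.2
    rw [hV] at h3
    exact updn_id _ _ m h3
  rw [hV] at h1
  omega

end H75M
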