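import Pool.Agent.Lib.H75M.C1A

/-! # H75M, chunk C4 (S/M): averaging over the vertex deleted subsets -/

namespace H75M

private theorem c4_er (V : Finset ℕ) (v : ℕ) (f : ℕ → ℕ) : ∑ a ∈ V.erase v, f a = ∑ a ∈ V, if a ≠ v then f a else 0 := by
  rw [← Finset.filter_ne', Finset.sum_filter]

private theorem c4_one (V : Finset ℕ) (g : ℕ → ℕ → ℕ → ℕ → ℕ) (v : ℕ) :
    sum4 (V.erase v) g = ∑ a ∈ V, ∑ b ∈ V, ∑ c ∈ V, ∑ d ∈ V,
      if (a < b ∧ b < c ∧ c < d) ∧ (a ≠ v ∧ b ≠ v ∧ c ≠ v ∧ d ≠ v) then g a b c d else 0 := by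
  rw [sum4_eq, c4_er]
  refine Finset.sum_congr rfl fun a _ => ?_
  by_cases ha : a ≠ v
  · rw [if_pos ha, c4_er]
    refine Finset.sum_congr rfl fun b _ => ?_
    by_cases hb : b ≠ v
    · rw [if_pos hb, c4_er]
      refine Finset.sum_congr rfl fun c _ => ?_
      by_cases hc : c ≠ v
      · rw [if_pos hc, c4_er]
        refine Finset.sum_congr rfl fun d _ => ?_
        by_cases hd : d ≠ v
        · rw [if_pos hd]
          by_cases h : a < b ∧ b < c ∧ c < d
          · rw [if_pos h, if_pos ⟨h, ha, hb, hc, hd⟩]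
          · rw [if_neg h, if_neg fun h' => h h'.1]
        · rw [if_neg hd, if_neg fun h' => hd h'.2.2.2.2]
      · rw [if_neg hc]
        symm
        exact Finset.sum_eq_zero fun d _ => if_neg fun h' => hc h'.2.2.2.1
    · rw [if_neg hb]
      symm
      exact Finset.sum_eq_zero fun c _ => Finset.sum_eq_zero fun d _ => if_neg fun h' => hb h'.2.2.1
  · rw [if_neg ha]
    symm
    exact Finset.sum_eq_zero fun b _ => Finset.sum_eq_zero fun c _ => Finset.sum_eq_zero fun d _ => if_neg fun h' => ha h'.2.1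

private theorem c4_card (V : Finset ℕ) {a b c d : ℕ} (ha : a ∈ V) (hb : b ∈ V) (hc : c ∈ V) (hd : d ∈ V)
    (h : a < b ∧ b < c ∧ c < d) : (V.filter fun v => a ≠ v ∧ b ≠ v ∧ c ≠ v ∧ d ≠ v).card = V.card - 4 := by
  have h1 : (V.filter fun v => a ≠ v ∧ b ≠ v ∧ c ≠ v ∧ d ≠ v) = V \ {a, b, c, d} := by
    ext v
    rw [Finset.mem_filter, Finset.mem_sdiff, Finset.mem_insert, Finset.mem_insert, Finset.mem_insert, Finset.mem_singleton]
    constructor
    · rintro ⟨h1, h2, h3, h4, h5⟩
      refine ⟨h1, ?_⟩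
      rintro (h | h | h | h)
      · exact h2 h.symm
      · exact h3 h.symm
      · exact h4 h.symm
      · exact h5 h.symm
    · rintro ⟨h1, h2⟩
      refine ⟨h1, fun h => h2 (Or.inl h.symm), fun h => h2 (Or.inr (Or.inl h.symm)), fun h => h2 (Or.inr (Or.inr (Or.inl h.symm))),
        fun h => h2 (Or.inr (Or.inr (Or.inr h.symm)))⟩
  have h2 : ({a, b, c, d} : Finset ℕ) ⊆ V := by
    intro v hv
    rw [Finset.mem_insert, Finset.mem_insert, Finset.mem_insert, Finset.mem_singleton] at hv
    rcases hv with h | h | h | h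
    · rw [h]; exact ha
    · rw [h]; exact hb
    · rw [h]; exact hc
    · rw [h]; exact hd
  have h3 : ({a, b, c, d} : Finset ℕ).card = 4 := by
    rw [Finset.card_insert_of_notMem, Finset.card_insert_of_notMem, Finset.card_insert_of_notMem, Finset.card_singleton]
    · rw [Finset.mem_singleton]; omega
    · rw [Finset.mem_insert, Finset.mem_singleton]; omega
    · rw [Finset.mem_insert, Finset.mem_insert, Finset.mem_singleton]; omega
  rw [h1, Finset.card_sdiff_of_subset h2, h3]

/-- (C4a, S/M) PROOF. `sum4_eq` for `V.erase v` (write the sums over `V.erase v` as sums over `V` with the additional condition `· ≠ v`, `Finset.sum_filter`/`Finset.filter_ne'`) and exchange the sums: for `a < b < c < d` in `V` the number of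
`v ∈ V` with `v ≠ a, b, c, d` is `V.card - 4`. -/
theorem sum4_erase (V : Finset ℕ) (g : ℕ → ℕ → ℕ → ℕ → ℕ) :
    ∑ v ∈ V, sum4 (V.erase v) g = (V.card - 4) * sum4 V g := by
  rw [Finset.sum_congr rfl fun v _ => c4_one V g v, sum4_eq, Finset.mul_sum, Finset.sum_comm]
  refine Finset.sum_congr rfl fun a ha => ?_
  rw [Finset.mul_sum, Finset.sum_comm]
  refine Finset.sum_congr rfl fun b hb => ?_
  rw [Finset.mul_sum, Finset.sum_comm]
  refine Finset.sum_congr rfl fun c hc => ?_
  rw [Finset.mul_sum, Finset.sum_comm]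
  refine Finset.sum_congr rfl fun d hd => ?_
  by_cases h : a < b ∧ b < c ∧ c < d
  · rw [if_pos h, ← Finset.sum_filter, Finset.sum_const, smul_eq_mul]
    congr 1
    rw [← c4_card V ha hb hc hd h]
    congr 1
    refine Finset.filter_congr fun v _ => ?_
    exact ⟨fun h' => h'.2, fun h' => ⟨h, h'⟩⟩
  · rw [if_neg h, mul_zero]
    exact Finset.sum_eq_zero fun v _ => if_neg fun h' => h h'.1

/-- (C4b, S) `crs s V` is `sum4 V (c4 s)` by definition -/
theorem crs_erase (s : ℕ → ℕ → ℕ → Bool) (V : Finset ℕ) :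
    ∑ v ∈ V, crs s (V.erase v) = (V.card - 4) * crs s V := by
  exact sum4_erase V (c4 s)

end H75M
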