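import Mathlib

/-!
# H75M: crossing-minimal x-monotone drawings of `K_n` are convex, sign configurations

Overview and complete proof: `PROOF.md`.  `s a b c` (used only for `a < b < c`): the vertex `b` is above the edge `ac`.
-/

namespace H75M

/-- adjacent edges do not cross: `s` is a sign configuration on the finite set `V`.
`(abc, abd, acd)` and `(bcd, acd, abd)` are not alternating. -/
structure SS (s : ℕ → ℕ → ℕ → Bool) (V : Finset ℕ) : Prop where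
  l : ∀ a ∈ V, ∀ b ∈ V, ∀ c ∈ V, ∀ d ∈ V, a < b → b < c → c < d →
    s a b c = s a c d → s a b d = s a b c
  r : ∀ a ∈ V, ∀ b ∈ V, ∀ c ∈ V, ∀ d ∈ V, a < b → b < c → c < d →
    s b c d = s a b d → s a c d = s b c d

/-- the side of the vertex `v` of the (extended) edge `xy`, `x < y`; `true` = above -/
def ab (s : ℕ → ℕ → ℕ → Bool) (x y v : ℕ) : Bool :=
  if v < x then !(s v x y) else if v < y then s x v y else !(s x y v)

/-- the vertices on the side `σ` of the edge `xy`, `x < y` -/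
def cap (s : ℕ → ℕ → ℕ → Bool) (V : Finset ℕ) (x y : ℕ) (σ : Bool) : Finset ℕ :=
  V.filter (fun v => v ≠ x ∧ v ≠ y ∧ ab s x y v = σ)

/-- the vertices outside the interval `[p, q]` -/
def wcap (V : Finset ℕ) (p q : ℕ) : Finset ℕ := V.filter (fun v => v < p ∨ q < v)

/-- valid caps of `V` -/
def IsCap (s : ℕ → ℕ → ℕ → Bool) (V A : Finset ℕ) : Prop :=
  (∃ x ∈ V, ∃ y ∈ V, ∃ σ : Bool, x < y ∧ A = cap s V x y σ ∧ (∃ l ∈ V, l < x ∧ l ∉ A) ∧
    (∃ r ∈ V, y < r ∧ r ∉ A)) ∨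
  (∃ x ∈ V, ∃ y ∈ V, A = wcap V x y ∧ (∃ u ∈ V, x < u ∧ u < y ∧ s x u y = true) ∧
    (∃ u ∈ V, x < u ∧ u < y ∧ s x u y = false))

/-- two disjoint valid caps with at least four vertices outside their union -/
def Pair (s : ℕ → ℕ → ℕ → Bool) (V : Finset ℕ) : Prop :=
  ∃ A B : Finset ℕ, IsCap s V A ∧ IsCap s V B ∧ Disjoint A B ∧ A.card + B.card + 4 ≤ V.card

/-- the smaller number of vertices on one side of the edge `xy` -/
def jj (s : ℕ → ℕ → ℕ → Bool) (V : Finset ℕ) (x y : ℕ) : ℕ :=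
  min (cap s V x y true).card (cap s V x y false).card

/-- `∑ (K - j(e))⁺` over all edges -/
def F (s : ℕ → ℕ → ℕ → Bool) (V : Finset ℕ) (K : ℕ) : ℕ :=
  ∑ x ∈ V, ∑ y ∈ V.filter (fun y => x < y), (K - jj s V x y)

/-- number of crossings of four vertices `a < b < c < d` -/
def c4 (s : ℕ → ℕ → ℕ → Bool) (a b c d : ℕ) : ℕ :=
  (if s a b c = s b c d then 1 else 0) + (if s a b d = s a c d then 0 else 1)

/-- number of crossings -/
def crs (s : ℕ → ℕ → ℕ → Bool) (V : Finset ℕ) : ℕ :=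
  ∑ a ∈ V, ∑ b ∈ V.filter (fun b => a < b), ∑ c ∈ V.filter (fun c => b < c),
    ∑ d ∈ V.filter (fun d => c < d), c4 s a b c d

/-- the Hill number (the division by 4 is exact) -/
def hill (n : ℕ) : ℕ := (n / 2) * ((n - 1) / 2) * ((n - 2) / 2) * ((n - 3) / 2) / 4

/-- the basic pattern -/
def kap (s : ℕ → ℕ → ℕ → Bool) (e : Bool) (a b c d : ℕ) : Prop :=
  a < b ∧ b < c ∧ c < d ∧ s a b c = e ∧ s a b d = !e ∧ s b c d = e

/-- L-state -/
def Lst (s : ℕ → ℕ → ℕ → Bool) (V : Finset ℕ) (e : Bool) (a b c d f : ℕ) : Prop :=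
  (a ∈ V ∧ b ∈ V ∧ c ∈ V ∧ d ∈ V ∧ f ∈ V) ∧ kap s e a b c d ∧ d < f ∧ s b c f = !e

/-- R-state -/
def Rst (s : ℕ → ℕ → ℕ → Bool) (V : Finset ℕ) (e : Bool) (a b c d u : ℕ) : Prop :=
  (a ∈ V ∧ b ∈ V ∧ c ∈ V ∧ d ∈ V ∧ u ∈ V) ∧ kap s e a b c d ∧ u < a ∧ s u b c = !e

/-- W-state -/
def Wst (s : ℕ → ℕ → ℕ → Bool) (V : Finset ℕ) (e : Bool) (a b c d v : ℕ) : Prop :=
  (a ∈ V ∧ b ∈ V ∧ c ∈ V ∧ d ∈ V ∧ v ∈ V) ∧ kap s e a b c d ∧ a < v ∧ v < d ∧ s a v d = e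

/-- Z-state -/
def Zst (s : ℕ → ℕ → ℕ → Bool) (V : Finset ℕ) (e : Bool) (u x y z v : ℕ) : Prop :=
  (u ∈ V ∧ x ∈ V ∧ y ∈ V ∧ z ∈ V ∧ v ∈ V) ∧ (u < x ∧ x < y ∧ y < z ∧ z < v) ∧
    s u x y = e ∧ s u y z = !e ∧ s x y v = e ∧ s y z v = !e

/-- there is a state: the configuration is not convex -/
def HasState (s : ℕ → ℕ → ℕ → Bool) (V : Finset ℕ) : Prop :=
  (∃ e a b c d f, Lst s V e a b c d f) ∨ (∃ e a b c d u, Rst s V e a b c d u) ∨
    (∃ e a b c d v, Wst s V e a b c d v) ∨ (∃ e u x y z v, Zst s V e u x y z v)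

/-- there is an L- or R-state with the middle edge `bc` -/
def LR (s : ℕ → ℕ → ℕ → Bool) (V : Finset ℕ) (b c : ℕ) : Prop :=
  (∃ e a d f, Lst s V e a b c d f) ∨ (∃ e a d u, Rst s V e a b c d u)

/-- right vertices `q` of `p` whose edge `pq` is invariant at level `K` when the last vertex `N` is added to `V` -/
def invr (s : ℕ → ℕ → ℕ → Bool) (V : Finset ℕ) (N K p : ℕ) : Finset ℕ :=
  V.filter (fun q => p < q ∧ jj s (insert N V) p q = jj s V p q ∧ jj s V p q ≤ K)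

/-- number of vertices of `V` left of `p` -/
def lf (V : Finset ℕ) (p : ℕ) : ℕ := (V.filter (fun v => v < p)).card

end H75M
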