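import Pool.Agent.Lib.H75M.QDefs

/-!
# H75M: x-monotone good drawings of the complete graph `K_n` in the plane
-/

namespace H75M

/-- An x-monotone good drawing of the complete graph `K_n` in the plane. The vertices `0, 1, .., n - 1` are the points `(x i, y i)`,
numbered from left to right, and for `i < j` the edge `ij` is the graph of the continuous function `f i j` over the interval `[x i, x j]` (an x-monotone arc).
`avoid`: an edge passes through no vertex except its ends. `adjL`, `adjR`: two edges with a common left end (right end) meet only there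
(two edges `ij`, `jk` with `i < j < k` meet only at `j` automatically). `once`: two edges without common end meet in at most one point, `proper`: this point is a proper crossing. -/
structure MDrawing (n : ℕ) where
  /-- abscissae of the vertices -/
  x : Fin n → ℝ
  /-- ordinates of the vertices -/
  y : Fin n → ℝ
  /-- the edges -/
  f : Fin n → Fin n → ℝ → ℝ
  mono : StrictMono x
  cont : ∀ i j, i < j → ContinuousOn (f i j) (Set.Icc (x i) (x j))
  left : ∀ i j, i < j → f i j (x i) = y i
  right : ∀ i j, i < j → f i j (x j) = y j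
  avoid : ∀ i k j, i < k → k < j → f i j (x k) ≠ y k
  adjL : ∀ i j k, i < j → j < k → ∀ t ∈ Set.Ioc (x i) (x j), f i j t ≠ f i k t
  adjR : ∀ i j k, i < j → j < k → ∀ t ∈ Set.Ico (x j) (x k), f i k t ≠ f j k t
  once : ∀ i j k l, i < j → k < l → i < k → j ≠ k → j ≠ l →
    ∀ t ∈ Set.Icc (x i) (x j) ∩ Set.Icc (x k) (x l), ∀ t' ∈ Set.Icc (x i) (x j) ∩ Set.Icc (x k) (x l),
      f i j t = f k l t → f i j t' = f k l t' → t = t'
  proper : ∀ i j k l, i < j → k < l → i < k → j ≠ k → j ≠ l →
    ∀ t ∈ Set.Icc (x i) (x j) ∩ Set.Icc (x k) (x l), f i j t = f k l t → ∃ δ > 0,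
      ((∀ u ∈ Set.Ioo (t - δ) t, f i j u < f k l u) ∧ (∀ u ∈ Set.Ioo t (t + δ), f k l u < f i j u)) ∨
      ((∀ u ∈ Set.Ioo (t - δ) t, f k l u < f i j u) ∧ (∀ u ∈ Set.Ioo t (t + δ), f i j u < f k l u))

variable {n : ℕ}

/-- the edges `ij` (`i < j`) and `kl` (`k < l`) have a common point -/
def MDrawing.Meet (D : MDrawing n) (i j k l : Fin n) : Prop :=
  ∃ t ∈ Set.Icc (D.x i) (D.x j) ∩ Set.Icc (D.x k) (D.x l), D.f i j t = D.f k l t

open Classical in
/-- the number of crossings: the number of unordered pairs of edges `ij`, `kl` without common end which cross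
(`i < j`, `k < l`, and `i < k` selects one of the two orders of the pair) -/
noncomputable def MDrawing.cr (D : MDrawing n) : ℕ :=
  ((Finset.univ : Finset ((Fin n × Fin n) × (Fin n × Fin n))).filter (fun e =>
    e.1.1 < e.1.2 ∧ e.2.1 < e.2.2 ∧ e.1.1 < e.2.1 ∧ e.1.2 ≠ e.2.1 ∧ e.1.2 ≠ e.2.2 ∧
      D.Meet e.1.1 e.1.2 e.2.1 e.2.2)).card

/-- the path consisting of the edges `ij` and `jk`, as a function -/
noncomputable def MDrawing.path (D : MDrawing n) (i j k : Fin n) (t : ℝ) : ℝ :=
  if t ≤ D.x j then D.f i j t else D.f j k t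

/-- the bounded closed side of the triangle `ijk`, `i < j < k`: the points between the path `ijk` and the edge `ik` -/
def MDrawing.inner (D : MDrawing n) (i j k : Fin n) : Set (ℝ × ℝ) :=
  {p | D.x i ≤ p.1 ∧ p.1 ≤ D.x k ∧ min (D.path i j k p.1) (D.f i k p.1) ≤ p.2 ∧
    p.2 ≤ max (D.path i j k p.1) (D.f i k p.1)}

/-- the other closed side of the triangle `ijk`, `i < j < k` (without the point at infinity): the points which are not strictly between the path `ijk` and the edge `ik` -/
def MDrawing.outer (D : MDrawing n) (i j k : Fin n) : Set (ℝ × ℝ) :=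
  {p | ¬ (D.x i < p.1 ∧ p.1 < D.x k ∧ min (D.path i j k p.1) (D.f i k p.1) < p.2 ∧
    p.2 < max (D.path i j k p.1) (D.f i k p.1))}

/-- the edge `uv`, `u < v`, as a set of points -/
def MDrawing.arc (D : MDrawing n) (u v : Fin n) : Set (ℝ × ℝ) :=
  {p | D.x u ≤ p.1 ∧ p.1 ≤ D.x v ∧ p.2 = D.f u v p.1}

/-- a side of a triangle is convex if it contains the edge `uv` whenever it contains the vertices `u` and `v` -/
def MDrawing.ConvexSide (D : MDrawing n) (S : Set (ℝ × ℝ)) : Prop :=
  ∀ u v : Fin n, u < v → (D.x u, D.y u) ∈ S → (D.x v, D.y v) ∈ S → D.arc u v ⊆ S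

/-- the drawing is convex: every triangle has a convex side -/
def MDrawing.Convex (D : MDrawing n) : Prop :=
  ∀ i j k : Fin n, i < j → j < k → D.ConvexSide (D.inner i j k) ∨ D.ConvexSide (D.outer i j k)

/-- the signs of the drawing: `b` is above the edge `ac` -/
noncomputable def MDrawing.sg (D : MDrawing n) (a b c : ℕ) : Bool :=
  if h : a < n ∧ b < n ∧ c < n then
    decide (D.f ⟨a, h.1⟩ ⟨c, h.2.2⟩ (D.x ⟨b, h.2.1⟩) < D.y ⟨b, h.2.1⟩)
  else false

theorem MDrawing.sg_eq (D : MDrawing n) (a b c : Fin n) :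
    D.sg a b c = decide (D.f a c (D.x b) < D.y b) := by
  simp [MDrawing.sg]

end H75M
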