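import Mathlib

/-! # H75M, chunk E1A (S/M): a sum -/

namespace H75M

/-- (E1a, S/M) PROOF. Only the `i ≤ K` and the `i ≥ n - 1 - K` contribute (`min i (n - 1 - i) ≤ K`), they are disjoint because `2 * (K + 1) ≤ n`. E.g. induction on `K`:
for `K = 0` the two terms `i = 0`, `i = n - 1`; from `K` to `K + 1` (`2 * (K + 2) ≤ n`): `K + 2 - m = (K + 1 - m) + (if m ≤ K + 1 then 1 else 0)` with `m = min i (n - 1 - i)`, and the number of `i < n` with `m ≤ K + 1` is `2 * (K + 2)`. -/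
theorem sum_min (K n : ℕ) (h : 2 * (K + 1) ≤ n) :
    ∑ i ∈ Finset.range n, (K + 1 - min i (n - 1 - i)) = (K + 1) * (K + 2) := by
  obtain ⟨r, rfl⟩ : ∃ r, n = (K + 1) + (r + (K + 1)) := ⟨n - 2 * (K + 1), by omega⟩
  rw [Finset.sum_range_add _ (K + 1) (r + (K + 1)), Finset.sum_range_add _ r (K + 1)]
  have h1 : ∑ x ∈ Finset.range r, (K + 1 - min (K + 1 + x) (K + 1 + (r + (K + 1)) - 1 - (K + 1 + x))) = 0 := by
    refine Finset.sum_eq_zero fun x hx => ?_
    rw [Finset.mem_range] at hx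
    omega
  rw [h1, zero_add, ← Finset.sum_add_distrib]
  have h2 : ∀ x ∈ Finset.range (K + 1), K + 1 - min x (K + 1 + (r + (K + 1)) - 1 - x) +
      (K + 1 - min (K + 1 + (r + x)) (K + 1 + (r + (K + 1)) - 1 - (K + 1 + (r + x)))) = K + 2 := by
    intro x hx
    rw [Finset.mem_range] at hx
    omega
  rw [Finset.sum_congr rfl h2, Finset.sum_const, Finset.card_range, smul_eq_mul]

end H75M
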