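import Mathlib

/-! # H75M, chunk O2 (S/M): ranks in a linear order -/

namespace H75M

theorem o2_lt (R : Finset ℕ) (lt : ℕ → ℕ → Prop) [DecidableRel lt]
    (irr : ∀ x ∈ R, ¬ lt x x) (tr : ∀ x ∈ R, ∀ y ∈ R, ∀ z ∈ R, lt x y → lt y z → lt x z)
    {x y : ℕ} (hx : x ∈ R) (hy : y ∈ R) (h : lt x y) :
    (R.filter (fun r => lt y r)).card < (R.filter (fun r => lt x r)).card := by
  refine Finset.card_lt_card ?_
  rw [Finset.ssubset_iff_of_subset]
  · exact ⟨y, Finset.mem_filter.2 ⟨hy, h⟩, fun h2 => irr y hy (Finset.mem_filter.1 h2).2⟩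
  · intro r hr
    rw [Finset.mem_filter] at hr ⊢
    exact ⟨hr.1, tr x hx y hy r hr.1 h hr.2⟩

/-- (O2a, S/M) The ranks of the elements of a linearly ordered finite set `R` are `0, .., |R| - 1`. PROOF. Induction on `R.card` (strong): if `R` is nonempty there is an element `m`
with no larger element (`lt m r` false for all `r ∈ R`; `Finset.exists_maximal`-like argument, or: take `m` with the smallest rank; a larger element would have a smaller rank by transitivity).
Its rank is `0`, and for the others the rank in `R` is the rank in `R.erase m` plus 1 (`lt q m` by totality). So the sum is `g 0 + ∑ i ∈ range (R.card - 1), g (i + 1)` by induction for the function `fun i => g (i + 1)`,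
`Finset.sum_range_succ'`. (Or: `q ↦ rank` is injective by totality and transitivity, values `< R.card`; so it is a bijection onto `range R.card`, `Finset.sum_nbij`, `Finset.surj_on_of_inj_on_of_card_le`.) -/
theorem rank_sum (R : Finset ℕ) (lt : ℕ → ℕ → Prop) [DecidableRel lt]
    (irr : ∀ x ∈ R, ¬ lt x x) (tr : ∀ x ∈ R, ∀ y ∈ R, ∀ z ∈ R, lt x y → lt y z → lt x z)
    (tot : ∀ x ∈ R, ∀ y ∈ R, x ≠ y → lt x y ∨ lt y x) (g : ℕ → ℕ) :
    ∑ q ∈ R, g ((R.filter (fun r => lt q r)).card) = ∑ i ∈ Finset.range R.card, g i := by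
  have hmem : ∀ q ∈ R, (R.filter (fun r => lt q r)).card ∈ Finset.range R.card := by
    intro q hq
    rw [Finset.mem_range]
    refine Finset.card_lt_card ?_
    rw [Finset.ssubset_iff_of_subset (Finset.filter_subset _ _)]
    exact ⟨q, hq, fun h2 => irr q hq (Finset.mem_filter.1 h2).2⟩
  have hinj : Set.InjOn (fun q => (R.filter (fun r => lt q r)).card) (R : Set ℕ) := by
    intro x hx y hy hxy
    by_contra hne
    rcases tot x hx y hy hne with h | h
    · exact absurd hxy (o2_lt R lt irr tr hx hy h).ne'
    · exact absurd hxy (o2_lt R lt irr tr hy hx h).ne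
  have himg : R.image (fun q => (R.filter (fun r => lt q r)).card) = Finset.range R.card := by
    refine Finset.eq_of_subset_of_card_le ?_ ?_
    · intro i hi
      obtain ⟨q, hq, rfl⟩ := Finset.mem_image.1 hi
      exact hmem q hq
    · rw [Finset.card_range, Finset.card_image_of_injOn hinj]
  rw [← himg, Finset.sum_image hinj]

/-- (O2b, S) PROOF. `rank_sum` with `g i = if i < t then 1 else 0`, `Finset.card_filter`. -/
theorem rank_count (R : Finset ℕ) (lt : ℕ → ℕ → Prop) [DecidableRel lt]
    (irr : ∀ x ∈ R, ¬ lt x x) (tr : ∀ x ∈ R, ∀ y ∈ R, ∀ z ∈ R, lt x y → lt y z → lt x z)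
    (tot : ∀ x ∈ R, ∀ y ∈ R, x ≠ y → lt x y ∨ lt y x) (t : ℕ) (ht : t ≤ R.card) :
    (R.filter (fun q => (R.filter (fun r => lt q r)).card < t)).card = t := by
  rw [Finset.card_filter, rank_sum R lt irr tr tot (fun i => if i < t then 1 else 0), ← Finset.card_filter]
  have e : (Finset.range R.card).filter (fun i => i < t) = Finset.range t := by
    ext i
    rw [Finset.mem_filter, Finset.mem_range, Finset.mem_range]
    omega
  rw [e, Finset.card_range]

end H75M
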