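import Pool.Agent.Lib.H75M.O1
import Pool.Agent.Lib.H75M.O2
import Pool.Agent.Lib.H75M.E1A

/-! # H75M, chunk E1 (S/M): the edges at the last vertex -/

namespace H75M

variable {s : ℕ → ℕ → ℕ → Bool} {V : Finset ℕ}

/-- (E1b, S/M) PROOF. `rank_sum` for `V`, `lt x v := v ≠ x ∧ ab s x N v = true` (irreflexive; transitive by `ab_left_trans`, total by `ab_left_anti` for `y = N`; in the transitivity `x = z` is impossible by `ab_left_anti`) and
`g i = K + 1 - min i (V.card - 1 - i)`; then `sum_min` with `n = V.card`. For `x ∈ V`: `cap s (insert N V) x N true = V.filter (lt x)` (`N` is excluded, `N ∉ V`), and the cap with `false` has `V.card - 1 - |cap with true|` elements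
(the two caps and `x` partition `V`). -/
theorem sum_last (N : ℕ) (hs : SS s (insert N V)) (hN : ∀ v ∈ V, v < N) (K : ℕ)
    (hK : 2 * (K + 1) ≤ V.card) :
    ∑ x ∈ V, (K + 1 - jj s (insert N V) x N) = (K + 1) * (K + 2) := by
  classical
  have hNV : N ∉ V := fun h => lt_irrefl N (hN N h)
  have hin : ∀ v ∈ V, v ∈ insert N V := fun v hv => Finset.mem_insert_of_mem hv
  have hNN : N ∈ insert N V := Finset.mem_insert_self N V
  have h := rank_sum V (fun x v => v ≠ x ∧ ab s x N v = true) (fun x _ h => h.1 rfl)
    (by
      rintro x hx y hy z hz ⟨h1, h2⟩ ⟨h3, h4⟩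
      have hxz : x ≠ z := by
        rintro rfl
        rw [ab_left_anti (hN x hx) (hN y hy) h1.symm, h2] at h4
        exact absurd h4 (by decide)
      exact ⟨hxz.symm, ab_left_trans hs (hin x hx) (hin y hy) (hin z hz) hNN (hN x hx) (hN y hy) (hN z hz)
        h1.symm hxz h3.symm h2 h4⟩)
    (by
      intro x hx y hy hne
      rcases hb : ab s x N y with _ | _
      · right
        refine ⟨hne, ?_⟩
        rw [ab_left_anti (hN x hx) (hN y hy) hne, hb]
        rfl
      · left
        exact ⟨hne.symm, rfl⟩)
    (fun i => K + 1 - min i (V.card - 1 - i))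
  rw [sum_min K V.card hK] at h
  rw [← h]
  refine Finset.sum_congr rfl fun x hx => ?_
  have hxN : x ≠ N := (hN x hx).ne
  have e : ∀ σ : Bool, cap s (insert N V) x N σ = V.filter (fun v => v ≠ x ∧ ab s x N v = σ) := by
    intro σ
    ext v
    unfold cap
    rw [Finset.mem_filter, Finset.mem_filter, Finset.mem_insert]
    constructor
    · rintro ⟨h1, h2, h3, h4⟩
      exact ⟨h1.resolve_left h3, h2, h4⟩
    · rintro ⟨h1, h2, h4⟩
      exact ⟨Or.inr h1, h2, (hN v h1).ne, h4⟩
  have hc : (V.filter (fun v => v ≠ x ∧ ab s x N v = true)).card +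
      (V.filter (fun v => v ≠ x ∧ ab s x N v = false)).card + 1 = V.card := by
    have h1 : V.filter (fun v => v ≠ x ∧ ab s x N v = true) = (V.erase x).filter (fun v => ab s x N v = true) := by
      ext v
      simp only [Finset.mem_filter, Finset.mem_erase]
      tauto
    have h2 : V.filter (fun v => v ≠ x ∧ ab s x N v = false) = (V.erase x).filter (fun v => ¬ ab s x N v = true) := by
      ext v
      simp only [Finset.mem_filter, Finset.mem_erase, Bool.not_eq_true]
      tauto
    rw [h1, h2, Finset.card_filter_add_card_filter_not, Finset.card_erase_add_one hx]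
  unfold jj
  rw [e true, e false]
  have h3 : (V.filter (fun v => v ≠ x ∧ ab s x N v = false)).card =
      V.card - 1 - (V.filter (fun v => v ≠ x ∧ ab s x N v = true)).card := by omega
  rw [h3]

end H75M
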