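import Pool.Agent.Lib.H75M.E2A

/-! # H75M, chunk E2 (S/M): adding the last vertex, the sums -/

namespace H75M

variable {s : ℕ → ℕ → ℕ → Bool} {V : Finset ℕ}

/-- (E2c, S/M) PROOF. The outer sum over `insert N V`: for `x = N` the filter `N < y` is empty. For `x ∈ V` (`x < N`): `(insert N V).filter (x < ·) = insert N (V.filter (x < ·))`. So the left side is
`∑ x ∈ V, (K + 1 - jj (insert N V) x N) + ∑ x ∈ V, ∑ y ∈ V.filter (x < ·), (K + 1 - jj (insert N V) x y)`. For `x < y` in `V` by `jj_insert`: `K + 1 - jj (insert N V) x y = (K - jj V x y) + (if jj (insert N V) x y = jj V x y ∧ jj V x y ≤ K then 1 else 0)` (`omega`),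
and `∑ y ∈ V.filter (x < ·), (if .. then 1 else 0) = (invr s V N K x).card` (`Finset.card_filter`, `Finset.filter_filter`). -/
theorem F_step (N : ℕ) (hN : ∀ v ∈ V, v < N) (K : ℕ) :
    F s (insert N V) (K + 1) =
      F s V K + ∑ p ∈ V, (invr s V N K p).card + ∑ x ∈ V, (K + 1 - jj s (insert N V) x N) := by
  have hNV : N ∉ V := fun h => lt_irrefl _ (hN N h)
  unfold F
  rw [Finset.sum_insert hNV]
  have h0 : (insert N V).filter (fun y => N < y) = ∅ := by
    rw [Finset.filter_eq_empty_iff]
    intro y hy
    rcases Finset.mem_insert.1 hy with h | h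
    · omega
    · have := hN y h
      omega
  rw [h0, Finset.sum_empty, zero_add, ← Finset.sum_add_distrib, ← Finset.sum_add_distrib]
  refine Finset.sum_congr rfl fun x hx => ?_
  have hxN := hN x hx
  have h1 : (insert N V).filter (fun y => x < y) = insert N (V.filter (fun y => x < y)) := by
    rw [Finset.filter_insert, if_pos hxN]
  have h2 : N ∉ V.filter (fun y => x < y) := fun h => hNV (Finset.mem_filter.1 h).1
  rw [h1, Finset.sum_insert h2]
  have h3 : (invr s V N K x).card = ∑ y ∈ V.filter (fun y => x < y),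
      (if jj s (insert N V) x y = jj s V x y ∧ jj s V x y ≤ K then 1 else 0) := by
    unfold invr
    rw [← Finset.card_filter, Finset.filter_filter]
  rw [h3, ← Finset.sum_add_distrib, add_comm]
  congr 1
  refine Finset.sum_congr rfl fun y hy => ?_
  have hy' := Finset.mem_filter.1 hy
  have hyN := hN y hy'.1
  have h4 := jj_insert (s := s) hNV (Ne.symm hxN.ne) (Ne.symm hyN.ne)
  split_ifs with h5 <;> omega

end H75M
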