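import Pool.Agent.Lib.H75M.Defs

/-! # H75M, chunk E2A (S): adding the last vertex, caps -/

namespace H75M

variable {s : ℕ → ℕ → ℕ → Bool} {V : Finset ℕ}

/-- (E2a, S) PROOF. `Finset.filter_insert`, `N ≠ p`, `N ≠ q`. -/
theorem cap_insert {N p q : ℕ} (hNp : N ≠ p) (hNq : N ≠ q) (σ : Bool) :
    cap s (insert N V) p q σ =
      if ab s p q N = σ then insert N (cap s V p q σ) else cap s V p q σ := by
  unfold cap
  rw [Finset.filter_insert]
  by_cases h : ab s p q N = σ
  · rw [if_pos ⟨hNp, hNq, h⟩, if_pos h]
  · rw [if_neg fun h' => h h'.2.2, if_neg h]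

/-- (E2b, S) PROOF. `cap_insert` for `σ = true, false`: exactly one of the two caps gets the new element `N ∉ V`; the minimum of two numbers grows by 0 or 1. -/
theorem jj_insert {N p q : ℕ} (hN : N ∉ V) (hNp : N ≠ p) (hNq : N ≠ q) :
    jj s (insert N V) p q = jj s V p q ∨ jj s (insert N V) p q = jj s V p q + 1 := by
  have ht := cap_insert (s := s) (V := V) hNp hNq true
  have hf := cap_insert (s := s) (V := V) hNp hNq false
  have hnt : N ∉ cap s V p q true := fun h => hN (Finset.mem_filter.1 h).1
  have hnf : N ∉ cap s V p q false := fun h => hN (Finset.mem_filter.1 h).1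
  unfold jj
  rw [ht, hf]
  cases hab : ab s p q N
  · rw [if_neg (by simp), if_pos rfl, Finset.card_insert_of_notMem hnf]
    omega
  · rw [if_pos rfl, if_neg (by simp), Finset.card_insert_of_notMem hnt]
    omega

end H75M
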