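import Pool.Agent.Lib.H75M.E3B

/-! # H75M, chunk E3 (S/M): the outermost edges at a vertex are invariant -/

namespace H75M

variable {s : ℕ → ℕ → ℕ → Bool} {V : Finset ℕ}

/-- (E3d, S/M) PROOF. Let `q ∈ Tset`. `cap s V p q σ` is contained in the union of the left vertices `V.filter (· < p)` and of `(Uset).filter (fun r => r ≠ q ∧ ab s p q r = σ)` (`Uset_up`), so it has at most `lf V p + (K + 1 - lf V p - 1) = K` elements;
`invr_of_cap`. (`Tset` is empty if `K + 1 ≤ lf V p`.) -/
theorem Tset_sub (N : ℕ) (hs : SS s (insert N V)) (hN : ∀ v ∈ V, v < N) {p K : ℕ} (hp : p ∈ V)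
    (σ : Bool) (hK : 2 * (K + 1) ≤ V.card) :
    Tset s V N p (K + 1 - lf V p) σ ⊆ invr s V N K p := by
  intro q hq
  unfold Tset at hq
  rw [Finset.mem_filter] at hq
  obtain ⟨hqU, hcard⟩ := hq
  have hqU' := hqU
  unfold Uset at hqU'
  rw [Finset.mem_filter] at hqU'
  obtain ⟨hqV, hpq, hqN⟩ := hqU'
  refine invr_of_cap N hN hp hqV hpq hqN ?_ hK
  have hsub : cap s V p q σ ⊆ V.filter (fun v => v < p) ∪
      (Uset s V N p σ).filter (fun r => r ≠ q ∧ ab s p q r = σ) := by
    intro v hv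
    unfold cap at hv
    rw [Finset.mem_filter] at hv
    obtain ⟨hvV, hvp, hvq, hab⟩ := hv
    rw [Finset.mem_union]
    rcases lt_or_gt_of_ne hvp with h | h
    · exact Or.inl (Finset.mem_filter.2 ⟨hvV, h⟩)
    · exact Or.inr (Finset.mem_filter.2 ⟨Uset_up N hs hN hp hqU hvV h hvq hab, hvq, hab⟩)
  have h1 := (Finset.card_le_card hsub).trans (Finset.card_union_le _ _)
  have h2 : (V.filter (fun v => v < p)).card = lf V p := rfl
  rw [h2] at h1
  omega

end H75M
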