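import Pool.Agent.Lib.H75M.E2A

/-! # H75M, chunk E3A (S): invariant edges -/

namespace H75M

variable {s : ℕ → ℕ → ℕ → Bool} {V : Finset ℕ}

/-- the right vertices `q` of `p` such that the last vertex `N` is not on the side `σ` of `pq` -/
def Uset (s : ℕ → ℕ → ℕ → Bool) (V : Finset ℕ) (N p : ℕ) (σ : Bool) : Finset ℕ :=
  V.filter (fun q => p < q ∧ ab s p q N = !σ)

/-- the `t` outermost edges in the direction `σ` -/
def Tset (s : ℕ → ℕ → ℕ → Bool) (V : Finset ℕ) (N p t : ℕ) (σ : Bool) : Finset ℕ :=
  (Uset s V N p σ).filter (fun q => ((Uset s V N p σ).filter (fun r => r ≠ q ∧ ab s p q r = σ)).card < t)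

theorem e3a_sum {p q : ℕ} (hp : p ∈ V) (hq : q ∈ V) (hpq : p < q) :
    (cap s V p q true).card + (cap s V p q false).card + 2 = V.card := by
  have h1 : cap s V p q true = ((V.erase p).erase q).filter (fun v => ab s p q v = true) := by
    ext v
    unfold cap
    simp only [Finset.mem_filter, Finset.mem_erase]
    tauto
  have h2 : cap s V p q false = ((V.erase p).erase q).filter (fun v => ¬ ab s p q v = true) := by
    ext v
    unfold cap
    simp only [Finset.mem_filter, Finset.mem_erase, Bool.not_eq_true]
    tauto
  have h3 : ((V.erase p).erase q).card + 2 = V.card := by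
    have h4 : q ∈ V.erase p := Finset.mem_erase.2 ⟨hpq.ne', hq⟩
    have h5 := Finset.card_erase_add_one h4
    have h6 := Finset.card_erase_add_one hp
    omega
  rw [h1, h2, Finset.card_filter_add_card_filter_not, h3]

/-- (E3a, S) PROOF. `cap_insert`: the cap of `pq` on the side `σ` does not change, the other one gets `N`. The two caps of `pq` in `V` have together `V.card - 2` elements, so the other cap has at least `V.card - 2 - K ≥ K` elements;
so the minimum is the number of elements of the cap `σ`, before and after. -/
theorem invr_of_cap (N : ℕ) (hN : ∀ v ∈ V, v < N) {p q K : ℕ} (hp : p ∈ V) (hq : q ∈ V)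
    (hpq : p < q) {σ : Bool} (h1 : ab s p q N = !σ) (h2 : (cap s V p q σ).card ≤ K)
    (hK : 2 * (K + 1) ≤ V.card) : q ∈ invr s V N K p := by
  have hsum := e3a_sum (s := s) hp hq hpq
  have hNp : N ≠ p := (hN p hp).ne'
  have hNq : N ≠ q := (hN q hq).ne'
  have hNV : N ∉ V := fun h => absurd (hN N h) (lt_irrefl N)
  have hcN : ∀ τ, N ∉ cap s V p q τ := by
    intro τ h
    unfold cap at h
    exact hNV (Finset.mem_filter.1 h).1
  unfold invr jj
  rw [Finset.mem_filter]
  refine ⟨hq, hpq, ?_⟩
  rw [cap_insert hNp hNq true, cap_insert hNp hNq false, h1]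
  cases σ
  · simp only [Bool.not_false, if_true, Bool.true_eq_false, if_false]
    rw [Finset.card_insert_of_notMem (hcN true)]
    constructor
    · rw [min_eq_right (by omega), min_eq_right (by omega)]
    · exact (min_le_right _ _).trans h2
  · simp only [Bool.not_true, if_true, Bool.false_eq_true, if_false]
    rw [Finset.card_insert_of_notMem (hcN false)]
    constructor
    · rw [min_eq_left (by omega), min_eq_left (by omega)]
    · exact (min_le_left _ _).trans h2

end H75M
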