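import Pool.Agent.Lib.H75M.O1
import Pool.Agent.Lib.H75M.O2
import Pool.Agent.Lib.H75M.E3A

/-! # H75M, chunk E3B (S/M): the outermost edges -/

namespace H75M

variable {s : ℕ → ℕ → ℕ → Bool} {V : Finset ℕ}

/-- (E3b, S/M) If `q ∈ U` and `r` is a right vertex on the side `σ` of `pq` then `r ∈ U`. PROOF. Otherwise `ab s p r N = σ`, and `ab s p q r = σ`, so `ab s p q N = σ` (`ab_right_trans`). -/
theorem Uset_up (N : ℕ) (hs : SS s (insert N V)) (hN : ∀ v ∈ V, v < N) {p q r : ℕ} (hp : p ∈ V)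
    {σ : Bool} (hq : q ∈ Uset s V N p σ) (hr : r ∈ V) (hpr : p < r) (hrq : r ≠ q)
    (h : ab s p q r = σ) : r ∈ Uset s V N p σ := by
  unfold Uset at hq ⊢
  rw [Finset.mem_filter] at hq ⊢
  refine ⟨hr, hpr, ?_⟩
  by_contra hcon
  have h2 : ab s p r N = σ := by
    revert hcon
    cases ab s p r N <;> cases σ <;> simp
  have hpN := hN p hp
  have hqN := hN q hq.1
  have hrN := hN r hr
  have h3 := ab_right_trans hs (Finset.mem_insert_of_mem hp) (Finset.mem_insert_of_mem hq.1)
    (Finset.mem_insert_of_mem hr) (Finset.mem_insert_self N V) hq.2.1 hpr hpN (Ne.symm hrq) (by omega) (by omega) h h2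
  have h4 := hq.2.2
  rw [h3] at h4
  revert h4
  cases σ <;> simp

/-- (E3c, S/M) PROOF. `rank_count` for `R = Uset`, `lt q r := r ≠ q ∧ ab s p q r = σ` (`ab_right_trans`, `ab_right_anti`; in the transitivity `q = t` is impossible by `ab_right_anti`). -/
theorem Tset_card (N : ℕ) (hs : SS s (insert N V)) {p : ℕ} (hp : p ∈ V)
    (t : ℕ) (σ : Bool) (ht : t ≤ (Uset s V N p σ).card) : (Tset s V N p t σ).card = t := by
  unfold Tset
  have hU : ∀ q ∈ Uset s V N p σ, q ∈ V ∧ p < q := by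
    intro q hq
    unfold Uset at hq
    rw [Finset.mem_filter] at hq
    exact ⟨hq.1, hq.2.1⟩
  refine rank_count (Uset s V N p σ) (fun q r => r ≠ q ∧ ab s p q r = σ) ?_ ?_ ?_ t ht
  · intro x _ h
    exact h.1 rfl
  · intro x hx y hy z hz h1 h2
    have hx' := hU x hx
    have hy' := hU y hy
    have hz' := hU z hz
    have hzx : z ≠ x := by
      intro h
      have h3 := ab_right_anti (s := s) hx'.2 hy'.2 (Ne.symm h1.1)
      have h4 := h2.2
      rw [h, h3, h1.2] at h4
      revert h4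
      cases σ <;> simp
    exact ⟨hzx, ab_right_trans hs (Finset.mem_insert_of_mem hp) (Finset.mem_insert_of_mem hx'.1)
      (Finset.mem_insert_of_mem hy'.1) (Finset.mem_insert_of_mem hz'.1) hx'.2 hy'.2 hz'.2 (Ne.symm h1.1) (Ne.symm hzx)
      (Ne.symm h2.1) h1.2 h2.2⟩
  · intro x hx y hy hxy
    have hx' := hU x hx
    have hy' := hU y hy
    by_cases h : ab s p x y = σ
    · exact Or.inl ⟨Ne.symm hxy, h⟩
    · refine Or.inr ⟨hxy, ?_⟩
      rw [ab_right_anti (s := s) hx'.2 hy'.2 hxy]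
      revert h
      cases ab s p x y <;> cases σ <;> simp

end H75M
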