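import Pool.Agent.Lib.H75M.E3

/-! # H75M, chunk E4A (S/M): the number of invariant edges at a vertex -/

namespace H75M

variable {s : ℕ → ℕ → ℕ → Bool} {V : Finset ℕ}

/-- (E4a, S) PROOF. The right vertices of `p` are the disjoint union of `Uset .. true` and `Uset .. false`; `V` has `lf V p` left vertices, `p`, and the right vertices. -/
theorem Uset_total (N : ℕ) {p : ℕ} (hp : p ∈ V) :
    (Uset s V N p true).card + (Uset s V N p false).card + lf V p + 1 = V.card := by
  have h1 : ∀ q ∈ V, (if p < q ∧ ab s p q N = !true then 1 else 0) + (if p < q ∧ ab s p q N = !false then 1 else 0)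
      + (if q < p then 1 else 0) + (if q = p then 1 else 0) = 1 := by
    intro q _
    rcases lt_trichotomy q p with h | h | h
    · have h2 : ¬ p < q := by omega
      have h3 : q ≠ p := by omega
      simp [h, h2, h3]
    · subst h
      simp
    · have h2 : ¬ q < p := by omega
      have h3 : q ≠ p := by omega
      cases hb : ab s p q N <;> simp [h, h2, h3]
  have h2 : ∑ q ∈ V, (if q = p then 1 else 0) = 1 := by
    rw [Finset.sum_ite_eq' V p (fun _ => 1), if_pos hp]
  have h3 := Finset.sum_congr rfl h1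
  rw [Finset.sum_add_distrib, Finset.sum_add_distrib, Finset.sum_add_distrib, h2] at h3
  unfold Uset lf
  rw [Finset.card_filter, Finset.card_filter, Finset.card_filter, h3]
  simp

/-- (E4b, S) PROOF. Let `t = K + 1 - lf V p`. If `lf V p ≥ K + 1` trivial. Otherwise `Uset_total` and `hK` give `2 * t ≤ |U true| + |U false| + 1`, so `t ≤ |U σ|` for `σ = true` or `σ = false`. -/
theorem exists_side (N : ℕ) {p K : ℕ} (hp : p ∈ V) (hK : 2 * (K + 1) ≤ V.card) :
    ∃ σ : Bool, K + 1 - lf V p ≤ (Uset s V N p σ).card := by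
  by_cases h : K + 1 ≤ lf V p
  · exact ⟨true, by omega⟩
  · have h1 := Uset_total (s := s) N hp
    by_cases h2 : K + 1 - lf V p ≤ (Uset s V N p true).card
    · exact ⟨true, h2⟩
    · exact ⟨false, by omega⟩

/-- (E4c, S) PROOF. `exists_side`, `Tset_card`, `Tset_sub`, `Finset.card_le_card`. -/
theorem invr_ge (N : ℕ) (hs : SS s (insert N V)) (hN : ∀ v ∈ V, v < N) {p K : ℕ} (hp : p ∈ V)
    (hK : 2 * (K + 1) ≤ V.card) : K + 1 - lf V p ≤ (invr s V N K p).card := by
  obtain ⟨σ, hσ⟩ := exists_side (s := s) N hp hK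
  rw [← Tset_card N hs hp (K + 1 - lf V p) σ hσ]
  exact Finset.card_le_card (Tset_sub N hs hN hp σ hK)

end H75M
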