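import Pool.Agent.Lib.H75M.E4A

/-! # H75M, chunk E4B (M): one invariant edge more -/

namespace H75M

variable {s : ℕ → ℕ → ℕ → Bool} {V : Finset ℕ}

/-- (E4d, M) One invariant edge more at `p`. PROOF. `y ∈ invr` by `invr_of_cap`. Let `t = K + 1 - lf V p`; if `t = 0` done (the set is nonempty). Otherwise take `τ` from `exists_side`; `Tset s V N p t τ ⊆ invr` has `t` elements (`Tset_card`, `Tset_sub`), and `y` is not in it:
if `τ ≠ σ` then `ab s p y N = !σ = τ ≠ !τ`, `y ∉ Uset .. τ`. If `τ = σ`: `cap s V p y σ` has `K` elements, at most `lf V p - 1` of them are left of `p` (`l` is not in it), the others are right vertices on the side `σ` of `py`, elements of `Uset .. σ` (`Uset_up`),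
so their number is at least `K + 1 - lf V p = t`, `y ∉ Tset`. So `insert y (Tset ..) ⊆ invr` has `t + 1` elements. -/
theorem invr_extra (N : ℕ) (hs : SS s (insert N V)) (hN : ∀ v ∈ V, v < N) {p y K : ℕ}
    (hp : p ∈ V) (hy : y ∈ V) (hpy : p < y) {σ : Bool} (h1 : ab s p y N = !σ)
    (h2 : (cap s V p y σ).card = K) (h3 : ∃ l ∈ V, l < p ∧ l ∉ cap s V p y σ)
    (hK : 2 * (K + 1) ≤ V.card) : K + 1 - lf V p + 1 ≤ (invr s V N K p).card := by
  have hyi : y ∈ invr s V N K p := invr_of_cap N hN hp hy hpy h1 h2.le hK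
  obtain ⟨t, ht⟩ : ∃ t, t = K + 1 - lf V p := ⟨_, rfl⟩
  rw [← ht]
  rcases Nat.eq_zero_or_pos t with h0 | h0
  · rw [h0]
    exact Finset.card_pos.2 ⟨y, hyi⟩
  obtain ⟨τ, hτ⟩ := exists_side (s := s) N hp hK
  rw [← ht] at hτ
  have hcard := Tset_card N hs hp t τ hτ
  have hsub := Tset_sub N hs hN hp τ hK
  rw [← ht] at hsub
  have hyT : y ∉ Tset s V N p t τ := by
    intro hyT
    unfold Tset at hyT
    rw [Finset.mem_filter] at hyT
    obtain ⟨hyU, hlt⟩ := hyT
    have hyU' := hyU
    unfold Uset at hyU'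
    rw [Finset.mem_filter] at hyU'
    have h4 := hyU'.2.2
    rw [h1] at h4
    have hτσ : τ = σ := by
      cases τ <;> cases σ <;> simp_all
    subst hτσ
    obtain ⟨l, hl, hlp, hlc⟩ := h3
    have hsub2 : cap s V p y τ ⊆ ((V.filter (fun v => v < p)).erase l) ∪
        (Uset s V N p τ).filter (fun r => r ≠ y ∧ ab s p y r = τ) := by
      intro v hv
      have hv' := hv
      unfold cap at hv'
      rw [Finset.mem_filter] at hv'
      obtain ⟨hvV, hvp, hvy, hva⟩ := hv'
      rw [Finset.mem_union]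
      rcases Nat.lt_or_gt_of_ne hvp with h5 | h5
      · left
        rw [Finset.mem_erase, Finset.mem_filter]
        refine ⟨?_, hvV, h5⟩
        rintro rfl
        exact hlc hv
      · right
        rw [Finset.mem_filter]
        exact ⟨Uset_up N hs hN hp hyU hvV h5 hvy hva, hvy, hva⟩
    have h6 := (Finset.card_le_card hsub2).trans (Finset.card_union_le _ _)
    have h7 : ((V.filter (fun v => v < p)).erase l).card = lf V p - 1 := by
      rw [Finset.card_erase_of_mem (Finset.mem_filter.2 ⟨hl, hlp⟩)]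
      rfl
    have h8 : 0 < lf V p := by
      unfold lf
      exact Finset.card_pos.2 ⟨l, Finset.mem_filter.2 ⟨hl, hlp⟩⟩
    rw [h2, h7] at h6
    omega
  have h9 : insert y (Tset s V N p t τ) ⊆ invr s V N K p := by
    intro v hv
    rw [Finset.mem_insert] at hv
    rcases hv with rfl | hv
    · exact hyi
    · exact hsub hv
  have h10 := Finset.card_le_card h9
  rw [Finset.card_insert_of_notMem hyT, hcard] at h10
  exact h10

end H75M
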