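import Pool.Agent.Lib.H75M.E4A

/-! # H75M, chunk E4C (S/M): two invariant edges -/

namespace H75M

variable {s : ℕ → ℕ → ℕ → Bool} {V : Finset ℕ}

/-- (E4e, S/M) PROOF. `u ∈ Uset .. true` (`ab s p u N = !(s p u N)`), `w ∈ Uset .. false`. `Tset s V N p 1 true` and `Tset s V N p 1 false` have one element each (`Tset_card`), are contained in `invr s V N (lf V p) p` (`Tset_sub`, `K + 1 - lf V p = 1`)
and are disjoint (`Uset .. true` and `Uset .. false` are disjoint). -/
theorem invr_two (N : ℕ) (hs : SS s (insert N V)) (hN : ∀ v ∈ V, v < N) {p u w : ℕ}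
    (hp : p ∈ V) (hu : u ∈ V) (hpu : p < u) (h1 : s p u N = true) (hw : w ∈ V) (hpw : p < w)
    (h2 : s p w N = false) (hK : 2 * (lf V p + 1) ≤ V.card) :
    2 ≤ (invr s V N (lf V p) p).card := by
  have hab : ∀ v ∈ V, ab s p v N = !(s p v N) := by
    intro v hv
    have h3 : ¬ N < p := by have := hN p hp; omega
    have h4 : ¬ N < v := by have := hN v hv; omega
    unfold ab
    rw [if_neg h3, if_neg h4]
  have huU : u ∈ Uset s V N p true := by
    unfold Uset
    rw [Finset.mem_filter]
    refine ⟨hu, hpu, ?_⟩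
    rw [hab u hu, h1]
  have hwU : w ∈ Uset s V N p false := by
    unfold Uset
    rw [Finset.mem_filter]
    refine ⟨hw, hpw, ?_⟩
    rw [hab w hw, h2]
  have hT1 : (Tset s V N p 1 true).card = 1 :=
    Tset_card N hs hp 1 true (Finset.card_pos.2 ⟨u, huU⟩)
  have hT2 : (Tset s V N p 1 false).card = 1 :=
    Tset_card N hs hp 1 false (Finset.card_pos.2 ⟨w, hwU⟩)
  have h1K : lf V p + 1 - lf V p = 1 := by omega
  have hS1 := Tset_sub N hs hN hp true hK
  have hS2 := Tset_sub N hs hN hp false hK
  rw [h1K] at hS1 hS2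
  have hdis : Disjoint (Tset s V N p 1 true) (Tset s V N p 1 false) := by
    rw [Finset.disjoint_left]
    intro q hq1 hq2
    unfold Tset at hq1 hq2
    have h5 := (Finset.mem_filter.1 hq1).1
    have h6 := (Finset.mem_filter.1 hq2).1
    unfold Uset at h5 h6
    have h7 := (Finset.mem_filter.1 h5).2.2
    have h8 := (Finset.mem_filter.1 h6).2.2
    rw [h7] at h8
    simp at h8
  have h9 := Finset.card_le_card (Finset.union_subset hS1 hS2)
  rw [Finset.card_union_of_disjoint hdis, hT1, hT2] at h9
  exact h9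

end H75M
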