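import Pool.Agent.Lib.H75M.O3
import Pool.Agent.Lib.H75M.E1
import Pool.Agent.Lib.H75M.E2
import Pool.Agent.Lib.H75M.E4A

/-! # H75M, chunk E5A (S/M): the lower bound -/

namespace H75M

variable {s : ℕ → ℕ → ℕ → Bool} {V : Finset ℕ}

/-- (E5a, S) a subset of a sign configuration -/
theorem SS.mono {W : Finset ℕ} (hs : SS s V) (h : W ⊆ V) : SS s W :=
  ⟨fun a ha b hb c hc d hd => hs.l a (h ha) b (h hb) c (h hc) d (h hd),
    fun a ha b hb c hc d hd => hs.r a (h ha) b (h hb) c (h hc) d (h hd)⟩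

/-- (E5b, S) One step. PROOF. `F_step`, `sum_last`, `invr_ge` for every `p`, `sum_lf` (`lf` is definitionally the filter in `sum_lf`). -/
theorem F_lower_step (N : ℕ) (hs : SS s (insert N V)) (hN : ∀ v ∈ V, v < N) (K : ℕ)
    (hK : 2 * (K + 1) ≤ V.card) :
    2 * F s V K + 3 * ((K + 1) * (K + 2)) ≤ 2 * F s (insert N V) (K + 1) := by
  rw [F_step N hN K, sum_last N hs hN K hK]
  have h1 : ∑ p ∈ V, (K + 1 - lf V p) ≤ ∑ p ∈ V, (invr s V N K p).card :=
    Finset.sum_le_sum fun p hp => invr_ge N hs hN hp hK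
  have h2 : 2 * ∑ p ∈ V, (K + 1 - lf V p) = (K + 1) * (K + 2) := sum_lf V K (by omega)
  nlinarith [h1, h2]

/-- (E5c, S/M) PROOF. Induction on `K`, `V` general. `K = 0` trivial. `K + 1`: `V` nonempty, `N = V.max' _`, `V = insert N (V.erase N)`, `F_lower_step` and the induction hypothesis for `V.erase N`. -/
theorem F_ge (K : ℕ) : ∀ V : Finset ℕ, SS s V → 2 * K + 1 ≤ V.card →
    K * (K + 1) * (K + 2) ≤ 2 * F s V K := by
  induction K with
  | zero => intro V _ _; simp
  | succ K ih =>
    intro V hs hV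
    have hne : V.Nonempty := Finset.card_pos.1 (by omega)
    have hN : V.max' hne ∈ V := Finset.max'_mem V hne
    have hc : (V.erase (V.max' hne)).card + 1 = V.card := Finset.card_erase_add_one hN
    have e : insert (V.max' hne) (V.erase (V.max' hne)) = V := Finset.insert_erase hN
    have hlt : ∀ v ∈ V.erase (V.max' hne), v < V.max' hne := fun v hv =>
      lt_of_le_of_ne (Finset.le_max' V v (Finset.mem_of_mem_erase hv)) (Finset.ne_of_mem_erase hv)
    have h1 := F_lower_step (s := s) (V := V.erase (V.max' hne)) (V.max' hne) (by rw [e]; exact hs) hlt K (by omega)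
    rw [e] at h1
    have h2 := ih (V.erase (V.max' hne)) (hs.mono (Finset.erase_subset _ _)) (by omega)
    nlinarith [h1, h2]

end H75M
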