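import Pool.Agent.Lib.H75M.E5A

/-! # H75M, chunk E5B (S/M): the case of equality -/

namespace H75M

variable {s : ℕ → ℕ → ℕ → Bool} {V : Finset ℕ}

/-- (E5d, S/M) Equality. PROOF. `F_step`, `sum_last`, `F_ge` for `V` and `K`, `invr_ge`, `sum_lf`: `2 F s (insert N V) (K + 1) = 2 F s V K + 2 ∑ |invr| + 2 (K + 1) (K + 2)`, and the lower bounds of the two first terms add up to the right side, so they are equalities;
in a sum with termwise `≤` and equal sums all terms are equal (`Finset.sum_eq_sum_iff_of_le`). -/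
theorem tight_step (N : ℕ) (hs : SS s (insert N V)) (hN : ∀ v ∈ V, v < N) (K : ℕ)
    (hK : 2 * (K + 1) ≤ V.card)
    (h : 2 * F s (insert N V) (K + 1) = (K + 1) * (K + 2) * (K + 3)) :
    2 * F s V K = K * (K + 1) * (K + 2) ∧
      ∀ p ∈ V, (invr s V N K p).card = K + 1 - lf V p := by
  have hNV : N ∉ V := fun h' => lt_irrefl _ (hN N h')
  have e1 := F_step (s := s) N hN K
  rw [sum_last N hs hN K hK] at e1
  have e2 : K * (K + 1) * (K + 2) ≤ 2 * F s V K := F_ge K V (hs.mono (Finset.subset_insert N V)) (by omega)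
  have e3 : ∀ p ∈ V, K + 1 - lf V p ≤ (invr s V N K p).card := fun p hp => invr_ge N hs hN hp hK
  have e4 : ∑ p ∈ V, (K + 1 - lf V p) ≤ ∑ p ∈ V, (invr s V N K p).card := Finset.sum_le_sum e3
  have e5 : 2 * ∑ p ∈ V, (K + 1 - lf V p) = (K + 1) * (K + 2) := sum_lf V K (by omega)
  have e6 : 2 * F s V K = K * (K + 1) * (K + 2) := by nlinarith [e1, e2, e4, e5, h]
  have e7 : ∑ p ∈ V, (K + 1 - lf V p) = ∑ p ∈ V, (invr s V N K p).card := by nlinarith [e1, e2, e4, e5, h]
  exact ⟨e6, fun p hp => ((Finset.sum_eq_sum_iff_of_le e3).1 e7 p hp).symm⟩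

end H75M
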