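import Pool.Agent.Lib.H75M.E4B
import Pool.Agent.Lib.H75M.E5B

/-! # H75M, chunk E6A (M): caps in a tight configuration -/

namespace H75M

variable {s : ℕ → ℕ → ℕ → Bool}

/-- all `F s V (J + 1)`, `J ≤ K`, are minimal -/
def Tight (s : ℕ → ℕ → ℕ → Bool) (V : Finset ℕ) (K : ℕ) : Prop :=
  ∀ J, J ≤ K → 2 * F s V (J + 1) = (J + 1) * (J + 2) * (J + 3)

/-- (E6a, S) PROOF. `tight_step` for `K = J + 1`. -/
theorem Tight.step {V : Finset ℕ} {N K : ℕ} (hs : SS s (insert N V)) (hN : ∀ v ∈ V, v < N)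
    (hK : 2 * (K + 2) ≤ V.card) (h : Tight s (insert N V) (K + 1)) : Tight s V K := by
  intro J hJ
  have h1 := h (J + 1) (by omega)
  exact (tight_step N hs hN (J + 1) (by omega) h1).1

/-- The step of the induction for `cap_big`. -/
theorem e6a_main (K : ℕ) (V : Finset ℕ) (hs : SS s V) (hV : 2 * K + 3 ≤ V.card) (hT : Tight s V K)
    (x : ℕ) (hx : x ∈ V) (y : ℕ) (hy : y ∈ V) (σ : Bool) (hxy : x < y) (hl : ∃ l ∈ V, l < x ∧ l ∉ cap s V x y σ)
    (hr : ∃ r ∈ V, y < r ∧ r ∉ cap s V x y σ) (hc : (cap s V x y σ).card ≤ K)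
    (rec : 1 ≤ K → ∀ (V' : Finset ℕ) (N : ℕ), SS s (insert N V') → (∀ v ∈ V', v < N) → V'.card + 1 = V.card →
      Tight s (insert N V') K → x ∈ V' → y ∈ V' → (∃ l ∈ V', l < x ∧ l ∉ cap s V' x y σ) →
      (∃ r ∈ V', y < r ∧ r ∉ cap s V' x y σ) → (cap s V' x y σ).card + 1 ≤ K → False) : False := by
  obtain ⟨l, hlV, hlx, hlc⟩ := hl
  obtain ⟨r, hrV, hyr, hrc⟩ := hr
  have hne : V.Nonempty := ⟨x, hx⟩
  set N := V.max' hne with hNdef
  have hN : N ∈ V := Finset.max'_mem V hne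
  have hle : ∀ v ∈ V, v ≤ N := fun v hv => Finset.le_max' V v hv
  set V' := V.erase N with hV'
  have hcard : V'.card + 1 = V.card := Finset.card_erase_add_one hN
  have e : insert N V' = V := Finset.insert_erase hN
  have hlt : ∀ v ∈ V', v < N := fun v hv => lt_of_le_of_ne (hle v (Finset.mem_of_mem_erase hv)) (Finset.ne_of_mem_erase hv)
  have hyN : y < N := hyr.trans_le (hle r hrV)
  have hxN : x < N := hxy.trans hyN
  have hx' : x ∈ V' := Finset.mem_erase.2 ⟨hxN.ne, hx⟩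
  have hy' : y ∈ V' := Finset.mem_erase.2 ⟨hyN.ne, hy⟩
  have hl' : l ∈ V' := Finset.mem_erase.2 ⟨(hlx.trans hxN).ne, hlV⟩
  have hNV' : N ∉ V' := Finset.notMem_erase N V
  have hci := cap_insert (s := s) (V := V') (N := N) (p := x) (q := y) hxN.ne' hyN.ne' σ
  rw [e] at hci
  have hs' : SS s (insert N V') := by rw [e]; exact hs
  have hT' : Tight s (insert N V') K := by rw [e]; exact hT
  by_cases hab : ab s x y N = σ
  · rw [if_pos hab] at hci
    have hNc : N ∉ cap s V' x y σ := fun h => hNV' (Finset.mem_filter.1 h).1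
    have hcc : (cap s V x y σ).card = (cap s V' x y σ).card + 1 := by
      rw [hci, Finset.card_insert_of_notMem hNc]
    have hsub : cap s V' x y σ ⊆ cap s V x y σ := by rw [hci]; exact Finset.subset_insert _ _
    have hrN : r ≠ N := by
      rintro h
      rw [h] at hrc
      exact hrc (by rw [hci]; exact Finset.mem_insert_self _ _)
    exact rec (by omega) V' N hs' hlt hcard hT' hx' hy' ⟨l, hl', hlx, fun h => hlc (hsub h)⟩
      ⟨r, Finset.mem_erase.2 ⟨hrN, hrV⟩, hyr, fun h => hrc (hsub h)⟩ (by omega)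
  · rw [if_neg hab] at hci
    have hab' : ab s x y N = !σ := by cases σ <;> simpa using hab
    rw [hci] at hc hlc
    set J := (cap s V' x y σ).card with hJ
    have h1 := invr_extra N hs' hlt hx' hy' hxy hab' hJ.symm ⟨l, hl', hlx, hlc⟩ (by omega : 2 * (J + 1) ≤ V'.card)
    have h2 := (tight_step N hs' hlt J (by omega) (hT' J hc)).2 x hx'
    omega

/-- (E6b, M) PROOF. Induction on `K`, `V` general. Suppose the cap `A` has at most `K` elements. Let `N = V.max'`, `V = insert N V'`; `y < r ≤ N`, so `y ≠ N`, `x, y ∈ V'`. `l ∈ V'`.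
CASE `N ∉ A`: `ab s x y N = !σ`, `cap s V' x y σ = A` (`cap_insert`). Let `J = A.card ≤ K`. `invr_extra` for `p = x`, `K := J` (`2 * (J + 1) ≤ V'.card` because `V.card ≥ 2 * K + 3`), `tight_step` for `J` gives `(invr ..).card = J + 1 - lf V' x`. Contradiction.
CASE `N ∈ A`: then `A.card ≥ 1`, `K ≥ 1` (`K = K' + 1`), `cap s V' x y σ = A.erase N` has at most `K'` elements, `r ≠ N`, so `l, r ∈ V'` are witnesses for `V'`. Induction hypothesis with `Tight.step`, `2 * K' + 3 ≤ V'.card`. -/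
theorem cap_big (K : ℕ) : ∀ V : Finset ℕ, SS s V → 2 * K + 3 ≤ V.card → Tight s V K →
    ∀ x ∈ V, ∀ y ∈ V, ∀ σ : Bool, x < y → (∃ l ∈ V, l < x ∧ l ∉ cap s V x y σ) →
    (∃ r ∈ V, y < r ∧ r ∉ cap s V x y σ) → K + 1 ≤ (cap s V x y σ).card := by
  induction K with
  | zero =>
    intro V hs hV hT x hx y hy σ hxy hl hr
    by_contra hc
    exact e6a_main 0 V hs hV hT x hx y hy σ hxy hl hr (by omega) (fun h => by omega)
  | succ K ih =>
    intro V hs hV hT x hx y hy σ hxy hl hr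
    by_contra hc
    refine e6a_main (K + 1) V hs hV hT x hx y hy σ hxy hl hr (by omega) fun _ => ?_
    intro V' N hsV hN hc' hT' hx' hy' hl' hr' hcard
    have := ih V' (hsV.mono (Finset.subset_insert N V')) (by omega) (hT'.step hsV hN (by omega)) x hx' y hy' σ hxy hl' hr'
    omega

end H75M
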