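import Pool.Agent.Lib.H75M.E4C
import Pool.Agent.Lib.H75M.E6A

/-! # H75M, chunk E6B (M): W-caps in a tight configuration -/

namespace H75M

variable {s : ℕ → ℕ → ℕ → Bool}

/-- The step of the induction for `wcap_big`. -/
theorem e6b_main (K : ℕ) (V : Finset ℕ) (hs : SS s V) (hV : 2 * K + 3 ≤ V.card) (hT : Tight s V K)
    (x : ℕ) (hx : x ∈ V) (y : ℕ) (hy : y ∈ V) (hu : ∃ u ∈ V, x < u ∧ u < y ∧ s x u y = true)
    (hw : ∃ u ∈ V, x < u ∧ u < y ∧ s x u y = false) (hc : (wcap V x y).card ≤ K)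
    (rec : 1 ≤ K → ∀ (V' : Finset ℕ) (N : ℕ), SS s (insert N V') → (∀ v ∈ V', v < N) → V'.card + 1 = V.card →
      Tight s (insert N V') K → x ∈ V' → y ∈ V' → (∃ u ∈ V', x < u ∧ u < y ∧ s x u y = true) →
      (∃ u ∈ V', x < u ∧ u < y ∧ s x u y = false) → (wcap V' x y).card + 1 ≤ K → False) : False := by
  obtain ⟨u, huV, hxu, huy, hu1⟩ := hu
  obtain ⟨w, hwV, hxw, hwy, hw1⟩ := hw
  have hne : V.Nonempty := ⟨x, hx⟩
  set N := V.max' hne with hNdef
  have hN : N ∈ V := Finset.max'_mem V hne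
  have hle : ∀ v ∈ V, v ≤ N := fun v hv => Finset.le_max' V v hv
  set V' := V.erase N with hV'
  have hcard : V'.card + 1 = V.card := Finset.card_erase_add_one hN
  have e : insert N V' = V := Finset.insert_erase hN
  have hlt : ∀ v ∈ V', v < N := fun v hv => lt_of_le_of_ne (hle v (Finset.mem_of_mem_erase hv)) (Finset.ne_of_mem_erase hv)
  have hyN : y ≤ N := hle y hy
  have hxN : x < N := (hxu.trans huy).trans_le hyN
  have hmem : ∀ v ∈ V, v < N → v ∈ V' := fun v hv h => Finset.mem_erase.2 ⟨h.ne, hv⟩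
  have hNV' : N ∉ V' := Finset.notMem_erase N V
  have hs' : SS s (insert N V') := by rw [e]; exact hs
  have hT' : Tight s (insert N V') K := by rw [e]; exact hT
  rcases hyN.lt_or_eq with hyN' | hyN'
  · have hci : wcap V x y = insert N (wcap V' x y) := by
      rw [← e]
      unfold wcap
      rw [Finset.filter_insert, if_pos (Or.inr hyN')]
    have hNc : N ∉ wcap V' x y := fun h => hNV' (Finset.mem_filter.1 h).1
    have hcc : (wcap V x y).card = (wcap V' x y).card + 1 := by
      rw [hci, Finset.card_insert_of_notMem hNc]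
    exact rec (by omega) V' N hs' hlt hcard hT' (hmem x hx hxN) (hmem y hy hyN')
      ⟨u, hmem u huV (huy.trans hyN'), hxu, huy, hu1⟩ ⟨w, hmem w hwV (hwy.trans hyN'), hxw, hwy, hw1⟩ (by omega)
  · have hci : wcap V x y = V'.filter (fun v => v < x) := by
      ext v
      simp only [wcap, Finset.mem_filter, hV', Finset.mem_erase]
      constructor
      · rintro ⟨h1, h2⟩
        have h3 := hle v h1
        have h4 : v < x := by omega
        exact ⟨⟨by omega, h1⟩, h4⟩
      · rintro ⟨⟨h1, h2⟩, h3⟩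
        exact ⟨h2, Or.inl h3⟩
    have hcl : (wcap V x y).card = lf V' x := by rw [hci]; rfl
    have hx' := hmem x hx hxN
    have hu2 : s x u N = true := by rw [← hyN']; exact hu1
    have hw2 : s x w N = false := by rw [← hyN']; exact hw1
    have h1 := invr_two N hs' hlt hx' (hmem u huV (by omega)) hxu hu2 (hmem w hwV (by omega)) hxw hw2 (by omega)
    have h2 := (tight_step N hs' hlt (lf V' x) (by omega) (hT' _ (by omega))).2 x hx'
    omega

/-- (E6c, M) PROOF. Induction on `K`, `V` general. `N = V.max'`, `V = insert N V'`. If `y < N`: `wcap V x y = insert N (wcap V' x y)`; for `K = 0` done, for `K = K' + 1` induction hypothesis for `V'` (`u, w < y < N` are in `V'`), `Tight.step`.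
If `y = N`: `wcap V x y = V'.filter (· < x)` has `lf V' x` elements. If `lf V' x ≤ K`: `invr_two` (with `u`, `w`) and `tight_step` for `J = lf V' x`: `2 ≤ J + 1 - J = 1`, contradiction. -/
theorem wcap_big (K : ℕ) : ∀ V : Finset ℕ, SS s V → 2 * K + 3 ≤ V.card → Tight s V K →
    ∀ x ∈ V, ∀ y ∈ V, (∃ u ∈ V, x < u ∧ u < y ∧ s x u y = true) →
    (∃ u ∈ V, x < u ∧ u < y ∧ s x u y = false) → K + 1 ≤ (wcap V x y).card := by
  induction K with
  | zero =>
    intro V hs hV hT x hx y hy hu hw
    by_contra hc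
    exact e6b_main 0 V hs hV hT x hx y hy hu hw (by omega) (fun h => by omega)
  | succ K ih =>
    intro V hs hV hT x hx y hy hu hw
    by_contra hc
    refine e6b_main (K + 1) V hs hV hT x hx y hy hu hw (by omega) fun _ => ?_
    intro V' N hsV hN hc' hT' hx' hy' hu' hw' hcard
    have := ih V' (hsV.mono (Finset.subset_insert N V')) (by omega) (hT'.step hsV hN (by omega)) x hx' y hy' hu' hw'
    omega

/-- (E6d, S) from E6b, E6c -/
theorem isCap_big {V A : Finset ℕ} {K : ℕ} (hs : SS s V) (hK : 2 * K + 3 ≤ V.card)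
    (h : Tight s V K) (hA : IsCap s V A) : K + 1 ≤ A.card := by
  rcases hA with ⟨x, hx, y, hy, σ, hxy, rfl, hl, hr⟩ | ⟨x, hx, y, hy, rfl, hu, hw⟩
  · exact cap_big K V hs hK h x hx y hy σ hxy hl hr
  · exact wcap_big K V hs hK h x hx y hy hu hw

end H75M
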