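import Pool.Agent.Lib.H75M.Defs

/-! # H75M, chunk P1 (S/M): the step for R-states -/

namespace H75M

variable {s : ℕ → ℕ → ℕ → Bool} {V : Finset ℕ}

/-- (P1, S/M) Used twice. PROOF. `v > d`: L-state `(e; a, b, c, d; v)`: first alternative (`bcv = !e`). `c < v < d`: `abv = e` (`SS.l`, `a b c v`: `abc = e = acv`), `bvd = e` (`SS.l`, `b c v d`: if `bvd = !e = bcv` then `bcd = bcv = !e`);
`kap s e a b v d`. If `ubv = !e`: R-state `(e; a, b, v, d; u)` with middle edge `bv`. If `ubv = e`: L-state `(!e; u, b, c, v; d)`: `ubc = !e`, `ubv = e`, `bcv = !e`, `bcd = e`. -/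
theorem Rst.step (hs : SS s V) {e : Bool} {a b c d u v : ℕ}
    (h : Rst s V e a b c d u) (hv : v ∈ V) (hcv : c < v) (hvd : v ≠ d) (h1 : s b c v = !e)
    (h2 : s a c v = e) :
    (d < v ∧ Lst s V e a b c d v) ∨ (c < v ∧ v < d ∧ Rst s V e a b v d u) ∨
      (c < v ∧ v < d ∧ Lst s V (!e) u b c v d) := by
  obtain ⟨⟨ha, hb, hc, hd, hu⟩, ⟨hab, hbc, hcd, k1, k2, k3⟩, hua, k4⟩ := h
  rcases Nat.lt_or_ge d v with hdv | hvd'
  · exact Or.inl ⟨hdv, ⟨ha, hb, hc, hd, hv⟩, ⟨hab, hbc, hcd, k1, k2, k3⟩, hdv, h1⟩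
  · have hvd2 : v < d := lt_of_le_of_ne hvd' hvd
    have q1 : s a b v = e := by
      have := hs.l a ha b hb c hc v hv hab hbc hcv (by rw [k1, h2])
      rw [this, k1]
    have q2 : s b v d = e := by
      by_contra hne
      have h3 : s b v d = !e := by
        cases e <;> simp_all
      have h4 := hs.l b hb c hc v hv d hd hbc hcv hvd2 (by rw [h1, h3])
      rw [k3, h1] at h4
      cases e <;> simp at h4
    right
    by_cases h5 : s u b v = !e
    · exact Or.inl ⟨hcv, hvd2, ⟨ha, hb, hv, hd, hu⟩, ⟨hab, hbc.trans hcv, hvd2, q1, k2, q2⟩, hua, h5⟩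
    · have h6 : s u b v = e := by
        cases e <;> simp_all
      exact Or.inr ⟨hcv, hvd2, ⟨hu, hb, hc, hv, hd⟩,
        ⟨hua.trans hab, hbc, hcv, k4, by rw [h6, Bool.not_not], h1⟩, hvd2, by rw [k3, Bool.not_not]⟩

end H75M
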