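import Pool.Agent.Lib.H75M.P0

/-! # H75M, chunk PR (S/M): R-states are hit -/

namespace H75M

variable {s : ℕ → ℕ → ℕ → Bool} {V : Finset ℕ}

/-- (P0d, S/M) R-states are hit. PROOF. `s u a c = !e` (`SS.r` for `u a b c`: `abc = e`, `ubc = !e`). Caps `cap s V a c (!e)` (witnesses `u`: `ab = !(s u a c) = e`; `d`: `ab = !(s a c d) = e`, `kap_acd`) and `cap s V b c e` (witnesses `a`, `d` as in P0c);
`S = {a, b, c, d}` (`b`: `ab s a c b = s a b c = e`). `v` in both caps. `v > c`: `s b c v = !e`, `s a c v = e`. `v < a`: `vac = e`, `vbc = !e`, `abc = e` contradicts `SS.r` (`v a b c`); `a < v < b`: `avc = !e`, `vbc = !e`, `abc = e` contradicts `SS.r` (`a v b c`);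
`b < v < c`: `avc = !e`, `bvc = e`, `abc = e` contradicts `SS.r` (`a b v c`). `v ≠ d`: `bcd = e`. -/
theorem Rst.hit (hs : SS s V) (hn : ¬ Pair s V) {e : Bool} {a b c d u : ℕ}
    (h : Rst s V e a b c d u) : ∃ v ∈ V, c < v ∧ v ≠ d ∧ s b c v = !e ∧ s a c v = e := by
  obtain ⟨⟨ha, hb, hc, hd, hu⟩, hk, hua, hubc⟩ := h
  have hacd := kap_acd hs ha hb hc hd hk
  obtain ⟨hab, hbc, hcd, habc, habd, hbcd⟩ := hk
  have huac : s u a c = !e := by
    by_contra hcon
    have h1 : s u a c = e := by
      cases e <;> simp_all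
    have h2 := hs.r u hu a ha b hb c hc hua hab hbc (habc.trans h1.symm)
    rw [hubc, habc] at h2
    cases e <;> simp_all
  have abv : ∀ x y v : ℕ, v < x → ab s x y v = !(s v x y) := fun x y v h => by
    unfold ab
    rw [if_pos h]
  have abm : ∀ x y v : ℕ, x < v → v < y → ab s x y v = s x v y := fun x y v h h' => by
    unfold ab
    rw [if_neg (by omega), if_pos h']
  have abr : ∀ x y v : ℕ, x < y → y < v → ab s x y v = !(s x y v) := fun x y v h h' => by
    unfold ab
    rw [if_neg (by omega), if_neg (by omega)]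
  have hne : e ≠ !e := by cases e <;> simp
  have hnn : (!(!e)) = e := by cases e <;> rfl
  -- the witnesses
  have w1 : ab s a c u = e := by rw [abv a c u hua, huac, hnn]
  have w2 : ab s a c d = e := by rw [abr a c d (by omega) hcd, hacd, hnn]
  have w3 : ab s b c a = !e := by rw [abv b c a hab, habc]
  have w4 : ab s b c d = !e := by rw [abr b c d hbc hcd, hbcd]
  have w5 : ab s a c b = e := by rw [abm a c b hab hbc, habc]
  have hA : IsCap s V (cap s V a c (!e)) := by
    left
    refine ⟨a, ha, c, hc, !e, by omega, rfl, ⟨u, hu, hua, ?_⟩, ⟨d, hd, hcd, ?_⟩⟩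
    · unfold cap
      rw [Finset.mem_filter]
      rintro ⟨-, -, -, h1⟩
      exact hne (w1.symm.trans h1)
    · unfold cap
      rw [Finset.mem_filter]
      rintro ⟨-, -, -, h1⟩
      exact hne (w2.symm.trans h1)
  have hB : IsCap s V (cap s V b c e) := by
    left
    refine ⟨b, hb, c, hc, e, by omega, rfl, ⟨a, ha, hab, ?_⟩, ⟨d, hd, hcd, ?_⟩⟩
    · unfold cap
      rw [Finset.mem_filter]
      rintro ⟨-, -, -, h1⟩
      exact hne (h1.symm.trans w3)
    · unfold cap
      rw [Finset.mem_filter]
      rintro ⟨-, -, -, h1⟩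
      exact hne (h1.symm.trans w4)
  obtain ⟨v, hvV, hvA, hvB⟩ := hit_of_not_pair hA hB {a, b, c, d} (by
      intro x hx
      simp only [Finset.mem_insert, Finset.mem_singleton] at hx
      rcases hx with rfl | rfl | rfl | rfl <;> assumption) (by
      rw [Finset.card_insert_of_notMem, Finset.card_insert_of_notMem, Finset.card_insert_of_notMem,
        Finset.card_singleton]
      all_goals
        simp only [Finset.mem_insert, Finset.mem_singleton]
        omega) (by
      intro x hx
      simp only [Finset.mem_insert, Finset.mem_singleton] at hx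
      unfold cap
      rw [Finset.mem_filter]
      rintro ⟨-, h1, h2, h3⟩
      rcases hx with rfl | rfl | rfl | rfl
      · exact h1 rfl
      · exact hne (w5.symm.trans h3)
      · exact h2 rfl
      · exact hne (w2.symm.trans h3)) (by
      intro x hx
      simp only [Finset.mem_insert, Finset.mem_singleton] at hx
      unfold cap
      rw [Finset.mem_filter]
      rintro ⟨-, h1, h2, h3⟩
      rcases hx with rfl | rfl | rfl | rfl
      · exact hne (h3.symm.trans w3)
      · exact h1 rfl
      · exact h2 rfl
      · exact hne (h3.symm.trans w4)) hn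
  unfold cap at hvA hvB
  rw [Finset.mem_filter] at hvA hvB
  obtain ⟨-, hva, hvc, hv1⟩ := hvA
  obtain ⟨-, hvb, -, hv2⟩ := hvB
  rcases Nat.lt_or_gt_of_ne hvc with hlt | hgt
  · exfalso
    rcases Nat.lt_or_gt_of_ne hva with h5 | h5
    · rw [abv a c v h5] at hv1
      rw [abv b c v (by omega)] at hv2
      have h6 : s v a c = e := by cases e <;> simp_all
      have h7 : s v b c = !e := by cases e <;> simp_all
      have h8 := hs.r v hvV a ha b hb c hc h5 hab hbc (habc.trans h6.symm)
      rw [h7, habc] at h8
      exact hne h8.symm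
    · rcases Nat.lt_or_gt_of_ne hvb with h6 | h6
      · rw [abm a c v h5 hlt] at hv1
        rw [abv b c v h6] at hv2
        have h7 : s v b c = !e := by cases e <;> simp_all
        have h8 := hs.r a ha v hvV b hb c hc h5 h6 hbc (h7.trans hv1.symm)
        rw [h7, habc] at h8
        exact hne h8
      · rw [abm a c v h5 hlt] at hv1
        rw [abm b c v h6 hlt] at hv2
        have h8 := hs.r a ha b hb v hvV c hc hab h6 hlt (hv2.trans habc.symm)
        rw [hv1, hv2] at h8
        exact hne h8.symm
  · rw [abr a c v (by omega) hgt] at hv1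
    rw [abr b c v hbc hgt] at hv2
    have h6 : s a c v = e := by cases e <;> simp_all
    have h7 : s b c v = !e := by cases e <;> simp_all
    refine ⟨v, hvV, hgt, ?_, h7, h6⟩
    rintro rfl
    exact hne (hbcd.symm.trans h7)

end H75M
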