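import Pool.Agent.Lib.H75M.PL
import Pool.Agent.Lib.H75M.PR
import Pool.Agent.Lib.H75M.P1

/-! # H75M, chunk P2B (M): the step for L-states, second case -/

namespace H75M

variable {s : ℕ → ℕ → ℕ → Bool} {V : Finset ℕ}

/-- (P2b, M) Case `a < w < b`. PROOF. `awc = e` (`SS.r`, `a w b c`: if `awc = !e`, then `wbc = !e = awc` gives `abc = wbc = !e`, contradiction); `awd = !e` (`SS.r`, `a w b d`: if `awd = e = wbd` then `abd = wbd = e`, contradiction).
If `awb = !e`: `Lst s V (!e) a w b c d` (`awb = !e`, `awc = e`, `wbc = !e`, `wbd = e`): `LR s V w b`, `w < b`. So let `awb = e`: `kap s e a w b d`. If some `g ∈ V`, `g > d` has `wbg = !e`: `Lst s V e a w b d g`, `LR s V w b`. So assume `wbg = e` for all `g > d` in `V`; `wbf = e`.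
`kap s (!e) w b c f` (`wbc = !e`, `wbf = e`, `bcf = !e`), `Rst s V (!e) w b c f a` (`abc = e`). `Rst.hit`: `v > c`, `v ≠ f`, `bcv = e`, `wcv = !e`. `wbv = !e` (`SS.l`, `w b c v`: `wbc = !e = wcv`), so not `v > d`, and `v ≠ d` (`wbd = e`): `c < v < d`. `bvf = !e` (`SS.l`, `b c v f`: if `bvf = e = bcv` then `bcf = bcv = e`).
If `abv = e`: `Rst s V (!e) w b v f a` (`wbv = !e`, `wbf = e`, `bvf = !e`, `abv = e`): `LR s V b v`, `c < v`. If `abv = !e`: `Lst s V e a b c v f` (`abc = e`, `abv = !e`, `bcv = e`, `bcf = !e`), `v < d`. -/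
theorem Lst.step_mid (hs : SS s V) (hn : ¬ Pair s V) {e : Bool} {a b c d f w : ℕ}
    (h : Lst s V e a b c d f) (hw : w ∈ V) (haw : a < w) (hwb : w < b) (h1 : s w b c = !e)
    (h2 : s w b d = e) :
    (∃ b' c', b' < b ∧ LR s V b' c') ∨ (∃ c', c < c' ∧ LR s V b c') ∨
      (∃ e' a' d' f', d' < d ∧ Lst s V e' a' b c d' f') := by
  obtain ⟨⟨ha, hb, hc, hd, hf⟩, ⟨hab, hbc, hcd, a1, a2, a3⟩, hdf, a4⟩ := h
  have c1 : s a w c = e := by
    by_contra hx
    have hx' : s a w c = !e := by cases e <;> simpa using hx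
    have := hs.r a ha w hw b hb c hc haw hwb hbc (h1.trans hx'.symm)
    rw [a1, h1] at this
    cases e <;> simp at this
  have c2 : s a w d = !e := by
    by_contra hx
    have hx' : s a w d = e := by cases e <;> simpa using hx
    have := hs.r a ha w hw b hb d hd haw hwb (hbc.trans hcd) (h2.trans hx'.symm)
    rw [a2, h2] at this
    cases e <;> simp at this
  by_cases c3 : s a w b = e
  swap
  · have c3' : s a w b = !e := by cases e <;> simpa using c3
    left
    exact ⟨w, b, hwb, Or.inl ⟨!e, a, c, d, ⟨ha, hw, hb, hc, hd⟩,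
      ⟨haw, hwb, hbc, c3', by rw [c1, Bool.not_not], h1⟩, hcd, by rw [h2, Bool.not_not]⟩⟩
  by_cases c4 : ∃ g ∈ V, d < g ∧ s w b g = !e
  · obtain ⟨g, hg, hdg, c4⟩ := c4
    left
    exact ⟨w, b, hwb, Or.inl ⟨e, a, d, g, ⟨ha, hw, hb, hd, hg⟩,
      ⟨haw, hwb, hbc.trans hcd, c3, c2, h2⟩, hdg, c4⟩⟩
  have c5 : ∀ g ∈ V, d < g → s w b g = e := by
    intro g hg hdg
    by_contra hx
    exact c4 ⟨g, hg, hdg, by cases e <;> simpa using hx⟩
  have c6 : s w b f = e := c5 f hf hdf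
  have hR : Rst s V (!e) w b c f a := ⟨⟨hw, hb, hc, hf, ha⟩,
    ⟨hwb, hbc, hcd.trans hdf, h1, by rw [c6, Bool.not_not], a4⟩, haw, by rw [a1, Bool.not_not]⟩
  obtain ⟨v, hv, hcv, hvf, d1, d2⟩ := Rst.hit hs hn hR
  rw [Bool.not_not] at d1
  have d3 : s w b v = !e := by
    have := hs.l w hw b hb c hc v hv hwb hbc hcv (h1.trans d2.symm)
    exact this.trans h1
  have hvd : v < d := by
    rcases lt_trichotomy v d with h | h | h
    · exact h
    · subst h
      rw [h2] at d3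
      cases e <;> simp at d3
    · have := c5 v hv h
      rw [this] at d3
      cases e <;> simp at d3
  have d4 : s b v f = !e := by
    by_contra hx
    have hx' : s b v f = e := by cases e <;> simpa using hx
    have := hs.l b hb c hc v hv f hf hbc hcv (hvd.trans hdf) (d1.trans hx'.symm)
    rw [a4, d1] at this
    cases e <;> simp at this
  by_cases d5 : s a b v = e
  · right
    left
    exact ⟨v, hcv, Or.inr ⟨!e, w, f, a, ⟨hw, hb, hv, hf, ha⟩,
      ⟨hwb, hbc.trans hcv, hvd.trans hdf, d3, by rw [c6, Bool.not_not], d4⟩, haw,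
      by rw [d5, Bool.not_not]⟩⟩
  · have d5' : s a b v = !e := by cases e <;> simpa using d5
    right
    right
    exact ⟨e, a, v, f, hvd, ⟨ha, hb, hc, hv, hf⟩, ⟨hab, hbc, hcv, a1, d5', d1⟩,
      hvd.trans hdf, a4⟩

end H75M
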