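import Pool.Agent.Lib.H75M.P2A
import Pool.Agent.Lib.H75M.P2B

/-! # H75M, chunk P3 (S/M): there is no L- or R-state -/

namespace H75M

variable {s : ℕ → ℕ → ℕ → Bool} {V : Finset ℕ}

/-- (P3, S/M) PROOF. Let `LR s V b c` with `b` minimal (`Nat.find`) and then `c` maximal (`c ∈ V`, `V` is finite: e.g. `Finset.exists_max_image` or strong induction on `V.sup id - c`).
FIRST CASE: there is an L-state with middle edge `bc`: take one with `d` minimal (`Nat.find`). `Lst.hit`: `w < b`, `wbc = !e`, `wbd = e`; `w ≠ a` (`abc = e`). `Lst.step_left` or `Lst.step_mid`: every alternative contradicts the choice of `b`, `c` or `d`.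
SECOND CASE: only R-states: `Rst.hit` and `Rst.step`: `Lst s V e a b c d v` and `Lst s V (!e) u b c v d` are L-states with middle edge `bc`, contradiction; `Rst s V e a b v d u` gives `LR s V b v` with `c < v`, contradiction. -/
theorem no_LR (hs : SS s V) (hn : ¬ Pair s V) (b c : ℕ) : ¬ LR s V b c := by
  induction b using Nat.strong_induction_on generalizing c with
  | _ b ihb =>
  have key : ∀ n c, V.sup id < n + c → ¬ LR s V b c := by
    intro n
    induction n with
    | zero =>
      intro c hc hLR
      have hcV : c ∈ V := by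
        rcases hLR with ⟨e, a, d, f, h⟩ | ⟨e, a, d, u, h⟩
        · exact h.1.2.2.1
        · exact h.1.2.2.1
      have h1 : c ≤ V.sup id := Finset.le_sup (f := id) hcV
      omega
    | succ n ihn =>
      intro c hc
      have hbig : ∀ c', c < c' → ¬ LR s V b c' := fun c' h => ihn c' (by omega)
      have hL : ∀ d e a f, ¬ Lst s V e a b c d f := by
        intro d
        induction d using Nat.strong_induction_on with
        | _ d ihd =>
        intro e a f h
        obtain ⟨w, hw, hwb, h1, h2, _⟩ := Lst.hit hs hn h
        rcases lt_trichotomy w a with hwa | hwa | hwa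
        · rcases Lst.step_left hs hn h hw hwa h1 h2 with ⟨c', hc', hLR⟩ |
            ⟨e', a', d', f', hd', hL'⟩
          · exact hbig c' hc' hLR
          · exact ihd d' hd' e' a' f' hL'
        · subst hwa
          have h3 : s w b c = e := h.2.1.2.2.2.1
          rw [h3] at h1
          cases e <;> simp at h1
        · rcases Lst.step_mid hs hn h hw hwa hwb h1 h2 with ⟨b', c', hb', hLR⟩ |
            ⟨c', hc', hLR⟩ | ⟨e', a', d', f', hd', hL'⟩
          · exact ihb b' hb' c' hLR
          · exact hbig c' hc' hLR
          · exact ihd d' hd' e' a' f' hL'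
      rintro (⟨e, a, d, f, h⟩ | ⟨e, a, d, u, h⟩)
      · exact hL d e a f h
      · obtain ⟨v, hv, hcv, hvd, h1, h2⟩ := Rst.hit hs hn h
        rcases Rst.step hs h hv hcv hvd h1 h2 with ⟨_, h'⟩ | ⟨_, _, h'⟩ | ⟨_, _, h'⟩
        · exact hL _ _ _ _ h'
        · exact hbig v hcv (Or.inr ⟨e, a, d, u, h'⟩)
        · exact hL _ _ _ _ h'
  exact key (V.sup id + 1) c (by omega)

end H75M
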