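import Pool.Agent.Lib.H75M.Defs

/-! # H75M, chunk P4A (M): the step for Z-states, left -/

namespace H75M

variable {s : ℕ → ℕ → ℕ → Bool} {V : Finset ℕ}

/-- (P4a, M) PROOF. `wyz = e` (`ab s y z w = !(s w y z)`); `w ≠ u` (`uyz = !e`).
CASE `u < w`: `uwy = e`: if `w < x`: `wxy = !e` (`ab s x y w = !(s w x y) = e`), `SS.r` for `u w x y`: if `uwy = !e = wxy` then `uxy = wxy = !e`, contradiction. If `x < w`: `xwy = e`; `SS.r` for `u x w y` (`xwy = e = uxy`) gives `uwy = e`.
`kap s e u w y z` (`uwy = e`; `uwz = !e`: `SS.r` for `u w y z`: if `uwz = e = wyz` then `uyz = e`; `wyz = e`). If `wyv = !e`: `Lst s V e u w y z v`, `LR s V w y`. Otherwise `wyv = e` and `Zst s V e u w y z v`.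
CASE `w < u`: `wxy = !e`, `wuy = !e` (`SS.r`, `w u x y`: if `wuy = e = uxy` then `wxy = e`), `wuz = e` (`SS.r`, `w u y z`: if `wuz = !e = uyz` then `wyz = !e`), `kap s (!e) w u y z` (`wuy = !e`, `wuz = e`, `uyz = !e`). If `uyv = e`: `Lst s V (!e) w u y z v`.
If `uyv = !e`: `uxv = !e` (`SS.r`, `u x y v`: if `uxv = e = xyv` then `uyv = e`), `kap s e u x y v` (`uxy = e`, `uxv = !e`, `xyv = e`), `Rst s V e u x y v w` (`wxy = !e`). -/
theorem Zst.step_left (hs : SS s V) (hLR : ∀ b c, ¬ LR s V b c) {e : Bool} {u x y z v w : ℕ}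
    (h : Zst s V e u x y z v) (hw : w ∈ V) (hwx : w ≠ x) (hwy : w < y) (h1 : ab s x y w = e)
    (h2 : ab s y z w = !e) : Zst s V e u w y z v := by
  obtain ⟨⟨hu, hx, hy, hz, hv⟩, ⟨hux, hxy, hyz, hzv⟩, a1, a2, a3, a4⟩ := h
  have b1 : s w y z = e := by
    unfold ab at h2
    rw [if_pos hwy] at h2
    simpa using h2
  have hwu : w ≠ u := by
    rintro rfl
    rw [a2] at b1
    cases e <;> simp at b1
  rcases lt_or_gt_of_ne hwu with hlt | hgt
  · -- w < u
    exfalso
    have c1 : s w x y = !e := by
      unfold ab at h1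
      rw [if_pos (hlt.trans hux)] at h1
      cases e <;> simpa using h1
    have c2 : s w u y = !e := by
      by_contra hc
      have hc' : s w u y = e := by cases e <;> simpa using hc
      have := hs.r w hw u hu x hx y hy hlt hux hxy (a1.trans hc'.symm)
      rw [this, a1] at c1
      cases e <;> simp at c1
    have c3 : s w u z = e := by
      by_contra hc
      have hc' : s w u z = !e := by cases e <;> simpa using hc
      have := hs.r w hw u hu y hy z hz hlt (hux.trans hxy) hyz (a2.trans hc'.symm)
      rw [this, a2] at b1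
      cases e <;> simp at b1
    have k1 : kap s (!e) w u y z := ⟨hlt, hux.trans hxy, hyz, c2, by rw [c3, Bool.not_not], a2⟩
    by_cases c4 : s u y v = e
    · exact hLR u y (Or.inl ⟨!e, w, z, v, ⟨hw, hu, hy, hz, hv⟩, k1, hzv, by rw [c4, Bool.not_not]⟩)
    · have c4' : s u y v = !e := by cases e <;> simpa using c4
      have c5 : s u x v = !e := by
        by_contra hc
        have hc' : s u x v = e := by cases e <;> simpa using hc
        have := hs.r u hu x hx y hy v hv hux hxy (hyz.trans hzv) (a3.trans hc'.symm)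
        exact c4 (this.trans a3)
      have k2 : kap s e u x y v := ⟨hux, hxy, hyz.trans hzv, a1, c5, a3⟩
      exact hLR x y (Or.inr ⟨e, u, v, w, ⟨hu, hx, hy, hv, hw⟩, k2, hlt, c1⟩)
  · -- u < w
    have c1 : s u w y = e := by
      rcases lt_or_gt_of_ne hwx with hwx' | hwx'
      · have d1 : s w x y = !e := by
          unfold ab at h1
          rw [if_pos hwx'] at h1
          cases e <;> simpa using h1
        by_contra hc
        have hc' : s u w y = !e := by cases e <;> simpa using hc
        have := hs.r u hu w hw x hx y hy hgt hwx' hxy (d1.trans hc'.symm)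
        rw [a1, d1] at this
        cases e <;> simp at this
      · have d1 : s x w y = e := by
          unfold ab at h1
          rw [if_neg (by omega), if_pos hwy] at h1
          exact h1
        have := hs.r u hu x hx w hw y hy hux hwx' hwy (d1.trans a1.symm)
        exact this.trans d1
    have c2 : s u w z = !e := by
      by_contra hc
      have hc' : s u w z = e := by cases e <;> simpa using hc
      have := hs.r u hu w hw y hy z hz hgt hwy hyz (b1.trans hc'.symm)
      rw [a2, b1] at this
      cases e <;> simp at this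
    have k1 : kap s e u w y z := ⟨hgt, hwy, hyz, c1, c2, b1⟩
    by_cases c3 : s w y v = e
    · exact ⟨⟨hu, hw, hy, hz, hv⟩, ⟨hgt, hwy, hyz, hzv⟩, c1, a2, c3, a4⟩
    · have c3' : s w y v = !e := by cases e <;> simpa using c3
      exact absurd (Or.inl ⟨e, u, z, v, ⟨hu, hw, hy, hz, hv⟩, k1, hzv, c3'⟩) (hLR w y)

end H75M
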