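import Pool.Agent.Lib.H75M.Defs

/-! # H75M, chunk P4B (M): the step for Z-states, right -/

namespace H75M

variable {s : ℕ → ℕ → ℕ → Bool} {V : Finset ℕ}

/-- (P4b, M) PROOF. `xyw = !e` (`ab s x y w = !(s x y w) = e`); `w ≠ v` (`xyv = e`).
CASE `w < v`: `ywv = !e`: if `w > z`: `yzw = e` (`ab s y z w = !(s y z w) = !e`), `SS.l` for `y z w v`: if `ywv = e = yzw` then `yzv = e`, contradiction. If `w < z`: `ywz = !e`, `SS.l` for `y w z v` (`ywz = !e = yzv`) gives `ywv = !e`.
`kap s (!e) x y w v` (`xyw = !e`, `xyv = e`, `ywv = !e`). If `uyw = e`: `Rst s V (!e) x y w v u`. Otherwise `uyw = !e` and `Zst s V e u x y w v`.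
CASE `w > v`: `yzw = e`, `yvw = e` (`SS.l`, `y z v w`: if `yvw = !e = yzv` then `yzw = !e`), `kap s e x y v w` (`xyv = e`, `xyw = !e`, `yvw = e`). If `uyv = !e`: `Rst s V e x y v w u`. If `uyv = e`: `kap s (!e) u y z v` (`uyz = !e`, `uyv = e`, `yzv = !e`), `Lst s V (!e) u y z v w` (`yzw = e`). -/
theorem Zst.step_right (hs : SS s V) (hLR : ∀ b c, ¬ LR s V b c) {e : Bool} {u x y z v w : ℕ}
    (h : Zst s V e u x y z v) (hw : w ∈ V) (hwz : w ≠ z) (hwy : y < w) (h1 : ab s x y w = e)
    (h2 : ab s y z w = !e) : Zst s V e u x y w v := by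
  obtain ⟨⟨hu, hx, hy, hz, hv⟩, ⟨hux, hxy, hyz, hzv⟩, a1, a2, a3, a4⟩ := h
  have b1 : s x y w = !e := by
    unfold ab at h1
    rw [if_neg (by omega), if_neg (by omega)] at h1
    cases e <;> simpa using h1
  have hwv : w ≠ v := by
    rintro rfl
    rw [a3] at b1
    cases e <;> simp at b1
  rcases lt_or_gt_of_ne hwv with hlt | hgt
  · -- w < v
    have c1 : s y w v = !e := by
      rcases lt_or_gt_of_ne hwz with hwz' | hwz'
      · have d1 : s y w z = !e := by
          unfold ab at h2
          rw [if_neg (by omega), if_pos hwz'] at h2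
          exact h2
        have := hs.l y hy w hw z hz v hv hwy hwz' hzv (d1.trans a4.symm)
        exact this.trans d1
      · have d1 : s y z w = e := by
          unfold ab at h2
          rw [if_neg (by omega), if_neg (by omega)] at h2
          cases e <;> simpa using h2
        by_contra hc
        have hc' : s y w v = e := by cases e <;> simpa using hc
        have := hs.l y hy z hz w hw v hv hyz hwz' hlt (d1.trans hc'.symm)
        rw [this, d1] at a4
        cases e <;> simp at a4
    have k1 : kap s (!e) x y w v := ⟨hxy, hwy, hlt, b1, by rw [a3, Bool.not_not], c1⟩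
    by_cases c3 : s u y w = e
    · exact absurd (Or.inr ⟨!e, x, v, u, ⟨hx, hy, hw, hv, hu⟩, k1, hux, by rw [c3, Bool.not_not]⟩) (hLR y w)
    · have c3' : s u y w = !e := by cases e <;> simpa using c3
      exact ⟨⟨hu, hx, hy, hw, hv⟩, ⟨hux, hxy, hwy, hlt⟩, a1, c3', a3, c1⟩
  · -- v < w
    exfalso
    have c1 : s y z w = e := by
      unfold ab at h2
      rw [if_neg (by omega), if_neg (by omega)] at h2
      cases e <;> simpa using h2
    have c2 : s y v w = e := by
      by_contra hc
      have hc' : s y v w = !e := by cases e <;> simpa using hc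
      have := hs.l y hy z hz v hv w hw hyz hzv hgt (a4.trans hc'.symm)
      rw [this, a4] at c1
      cases e <;> simp at c1
    have k1 : kap s e x y v w := ⟨hxy, hyz.trans hzv, hgt, a3, b1, c2⟩
    by_cases c3 : s u y v = e
    · have k2 : kap s (!e) u y z v := ⟨hux.trans hxy, hyz, hzv, a2, by rw [c3, Bool.not_not], a4⟩
      exact hLR y z (Or.inl ⟨!e, u, v, w, ⟨hu, hy, hz, hv, hw⟩, k2, hgt, by rw [c1, Bool.not_not]⟩)
    · have c3' : s u y v = !e := by cases e <;> simpa using c3
      exact hLR y v (Or.inr ⟨e, x, w, u, ⟨hx, hy, hv, hw, hu⟩, k1, hux, c3'⟩)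

end H75M
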