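import Pool.Agent.Lib.H75M.P0

/-! # H75M, chunk PW (S/M): W-states are hit -/

namespace H75M

variable {s : ℕ → ℕ → ℕ → Bool} {V : Finset ℕ}

/-- (P0e, S/M) PROOF. The caps `wcap V a d` (`b` or `c` and `v` are on different sides of `ad`: `abd = !e`, `avd = e`) and `cap s V b c e` (witnesses `a`, `d`), `S = {a, b, c, d}`. `w` in both: `w < a`: `s w b c = !e`, R-state; `w > d`: `s b c w = !e`, L-state. -/
theorem Wst.hit (hs : SS s V) (hn : ¬ Pair s V) {e : Bool} {a b c d v : ℕ}
    (h : Wst s V e a b c d v) : LR s V b c := by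
  obtain ⟨⟨ha, hb, hc, hd, hv⟩, ⟨hab, hbc, hcd, h1, h2, h3⟩, hav, hvd, h4⟩ := h
  have hA : IsCap s V (wcap V a d) := by
    right
    refine ⟨a, ha, d, hd, rfl, ?_⟩
    cases e
    · exact ⟨⟨b, hb, hab, hbc.trans hcd, by simpa using h2⟩, ⟨v, hv, hav, hvd, h4⟩⟩
    · exact ⟨⟨v, hv, hav, hvd, h4⟩, ⟨b, hb, hab, hbc.trans hcd, by simpa using h2⟩⟩
  have haB : a ∉ cap s V b c e := by
    intro h
    have h5 := (Finset.mem_filter.1 h).2.2.2
    rw [ab, if_pos hab, h1] at h5
    cases e <;> simp at h5
  have hdB : d ∉ cap s V b c e := by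
    intro h
    have h5 := (Finset.mem_filter.1 h).2.2.2
    rw [ab, if_neg (by omega), if_neg (by omega), h3] at h5
    cases e <;> simp at h5
  have hB : IsCap s V (cap s V b c e) := by
    left
    exact ⟨b, hb, c, hc, e, hbc, rfl, ⟨a, ha, hab, haB⟩, ⟨d, hd, hcd, hdB⟩⟩
  have hbB : b ∉ cap s V b c e := fun h => (Finset.mem_filter.1 h).2.1 rfl
  have hcB : c ∉ cap s V b c e := fun h => (Finset.mem_filter.1 h).2.2.1 rfl
  obtain ⟨w, hw, hwA, hwB⟩ := hit_of_not_pair hA hB {a, b, c, d} (by
      intro x hx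
      simp only [Finset.mem_insert, Finset.mem_singleton] at hx
      rcases hx with rfl | rfl | rfl | rfl
      · exact ha
      · exact hb
      · exact hc
      · exact hd) (by
      rw [Finset.card_insert_of_notMem, Finset.card_insert_of_notMem, Finset.card_insert_of_notMem, Finset.card_singleton]
      · simp only [Finset.mem_singleton]
        omega
      · simp only [Finset.mem_insert, Finset.mem_singleton]
        omega
      · simp only [Finset.mem_insert, Finset.mem_singleton]
        omega) (by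
      intro x hx hxA
      simp only [Finset.mem_insert, Finset.mem_singleton] at hx
      have h5 := (Finset.mem_filter.1 hxA).2
      omega) (by
      intro x hx
      simp only [Finset.mem_insert, Finset.mem_singleton] at hx
      rcases hx with rfl | rfl | rfl | rfl
      · exact haB
      · exact hbB
      · exact hcB
      · exact hdB) hn
  have h5 := (Finset.mem_filter.1 hwB).2.2.2
  rcases (Finset.mem_filter.1 hwA).2 with h6 | h6
  · right
    refine ⟨e, a, d, w, ⟨ha, hb, hc, hd, hw⟩, ⟨hab, hbc, hcd, h1, h2, h3⟩, h6, ?_⟩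
    rw [ab, if_pos (by omega)] at h5
    rw [← h5, Bool.not_not]
  · left
    refine ⟨e, a, d, w, ⟨ha, hb, hc, hd, hw⟩, ⟨hab, hbc, hcd, h1, h2, h3⟩, h6, ?_⟩
    rw [ab, if_neg (by omega), if_neg (by omega)] at h5
    rw [← h5, Bool.not_not]

end H75M
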