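import Pool.Agent.Lib.H75M.P0

/-! # H75M, chunk PZ (S/M): Z-states are hit -/

namespace H75M

variable {s : ℕ → ℕ → ℕ → Bool} {V : Finset ℕ}

theorem pz_mem {x y w : ℕ} {σ : Bool} :
    w ∈ cap s V x y σ ↔ w ∈ V ∧ w ≠ x ∧ w ≠ y ∧ ab s x y w = σ := by
  simp only [cap, Finset.mem_filter]

theorem pz_ne (e : Bool) : (!e) ≠ e := by cases e <;> decide

theorem pz_ne' (e : Bool) : e ≠ (!e) := by cases e <;> decide

/-- (P0f, S/M) PROOF. The caps `cap s V x y e` (witnesses `u`: `ab = !(s u x y) = !e`; `v`: `ab = !(s x y v) = !e`) and `cap s V y z (!e)` (witnesses `u`: `ab = !(s u y z) = e`; `v`: `ab = !(s y z v) = e`).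
`ab s x y z = !(s x y z)`, `ab s y z x = !(s x y z)`: if `s x y z = e` then `S = {u, y, z, v}`, otherwise `S = {u, y, x, v}`. -/
theorem Zst.hit (hs : SS s V) (hn : ¬ Pair s V) {e : Bool} {u x y z v : ℕ}
    (h : Zst s V e u x y z v) : ∃ w ∈ V, w ≠ x ∧ w ≠ y ∧ w ≠ z ∧ ab s x y w = e ∧
      ab s y z w = !e := by
  obtain ⟨⟨hu, hx, hy, hz, hv⟩, ⟨h1, h2, h3, h4⟩, h5, h6, h7, h8⟩ := h
  have eu : ab s x y u = !e := by rw [ab, if_pos h1, h5]
  have ev : ab s x y v = !e := by rw [ab, if_neg (by omega), if_neg (by omega), h7]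
  have fu : ab s y z u = e := by rw [ab, if_pos (h1.trans h2), h6, Bool.not_not]
  have fv : ab s y z v = e := by rw [ab, if_neg (by omega), if_neg (by omega), h8, Bool.not_not]
  have ez : ab s x y z = !(s x y z) := by rw [ab, if_neg (by omega), if_neg (by omega)]
  have fx : ab s y z x = !(s x y z) := by rw [ab, if_pos h2]
  have uA : u ∉ cap s V x y e := by
    rw [pz_mem, eu]; exact fun h => pz_ne e h.2.2.2
  have vA : v ∉ cap s V x y e := by
    rw [pz_mem, ev]; exact fun h => pz_ne e h.2.2.2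
  have xA : x ∉ cap s V x y e := by
    rw [pz_mem]; exact fun h => h.2.1 rfl
  have yA : y ∉ cap s V x y e := by
    rw [pz_mem]; exact fun h => h.2.2.1 rfl
  have uB : u ∉ cap s V y z (!e) := by
    rw [pz_mem, fu]; exact fun h => pz_ne' e h.2.2.2
  have vB : v ∉ cap s V y z (!e) := by
    rw [pz_mem, fv]; exact fun h => pz_ne' e h.2.2.2
  have yB : y ∉ cap s V y z (!e) := by
    rw [pz_mem]; exact fun h => h.2.1 rfl
  have zB : z ∉ cap s V y z (!e) := by
    rw [pz_mem]; exact fun h => h.2.2.1 rfl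
  have cA : IsCap s V (cap s V x y e) :=
    Or.inl ⟨x, hx, y, hy, e, h2, rfl, ⟨u, hu, h1, uA⟩, ⟨v, hv, h3.trans h4, vA⟩⟩
  have cB : IsCap s V (cap s V y z (!e)) :=
    Or.inl ⟨y, hy, z, hz, !e, h3, rfl, ⟨u, hu, h1.trans h2, uB⟩, ⟨v, hv, h4, vB⟩⟩
  have key : ∀ t ∈ V, t ≠ u → t ≠ y → t ≠ v → t ∉ cap s V x y e → t ∉ cap s V y z (!e) →
      ∃ w ∈ V, w ≠ x ∧ w ≠ y ∧ w ≠ z ∧ ab s x y w = e ∧ ab s y z w = !e := by
    intro t ht tu ty tv tA tB
    have hcard : ({u, y, t, v} : Finset ℕ).card = 4 := by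
      rw [Finset.card_insert_of_notMem, Finset.card_insert_of_notMem, Finset.card_insert_of_notMem,
        Finset.card_singleton]
      · simp only [Finset.mem_singleton]; exact tv
      · simp only [Finset.mem_insert, Finset.mem_singleton]; omega
      · simp only [Finset.mem_insert, Finset.mem_singleton]; omega
    obtain ⟨w, hw, hwA, hwB⟩ := hit_of_not_pair cA cB {u, y, t, v}
      (by
        intro r hr
        simp only [Finset.mem_insert, Finset.mem_singleton] at hr
        rcases hr with rfl | rfl | rfl | rfl <;> assumption)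
      hcard
      (by
        intro r hr
        simp only [Finset.mem_insert, Finset.mem_singleton] at hr
        rcases hr with rfl | rfl | rfl | rfl <;> assumption)
      (by
        intro r hr
        simp only [Finset.mem_insert, Finset.mem_singleton] at hr
        rcases hr with rfl | rfl | rfl | rfl <;> assumption) hn
    rw [pz_mem] at hwA hwB
    exact ⟨w, hw, hwA.2.1, hwA.2.2.1, hwB.2.2.1, hwA.2.2.2, hwB.2.2.2⟩
  by_cases hc : s x y z = e
  · refine key z hz (by omega) (by omega) (by omega) ?_ zB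
    rw [pz_mem, ez, hc]; exact fun h => pz_ne e h.2.2.2
  · refine key x hx (by omega) (by omega) (by omega) xA ?_
    rw [pz_mem, fx]
    intro h
    apply hc
    have := h.2.2.2
    revert this
    cases s x y z <;> cases e <;> simp

end H75M
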