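import Pool.Agent.Lib.H75M.O1
import Pool.Agent.Lib.H75M.P3
import Pool.Agent.Lib.H75M.PW
import Pool.Agent.Lib.H75M.PZ
import Pool.Agent.Lib.H75M.P4A
import Pool.Agent.Lib.H75M.P4B

/-! # H75M, chunk P5 (M): a state gives two disjoint valid caps -/

namespace H75M

variable {s : ℕ → ℕ → ℕ → Bool} {V : Finset ℕ}

theorem p5_ne (e : Bool) : (!e) ≠ e := by cases e <;> decide

theorem p5_left (hs : SS s V) {x w y : ℕ} (hx : x ∈ V) (hw : w ∈ V) (hy : y ∈ V) (hxy : x < y)
    (hwy : w < y) (hwx : w ≠ x) {σ : Bool} (h : ab s x y w = σ) :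
    (V.filter (fun l => l < y ∧ l ≠ w ∧ ab s w y l = σ)).card <
      (V.filter (fun l => l < y ∧ l ≠ x ∧ ab s x y l = σ)).card := by
  apply Finset.card_lt_card
  rw [Finset.ssubset_iff_of_subset]
  · refine ⟨w, Finset.mem_filter.2 ⟨hw, hwy, hwx, h⟩, ?_⟩
    intro h2
    exact (Finset.mem_filter.1 h2).2.2.1 rfl
  · intro l hl
    obtain ⟨hl, hly, hlw, h2⟩ := Finset.mem_filter.1 hl
    have hlx : l ≠ x := by
      rintro rfl
      rw [ab_left_anti hxy hwy hwx.symm, h] at h2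
      exact p5_ne σ h2
    exact Finset.mem_filter.2 ⟨hl, hly, hlx,
      ab_left_trans hs hx hw hl hy hxy hwy hly hwx.symm hlx.symm hlw.symm h h2⟩

theorem p5_right (hs : SS s V) {z w y : ℕ} (hz : z ∈ V) (hw : w ∈ V) (hy : y ∈ V) (hyz : y < z)
    (hyw : y < w) (hwz : w ≠ z) {σ : Bool} (h : ab s y z w = σ) :
    (V.filter (fun r => y < r ∧ r ≠ w ∧ ab s y w r = σ)).card <
      (V.filter (fun r => y < r ∧ r ≠ z ∧ ab s y z r = σ)).card := by
  apply Finset.card_lt_card
  rw [Finset.ssubset_iff_of_subset]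
  · refine ⟨w, Finset.mem_filter.2 ⟨hw, hyw, hwz, h⟩, ?_⟩
    intro h2
    exact (Finset.mem_filter.1 h2).2.2.1 rfl
  · intro r hr
    obtain ⟨hr, hyr, hrw, h2⟩ := Finset.mem_filter.1 hr
    have hrz : r ≠ z := by
      rintro rfl
      rw [ab_right_anti hyz hyw hwz.symm, h] at h2
      exact p5_ne σ h2
    exact Finset.mem_filter.2 ⟨hr, hyr, hrz,
      ab_right_trans hs hy hz hw hr hyz hyw hyr hwz.symm hrz.symm hrw.symm h h2⟩

theorem p5_main (hs : SS s V) (hn : ¬ Pair s V) {e : Bool} {u y v : ℕ} (n : ℕ) :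
    ∀ x z, (V.filter (fun l => l < y ∧ l ≠ x ∧ ab s x y l = e)).card +
      (V.filter (fun r => y < r ∧ r ≠ z ∧ ab s y z r = !e)).card < n → ¬ Zst s V e u x y z v := by
  induction n with
  | zero =>
    intro x z h
    omega
  | succ n ih =>
    intro x z hc h
    have hLR := no_LR hs hn
    obtain ⟨w, hw, hwx, hwy, hwz, h1, h2⟩ := Zst.hit hs hn h
    have hx : x ∈ V := h.1.2.1
    have hy : y ∈ V := h.1.2.2.1
    have hz : z ∈ V := h.1.2.2.2.1
    have hxy : x < y := h.2.1.2.1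
    have hyz : y < z := h.2.1.2.2.1
    rcases lt_or_gt_of_ne hwy with hlt | hgt
    · have h3 := Zst.step_left hs hLR h hw hwx hlt h1 h2
      have h4 := p5_left hs hx hw hy hxy hlt hwx h1
      exact ih w z (by omega) h3
    · have h3 := Zst.step_right hs hLR h hw hwz hgt h1 h2
      have h4 := p5_right hs hz hw hy hyz hgt hwz h2
      exact ih x w (by omega) h3

/-- (P5a, M) PROOF. Otherwise take a Z-state `(e; u, x, y, z, v)` (for fixed `e`, `y`) for which the number `|{l ∈ V : l < y, l ≠ x, ab s x y l = e}| + |{r ∈ V : y < r, r ≠ z, ab s y z r = !e}|` is minimal. `Zst.hit` gives `w`.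
If `w < y`: `Zst.step_left`; the first number decreases: `{l : l ≠ w, ab s w y l = e} ⊆ {l : l ≠ x, ab s x y l = e}` (`ab_left_trans`, and `l = x` is impossible by `ab_left_anti`), and `w` is in the second set, but not in the first.
If `w > y`: `Zst.step_right`, the second number decreases (`ab_right_trans`, `ab_right_anti`). -/
theorem no_Z (hs : SS s V) (hn : ¬ Pair s V) {e : Bool} {u x y z v : ℕ} :
    ¬ Zst s V e u x y z v :=
  p5_main hs hn _ x z (Nat.lt_succ_self _)

/-- (P5b, S) the main theorem of part P. PROOF. `no_LR`, `Wst.hit`, `no_Z`. -/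
theorem pair_of_state (hs : SS s V) (h : HasState s V) : Pair s V := by
  by_contra hn
  rcases h with ⟨e, a, b, c, d, f, h⟩ | ⟨e, a, b, c, d, u, h⟩ | ⟨e, a, b, c, d, v, h⟩ |
    ⟨e, u, x, y, z, v, h⟩
  · exact no_LR hs hn b c (Or.inl ⟨e, a, d, f, h⟩)
  · exact no_LR hs hn b c (Or.inr ⟨e, a, d, u, h⟩)
  · exact no_LR hs hn b c (h.hit hs hn)
  · exact no_Z hs hn h

end H75M
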