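import Pool.Agent.Lib.H75M.C3
import Pool.Agent.Lib.H75M.E6B
import Pool.Agent.Lib.H75M.P5

/-! # H75M, chunk G1 (M): odd n -/

namespace H75M

variable {s : ℕ → ℕ → ℕ → Bool} {V : Finset ℕ}

/-- (G1a, S) PROOF. `crs_eq` and `F_ge` for every `K ∈ range m` (`2 * K + 1 ≤ V.card`), `Finset.sum_le_sum`. -/
theorem odd_lower (hs : SS s V) {m : ℕ} (hV : V.card = 2 * m + 1) :
    hill (2 * m + 1) ≤ crs s V := by
  have h1 := crs_eq hs hV
  have h2 : ∑ K ∈ Finset.range m, K * (K + 1) * (K + 2) ≤ ∑ K ∈ Finset.range m, 2 * F s V K := by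
    refine Finset.sum_le_sum fun K hK => F_ge K V hs ?_
    rw [Finset.mem_range] at hK
    omega
  omega

theorem g1_four {a b c d : ℕ} (ha : a ∈ V) (hb : b ∈ V) (hc : c ∈ V) (hd : d ∈ V) (h1 : a < b)
    (h2 : b < c) (h3 : c < d) : 4 ≤ V.card := by
  have h4 : ({a, b, c, d} : Finset ℕ).card = 4 := by
    rw [Finset.card_insert_of_notMem, Finset.card_insert_of_notMem, Finset.card_insert_of_notMem,
      Finset.card_singleton]
    · simp only [Finset.mem_singleton]
      omega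
    · simp only [Finset.mem_insert, Finset.mem_singleton, not_or]
      omega
    · simp only [Finset.mem_insert, Finset.mem_singleton, not_or]
      omega
  rw [← h4]
  refine Finset.card_le_card fun x hx => ?_
  simp only [Finset.mem_insert, Finset.mem_singleton] at hx
  rcases hx with rfl | rfl | rfl | rfl
  · exact ha
  · exact hb
  · exact hc
  · exact hd

/-- (G1b, S) PROOF. Every state contains four points `a < b < c < d` of `V` (`u < x < y < z`). -/
theorem HasState.four (h : HasState s V) : 4 ≤ V.card := by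
  rcases h with ⟨e, a, b, c, d, f, h⟩ | ⟨e, a, b, c, d, f, h⟩ | ⟨e, a, b, c, d, f, h⟩ |
    ⟨e, a, b, c, d, f, h⟩
  · obtain ⟨⟨ha, hb, hc, hd, hf⟩, ⟨h1, h2, h3, _⟩, _⟩ := h
    exact g1_four ha hb hc hd h1 h2 h3
  · obtain ⟨⟨ha, hb, hc, hd, hf⟩, ⟨h1, h2, h3, _⟩, _⟩ := h
    exact g1_four ha hb hc hd h1 h2 h3
  · obtain ⟨⟨ha, hb, hc, hd, hf⟩, ⟨h1, h2, h3, _⟩, _⟩ := h
    exact g1_four ha hb hc hd h1 h2 h3
  · obtain ⟨⟨ha, hb, hc, hd, hf⟩, ⟨h1, h2, h3, _⟩, _⟩ := h
    exact g1_four ha hb hc hd h1 h2 h3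

theorem g1_even (K : ℕ) : Even (K * (K + 1) * (K + 2)) := (Nat.even_mul_succ_self K).mul_right _

/-- (G1c, M) PROOF. `m ≥ 2` (`HasState.four`). Suppose `crs s V ≤ hill (2 m + 1) + 1`. By `crs_eq` and `F_ge` the nonnegative numbers `2 * F s V K - K (K + 1) (K + 2)`, `K ∈ range m`, have sum at most 1; they are even (`K (K + 1) (K + 2)` is even), so all are 0:
`Tight s V (m - 2)` (`J ≤ m - 2`, `K = J + 1 ∈ range m`). `pair_of_state`: disjoint valid caps `A`, `B` with `A.card + B.card + 4 ≤ 2 m + 1`; `isCap_big` with `K = m - 2` (`2 * (m - 2) + 3 ≤ 2 m + 1`): `A.card, B.card ≥ m - 1`. Contradiction. -/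
theorem odd_state (hs : SS s V) {m : ℕ} (hV : V.card = 2 * m + 1) (h : HasState s V) :
    hill (2 * m + 1) + 2 ≤ crs s V := by
  by_contra hlt
  have h4 := h.four
  have h1 := crs_eq hs hV
  have h2 : ∀ K ∈ Finset.range m, K * (K + 1) * (K + 2) ≤ 2 * F s V K := by
    intro K hK
    rw [Finset.mem_range] at hK
    exact F_ge K V hs (by omega)
  have h3 : ∀ K ∈ Finset.range m, 2 * F s V K = K * (K + 1) * (K + 2) := by
    intro K hK
    by_contra hne
    have h5 := h2 K hK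
    obtain ⟨t, ht⟩ := g1_even K
    have h6 : K * (K + 1) * (K + 2) + 2 ≤ 2 * F s V K := by omega
    have h7 : ∑ K ∈ Finset.range m, K * (K + 1) * (K + 2) + 2 ≤ ∑ K ∈ Finset.range m, 2 * F s V K := by
      rw [← Finset.add_sum_erase _ _ hK, ← Finset.add_sum_erase _ (fun K => 2 * F s V K) hK]
      have h8 : ∑ K ∈ (Finset.range m).erase K, K * (K + 1) * (K + 2) ≤
          ∑ K ∈ (Finset.range m).erase K, 2 * F s V K :=
        Finset.sum_le_sum fun L hL => h2 L (Finset.mem_of_mem_erase hL)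
      omega
    omega
  have h5 : Tight s V (m - 2) := by
    intro J hJ
    exact h3 (J + 1) (Finset.mem_range.mpr (by omega))
  obtain ⟨A, B, hA, hB, _, hAB⟩ := pair_of_state hs h
  have h6 := isCap_big hs (by omega : 2 * (m - 2) + 3 ≤ V.card) h5 hA
  have h7 := isCap_big hs (by omega : 2 * (m - 2) + 3 ≤ V.card) h5 hB
  omega

end H75M
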