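import Pool.Agent.Lib.H75M.P0

/-! # H75M, chunk G2A (S/M): the five vertices of a state -/

namespace H75M

variable {s : ℕ → ℕ → ℕ → Bool} {V : Finset ℕ}

theorem g2a_sub {a b c d f : ℕ} (ha : a ∈ V) (hb : b ∈ V) (hc : c ∈ V) (hd : d ∈ V) (hf : f ∈ V) :
    ({a, b, c, d, f} : Finset ℕ) ⊆ V := by
  intro x hx
  simp only [Finset.mem_insert, Finset.mem_singleton] at hx
  rcases hx with rfl | rfl | rfl | rfl | rfl
  · exact ha
  · exact hb
  · exact hc
  · exact hd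
  · exact hf

theorem g2a_mem {W : Finset ℕ} {a b c d f : ℕ} (h : ({a, b, c, d, f} : Finset ℕ) ⊆ W) :
    a ∈ W ∧ b ∈ W ∧ c ∈ W ∧ d ∈ W ∧ f ∈ W :=
  ⟨h (by simp), h (by simp), h (by simp), h (by simp), h (by simp)⟩

theorem g2a_card {a b c d f : ℕ} (h1 : a ≠ b) (h2 : a ≠ c) (h3 : a ≠ d) (h4 : a ≠ f) (h5 : b ≠ c)
    (h6 : b ≠ d) (h7 : b ≠ f) (h8 : c ≠ d) (h9 : c ≠ f) (h10 : d ≠ f) :
    ({a, b, c, d, f} : Finset ℕ).card = 5 := by
  rw [Finset.card_insert_of_notMem, Finset.card_insert_of_notMem, Finset.card_insert_of_notMem,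
    Finset.card_insert_of_notMem, Finset.card_singleton]
  · simpa using h10
  · simp only [Finset.mem_insert, Finset.mem_singleton, not_or]
    exact ⟨h8, h9⟩
  · simp only [Finset.mem_insert, Finset.mem_singleton, not_or]
    exact ⟨h5, h6, h7⟩
  · simp only [Finset.mem_insert, Finset.mem_singleton, not_or]
    exact ⟨h1, h2, h3, h4⟩

/-- (G2a, S) PROOF. The set of the five points of the state. -/
theorem HasState.supp (h : HasState s V) :
    ∃ P ⊆ V, P.card ≤ 5 ∧ ∀ W : Finset ℕ, P ⊆ W → HasState s W := by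
  rcases h with ⟨e, a, b, c, d, f, h⟩ | ⟨e, a, b, c, d, f, h⟩ | ⟨e, a, b, c, d, f, h⟩ |
    ⟨e, a, b, c, d, f, h⟩
  · obtain ⟨⟨ha, hb, hc, hd, hf⟩, h⟩ := h
    exact ⟨{a, b, c, d, f}, g2a_sub ha hb hc hd hf, Finset.card_le_five, fun W hW =>
      Or.inl ⟨e, a, b, c, d, f, g2a_mem hW, h⟩⟩
  · obtain ⟨⟨ha, hb, hc, hd, hf⟩, h⟩ := h
    exact ⟨{a, b, c, d, f}, g2a_sub ha hb hc hd hf, Finset.card_le_five, fun W hW =>
      Or.inr (Or.inl ⟨e, a, b, c, d, f, g2a_mem hW, h⟩)⟩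
  · obtain ⟨⟨ha, hb, hc, hd, hf⟩, h⟩ := h
    exact ⟨{a, b, c, d, f}, g2a_sub ha hb hc hd hf, Finset.card_le_five, fun W hW =>
      Or.inr (Or.inr (Or.inl ⟨e, a, b, c, d, f, g2a_mem hW, h⟩))⟩
  · obtain ⟨⟨ha, hb, hc, hd, hf⟩, h⟩ := h
    exact ⟨{a, b, c, d, f}, g2a_sub ha hb hc hd hf, Finset.card_le_five, fun W hW =>
      Or.inr (Or.inr (Or.inr ⟨e, a, b, c, d, f, g2a_mem hW, h⟩))⟩

/-- (G2b, S/M) PROOF. The five points are distinct: in a W-state `v ≠ b` (`s a b d = !e`, `s a v d = e`) and `v ≠ c` (`kap_acd`). -/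
theorem HasState.five (hs : SS s V) (h : HasState s V) : 5 ≤ V.card := by
  rcases h with ⟨e, a, b, c, d, f, h⟩ | ⟨e, a, b, c, d, f, h⟩ | ⟨e, a, b, c, d, f, h⟩ |
    ⟨e, a, b, c, d, f, h⟩
  · obtain ⟨⟨ha, hb, hc, hd, hf⟩, ⟨h1, h2, h3, _⟩, h4, _⟩ := h
    rw [← g2a_card (a := a) (b := b) (c := c) (d := d) (f := f) (by omega) (by omega) (by omega) (by omega)
      (by omega) (by omega) (by omega) (by omega) (by omega) (by omega)]
    exact Finset.card_le_card (g2a_sub ha hb hc hd hf)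
  · obtain ⟨⟨ha, hb, hc, hd, hf⟩, ⟨h1, h2, h3, _⟩, h4, _⟩ := h
    rw [← g2a_card (a := a) (b := b) (c := c) (d := d) (f := f) (by omega) (by omega) (by omega) (by omega)
      (by omega) (by omega) (by omega) (by omega) (by omega) (by omega)]
    exact Finset.card_le_card (g2a_sub ha hb hc hd hf)
  · obtain ⟨⟨ha, hb, hc, hd, hf⟩, hk, h4, h5, h6⟩ := h
    have h7 := kap_acd hs ha hb hc hd hk
    obtain ⟨h1, h2, h3, k1, k2, k3⟩ := hk
    have hbf : b ≠ f := by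
      rintro rfl
      rw [h6] at k2
      cases e <;> simp at k2
    have hcf : c ≠ f := by
      rintro rfl
      rw [h6] at h7
      cases e <;> simp at h7
    rw [← g2a_card (a := a) (b := b) (c := c) (d := d) (f := f) (by omega) (by omega) (by omega) (by omega)
      (by omega) (by omega) hbf (by omega) hcf (by omega)]
    exact Finset.card_le_card (g2a_sub ha hb hc hd hf)
  · obtain ⟨⟨ha, hb, hc, hd, hf⟩, ⟨h1, h2, h3, h4⟩, _⟩ := h
    rw [← g2a_card (a := a) (b := b) (c := c) (d := d) (f := f) (by omega) (by omega) (by omega) (by omega)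
      (by omega) (by omega) (by omega) (by omega) (by omega) (by omega)]
    exact Finset.card_le_card (g2a_sub ha hb hc hd hf)

end H75M
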