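import Pool.Agent.Lib.H75M.Defs

/-! # H75M, chunk G2C (S/M): the Hill number for even n -/

namespace H75M

/-- (G2c, S/M) PROOF. `4 * hill (2 m + 2) = (m + 1) * m * (m * (m - 1))` and `4 * hill (2 m + 1) = (m * (m - 1)) * (m * (m - 1))` (two products of consecutive numbers are even, so both products are divisible by 4). `m = 0` separately, `m = r + 1`, `ring`. -/
theorem hill_even (m : ℕ) : (2 * m + 2) * hill (2 * m + 1) = (2 * m - 2) * hill (2 * m + 2) := by
  rcases Nat.eq_zero_or_pos m with rfl | hm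
  · decide
  · obtain ⟨r, rfl⟩ : ∃ r, m = r + 1 := ⟨m - 1, by omega⟩
    have e1 : (2 * (r + 1) + 1) / 2 = r + 1 := by omega
    have e2 : (2 * (r + 1) + 1 - 1) / 2 = r + 1 := by omega
    have e3 : (2 * (r + 1) + 1 - 2) / 2 = r := by omega
    have e4 : (2 * (r + 1) + 1 - 3) / 2 = r := by omega
    have f1 : (2 * (r + 1) + 2) / 2 = r + 2 := by omega
    have f2 : (2 * (r + 1) + 2 - 1) / 2 = r + 1 := by omega
    have f3 : (2 * (r + 1) + 2 - 2) / 2 = r + 1 := by omega
    have f4 : (2 * (r + 1) + 2 - 3) / 2 = r := by omega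
    unfold hill
    rw [e1, e2, e3, e4, f1, f2, f3, f4]
    obtain ⟨t, ht⟩ := Nat.even_mul_succ_self r
    obtain ⟨u, hu⟩ := Nat.even_mul_succ_self (r + 1)
    have g1 : (r + 1) * (r + 1) * r * r / 4 = t * t := by
      have : (r + 1) * (r + 1) * r * r = 4 * (t * t) := by
        calc (r + 1) * (r + 1) * r * r = (r * (r + 1)) * (r * (r + 1)) := by ring
          _ = (t + t) * (t + t) := by rw [ht]
          _ = 4 * (t * t) := by ring
      rw [this]
      omega
    have g2 : (r + 2) * (r + 1) * (r + 1) * r / 4 = u * t := by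
      have : (r + 2) * (r + 1) * (r + 1) * r = 4 * (u * t) := by
        calc (r + 2) * (r + 1) * (r + 1) * r = ((r + 1) * (r + 1 + 1)) * (r * (r + 1)) := by ring
          _ = (u + u) * (t + t) := by rw [ht, hu]
          _ = 4 * (u * t) := by ring
      rw [this]
      omega
    rw [g1, g2]
    have h1 : 2 * (r + 1) - 2 = 2 * r := by omega
    rw [h1]
    have h2 : 2 * ((2 * (r + 1) + 2) * (t * t)) = 2 * (2 * r * (u * t)) := by
      calc 2 * ((2 * (r + 1) + 2) * (t * t)) = (2 * (r + 1) + 2) * t * (t + t) := by ring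
        _ = (2 * (r + 1) + 2) * t * (r * (r + 1)) := by rw [ht]
        _ = 2 * r * t * ((r + 1) * (r + 1 + 1)) := by ring
        _ = 2 * r * t * (u + u) := by rw [hu]
        _ = 2 * (2 * r * (u * t)) := by ring
    omega

end H75M
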