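import Pool.Agent.Lib.H75M.C4
import Pool.Agent.Lib.H75M.G1
import Pool.Agent.Lib.H75M.G2A
import Pool.Agent.Lib.H75M.G2C

/-! # H75M, chunk G2 (M): even n -/

namespace H75M

variable {s : ℕ → ℕ → ℕ → Bool} {V : Finset ℕ}

/-- (G2, M) PROOF. `crs_erase`: `∑ v ∈ V, crs s (V.erase v) = (2 m - 2) * crs s V`. For `v ∈ V`: `crs s (V.erase v) ≥ hill (2 m + 1)` (`odd_lower`, `SS.mono`), and `≥ hill (2 m + 1) + 2` if `v ∉ P` (`odd_state`, `HasState.supp`: `P ⊆ V.erase v`); at least `2 m + 2 - 5` of the `v` are not in `P`.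
So `(2 m - 2) * crs s V ≥ (2 m + 2) * hill (2 m + 1) + 2 * (2 m - 3) = (2 m - 2) * hill (2 m + 2) + 2 * (2 m - 3)` (`hill_even`), and `2 (2 m - 3) > 2 m - 2`. -/
theorem even_state (hs : SS s V) {m : ℕ} (hV : V.card = 2 * m + 2) (hm : 3 ≤ m)
    (h : HasState s V) : hill (2 * m + 2) + 2 ≤ crs s V := by
  obtain ⟨P, hPV, hP5, hP⟩ := h.supp
  have h1 := crs_erase s V
  have hcard : ∀ v ∈ V, (V.erase v).card = 2 * m + 1 := by
    intro v hv
    rw [Finset.card_erase_of_mem hv, hV]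
    omega
  have hss : ∀ v, SS s (V.erase v) := fun v => hs.mono (Finset.erase_subset v V)
  have h2 : ∀ v ∈ V, hill (2 * m + 1) + (if v ∈ P then 0 else 2) ≤ crs s (V.erase v) := by
    intro v hv
    split_ifs with hvP
    · rw [add_zero]
      exact odd_lower (hss v) (hcard v hv)
    · refine odd_state (hss v) (hcard v hv) (hP _ fun x hx => Finset.mem_erase.mpr ⟨?_, hPV hx⟩)
      rintro rfl
      exact hvP hx
  have h3 := Finset.sum_le_sum h2
  rw [h1, Finset.sum_add_distrib, Finset.sum_const, smul_eq_mul, hV] at h3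
  have h4 : 2 * (2 * m - 3) ≤ ∑ v ∈ V, (if v ∈ P then 0 else 2) := by
    have h5 : ∑ v ∈ V, (if v ∈ P then 0 else 2) = 2 * (V.filter fun v => v ∉ P).card := by
      rw [Finset.sum_ite, Finset.sum_const_zero, zero_add, Finset.sum_const, smul_eq_mul, mul_comm]
    have h6 : (V.filter fun v => v ∉ P).card = V.card - P.card := by
      rw [← Finset.card_sdiff_of_subset hPV]
      congr 1
      ext v
      simp only [Finset.mem_filter, Finset.mem_sdiff]
    rw [h5, h6, hV]
    omega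
  have h5 := hill_even m
  by_contra hlt
  have h6 : crs s V ≤ hill (2 * m + 2) + 1 := by omega
  have h7 : (2 * m + 2 - 4) * crs s V ≤ (2 * m - 2) * (hill (2 * m + 2) + 1) := by
    have h8 : 2 * m + 2 - 4 = 2 * m - 2 := by omega
    rw [h8]
    exact Nat.mul_le_mul_left _ h6
  rw [mul_add, mul_one, ← h5] at h7
  omega

end H75M
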