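import Mathlib

/-! # H75M, chunk T0 (S/M): two continuous functions -/

namespace H75M

/-- (T0a, S) Two continuous functions which do not meet on an interval keep their order. PROOF. Otherwise `h t ≤ g t`; `hI.isPreconnected.intermediate_value₂` gives a point of `I` with `g = h`. -/
theorem const_sign {I : Set ℝ} (hI : I.OrdConnected) {g h : ℝ → ℝ} (hg : ContinuousOn g I)
    (hh : ContinuousOn h I) (hne : ∀ t ∈ I, g t ≠ h t) {s t : ℝ} (hs : s ∈ I) (ht : t ∈ I)
    (h1 : g s < h s) : g t < h t := by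
  by_contra hc
  push Not at hc
  obtain ⟨x, hx, hx2⟩ := hI.isPreconnected.intermediate_value₂ hs ht hg hh h1.le hc
  exact hne x hx hx2

/-- (T0b, S) intermediate value theorem. PROOF. `isPreconnected_Icc.intermediate_value₂`. -/
theorem exists_meet {p q : ℝ} (hpq : p ≤ q) {g h : ℝ → ℝ} (hg : ContinuousOn g (Set.Icc p q))
    (hh : ContinuousOn h (Set.Icc p q))
    (h1 : (g p ≤ h p ∧ h q ≤ g q) ∨ (h p ≤ g p ∧ g q ≤ h q)) :
    ∃ t ∈ Set.Icc p q, g t = h t := by
  have hp : p ∈ Set.Icc p q := Set.left_mem_Icc.2 hpq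
  have hq : q ∈ Set.Icc p q := Set.right_mem_Icc.2 hpq
  rcases h1 with ⟨h1, h2⟩ | ⟨h1, h2⟩
  · obtain ⟨x, hx, hx2⟩ := isPreconnected_Icc.intermediate_value₂ hp hq hg hh h1 h2
    exact ⟨x, hx, hx2⟩
  · obtain ⟨x, hx, hx2⟩ := isPreconnected_Icc.intermediate_value₂ hp hq hh hg h1 h2
    exact ⟨x, hx, hx2.symm⟩

theorem t0_aux {p q : ℝ} {g h : ℝ → ℝ} (hg : ContinuousOn g (Set.Icc p q))
    (hh : ContinuousOn h (Set.Icc p q)) (hp : g p ≠ h p) (hq : g q ≠ h q)
    (once : ∀ t ∈ Set.Icc p q, ∀ t' ∈ Set.Icc p q, g t = h t → g t' = h t' → t = t') {t : ℝ}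
    (ht : t ∈ Set.Icc p q) (hgt : g t = h t) {δ : ℝ} (hδ : 0 < δ) (h1 : ∀ u ∈ Set.Ioo (t - δ) t, g u < h u)
    (h2 : ∀ u ∈ Set.Ioo t (t + δ), h u < g u) : g p < h p ∧ h q < g q := by
  have hpt : p < t := lt_of_le_of_ne ht.1 fun h => hp (by rw [h]; exact hgt)
  have htq : t < q := lt_of_le_of_ne ht.2 fun h => hq (by rw [← h]; exact hgt)
  constructor
  · have hs1 : max p (t - δ / 2) ∈ Set.Ico p t := ⟨le_max_left _ _, max_lt hpt (by linarith)⟩
    have hs2 : max p (t - δ / 2) ∈ Set.Ioo (t - δ) t := ⟨lt_of_lt_of_le (by linarith) (le_max_right _ _), hs1.2⟩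
    have hsub : Set.Ico p t ⊆ Set.Icc p q := fun u hu => ⟨hu.1, hu.2.le.trans htq.le⟩
    refine const_sign Set.ordConnected_Ico (hg.mono hsub) (hh.mono hsub) ?_ hs1 ⟨le_rfl, hpt⟩ (h1 _ hs2)
    intro u hu hgu
    have := once u (hsub hu) t ht hgu hgt
    exact absurd this (ne_of_lt hu.2)
  · have hs1 : min q (t + δ / 2) ∈ Set.Ioc t q := ⟨lt_min htq (by linarith), min_le_left _ _⟩
    have hs2 : min q (t + δ / 2) ∈ Set.Ioo t (t + δ) := ⟨hs1.1, lt_of_le_of_lt (min_le_right _ _) (by linarith)⟩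
    have hsub : Set.Ioc t q ⊆ Set.Icc p q := fun u hu => ⟨hpt.le.trans hu.1.le, hu.2⟩
    refine const_sign Set.ordConnected_Ioc (hh.mono hsub) (hg.mono hsub) ?_ hs1 ⟨htq, le_rfl⟩ (h2 _ hs2)
    intro u hu hgu
    have := once u (hsub hu) t ht hgu.symm hgt
    exact absurd this (ne_of_gt hu.1)

/-- (T0c, M) Two functions with at most one common point, a proper crossing, meet if and only if their order changes. PROOF. `←`: `exists_meet`. `→`: let `t` be the common point; `t ≠ p, q`, so `p < t < q`; there is no common point in `Set.Ico p t` and in `Set.Ioc t q` (`once`).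
`proper`: in the first case `g < h` at a point of `Set.Ioo (t - δ) t ∩ Set.Ico p t` (e.g. `max p (t - δ / 2)`), so `g p < h p` (`const_sign` on `Set.Ico p t`), and `h < g` at a point of `Set.Ioo t (t + δ) ∩ Set.Ioc t q`, so `h q < g q` (`const_sign` on `Set.Ioc t q`). The second case in the same way with `g`, `h` exchanged:
then `h p < g p` and `g q < h q`, both sides of the inner equivalence are false. -/
theorem meet_iff {p q : ℝ} (hpq : p ≤ q) {g h : ℝ → ℝ} (hg : ContinuousOn g (Set.Icc p q))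
    (hh : ContinuousOn h (Set.Icc p q)) (hp : g p ≠ h p) (hq : g q ≠ h q)
    (once : ∀ t ∈ Set.Icc p q, ∀ t' ∈ Set.Icc p q, g t = h t → g t' = h t' → t = t')
    (proper : ∀ t ∈ Set.Icc p q, g t = h t → ∃ δ > 0,
      ((∀ u ∈ Set.Ioo (t - δ) t, g u < h u) ∧ (∀ u ∈ Set.Ioo t (t + δ), h u < g u)) ∨
      ((∀ u ∈ Set.Ioo (t - δ) t, h u < g u) ∧ (∀ u ∈ Set.Ioo t (t + δ), g u < h u))) :
    (∃ t ∈ Set.Icc p q, g t = h t) ↔ (g p < h p ↔ h q < g q) := by
  constructor
  · rintro ⟨t, ht, hgt⟩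
    obtain ⟨δ, hδ, h⟩ := proper t ht hgt
    rcases h with ⟨h1, h2⟩ | ⟨h1, h2⟩
    · obtain ⟨h3, h4⟩ := t0_aux hg hh hp hq once ht hgt hδ h1 h2
      exact ⟨fun _ => h4, fun _ => h3⟩
    · obtain ⟨h3, h4⟩ := t0_aux hh hg hp.symm hq.symm (fun t ht t' ht' h h' => once t ht t' ht' h.symm h'.symm) ht hgt.symm hδ h1 h2
      exact ⟨fun h => absurd h (not_lt.2 h3.le), fun h => absurd h (not_lt.2 h4.le)⟩
  · intro hiff
    refine exists_meet hpq hg hh ?_
    rcases lt_or_ge (g p) (h p) with h1 | h1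
    · exact Or.inl ⟨h1.le, (hiff.1 h1).le⟩
    · right
      refine ⟨h1, ?_⟩
      by_contra hc
      push Not at hc
      exact absurd (hiff.2 hc) (not_lt.2 h1)

end H75M
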