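import Pool.Agent.Lib.H75M.Draw
import Pool.Agent.Lib.H75M.T0

/-! # H75M, chunk T1 (M): adjacent edges, the signs of a drawing satisfy SS -/

namespace H75M

variable {n : ℕ}

/-- (T1a, S/M) PROOF. On `Set.Ioc (D.x a) (D.x b)` the functions `D.f a b`, `D.f a c` are continuous and do not meet (`adjL`), so their order at `t` is the order at `D.x b` (`const_sign`), where `D.f a b (D.x b) = D.y b`; `sg_eq`. -/
theorem MDrawing.adj_left (D : MDrawing n) {a b c : Fin n} (hab : a < b) (hbc : b < c) {t : ℝ}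
    (ht : t ∈ Set.Ioc (D.x a) (D.x b)) :
    (D.f a c t < D.f a b t ↔ D.sg a b c = true) ∧ (D.f a b t < D.f a c t ↔ D.sg a b c = false) := by
  have xab : D.x a < D.x b := D.mono hab
  have xbc : D.x b < D.x c := D.mono hbc
  have hI : (Set.Ioc (D.x a) (D.x b)).OrdConnected := Set.ordConnected_Ioc
  have c1 : ContinuousOn (D.f a b) (Set.Ioc (D.x a) (D.x b)) :=
    (D.cont a b hab).mono Set.Ioc_subset_Icc_self
  have c2 : ContinuousOn (D.f a c) (Set.Ioc (D.x a) (D.x b)) :=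
    (D.cont a c (hab.trans hbc)).mono (fun s hs => ⟨hs.1.le, hs.2.trans xbc.le⟩)
  have hne : ∀ s ∈ Set.Ioc (D.x a) (D.x b), D.f a b s ≠ D.f a c s := D.adjL a b c hab hbc
  have hb : D.x b ∈ Set.Ioc (D.x a) (D.x b) := ⟨xab, le_refl _⟩
  have yb : D.f a b (D.x b) = D.y b := D.right a b hab
  rw [D.sg_eq, decide_eq_true_iff, decide_eq_false_iff_not, ← yb]
  have A : D.f a c (D.x b) < D.f a b (D.x b) → D.f a c t < D.f a b t := fun h =>
    const_sign hI c2 c1 (fun s hs => (hne s hs).symm) hb ht h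
  have B : D.f a c t < D.f a b t → D.f a c (D.x b) < D.f a b (D.x b) := fun h =>
    const_sign hI c2 c1 (fun s hs => (hne s hs).symm) ht hb h
  have C : D.f a b (D.x b) < D.f a c (D.x b) → D.f a b t < D.f a c t := fun h =>
    const_sign hI c1 c2 hne hb ht h
  have hnb := hne _ hb
  have hnt := hne _ ht
  refine ⟨⟨B, A⟩, ⟨fun h h' => lt_asymm h (A h'), fun h => C ?_⟩⟩
  exact lt_of_le_of_ne (not_lt.1 h) hnb

/-- (T1b, S/M) PROOF. The same on `Set.Ico (D.x b) (D.x c)` with `adjR`, `D.f b c (D.x b) = D.y b`. -/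
theorem MDrawing.adj_right (D : MDrawing n) {a b c : Fin n} (hab : a < b) (hbc : b < c) {t : ℝ}
    (ht : t ∈ Set.Ico (D.x b) (D.x c)) :
    (D.f a c t < D.f b c t ↔ D.sg a b c = true) ∧ (D.f b c t < D.f a c t ↔ D.sg a b c = false) := by
  have xab : D.x a < D.x b := D.mono hab
  have xbc : D.x b < D.x c := D.mono hbc
  have hI : (Set.Ico (D.x b) (D.x c)).OrdConnected := Set.ordConnected_Ico
  have c1 : ContinuousOn (D.f b c) (Set.Ico (D.x b) (D.x c)) :=
    (D.cont b c hbc).mono Set.Ico_subset_Icc_self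
  have c2 : ContinuousOn (D.f a c) (Set.Ico (D.x b) (D.x c)) :=
    (D.cont a c (hab.trans hbc)).mono (fun s hs => ⟨xab.le.trans hs.1, hs.2.le⟩)
  have hne : ∀ s ∈ Set.Ico (D.x b) (D.x c), D.f a c s ≠ D.f b c s := D.adjR a b c hab hbc
  have hb : D.x b ∈ Set.Ico (D.x b) (D.x c) := ⟨le_refl _, xbc⟩
  have yb : D.f b c (D.x b) = D.y b := D.left b c hbc
  rw [D.sg_eq, decide_eq_true_iff, decide_eq_false_iff_not, ← yb]
  have A : D.f a c (D.x b) < D.f b c (D.x b) → D.f a c t < D.f b c t := fun h =>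
    const_sign hI c2 c1 hne hb ht h
  have B : D.f a c t < D.f b c t → D.f a c (D.x b) < D.f b c (D.x b) := fun h =>
    const_sign hI c2 c1 hne ht hb h
  have C : D.f b c (D.x b) < D.f a c (D.x b) → D.f b c t < D.f a c t := fun h =>
    const_sign hI c1 c2 (fun s hs => (hne s hs).symm) hb ht h
  have hnb := hne _ hb
  refine ⟨⟨B, A⟩, ⟨fun h h' => lt_asymm h (A h'), fun h => C ?_⟩⟩
  exact lt_of_le_of_ne (not_lt.1 h) hnb.symm

/-- (T1c, M) PROOF. The elements of `Finset.range n` are the values of `Fin n`. `SS.l` for `a < b < c < d`: at `t = D.x b` the three numbers `D.f a b t`, `D.f a c t`, `D.f a d t`: `abc`: `ac < ab`; `abd`: `ad < ab`; `acd`: `ad < ac` (`adj_left` for `a c d`, `t ∈ Ioc (D.x a) (D.x c)`).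
If `abc = acd = true` then `ad < ac < ab`, so `abd = true`; if both are false then `ab < ac < ad`. `SS.r`: at `t = D.x c` the numbers `D.f a d t`, `D.f b d t`, `D.f c d t = D.y c`: `bcd`: `bd < cd`; `abd`: `ad < bd` (`adj_right` for `a b d`); `acd`: `ad < cd`. -/
theorem MDrawing.SS_sg (D : MDrawing n) : SS D.sg (Finset.range n) := by
  constructor
  · intro a ha b hb c hc d hd hab hbc hcd h
    rw [Finset.mem_range] at ha hb hc hd
    obtain ⟨a, rfl⟩ : ∃ a' : Fin n, (a' : ℕ) = a := ⟨⟨a, ha⟩, rfl⟩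
    obtain ⟨b, rfl⟩ : ∃ a' : Fin n, (a' : ℕ) = b := ⟨⟨b, hb⟩, rfl⟩
    obtain ⟨c, rfl⟩ : ∃ a' : Fin n, (a' : ℕ) = c := ⟨⟨c, hc⟩, rfl⟩
    obtain ⟨d, rfl⟩ : ∃ a' : Fin n, (a' : ℕ) = d := ⟨⟨d, hd⟩, rfl⟩
    have hab' : a < b := hab
    have hbc' : b < c := hbc
    have hcd' : c < d := hcd
    have xab : D.x a < D.x b := D.mono hab'
    have xbc : D.x b < D.x c := D.mono hbc'
    have h1 := D.adj_left hab' hbc' (t := D.x b) ⟨xab, le_refl _⟩
    have h2 := D.adj_left hab' (hbc'.trans hcd') (t := D.x b) ⟨xab, le_refl _⟩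
    have h3 := D.adj_left (hab'.trans hbc') hcd' (t := D.x b) ⟨xab, xbc.le⟩
    cases hs : D.sg a b c
    · rw [hs] at h
      have e1 := h1.2.2 hs
      have e2 := h3.2.2 h.symm
      exact h2.2.1 (e1.trans e2)
    · rw [hs] at h
      have e1 := h1.1.2 hs
      have e2 := h3.1.2 h.symm
      exact h2.1.1 (e2.trans e1)
  · intro a ha b hb c hc d hd hab hbc hcd h
    rw [Finset.mem_range] at ha hb hc hd
    obtain ⟨a, rfl⟩ : ∃ a' : Fin n, (a' : ℕ) = a := ⟨⟨a, ha⟩, rfl⟩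
    obtain ⟨b, rfl⟩ : ∃ a' : Fin n, (a' : ℕ) = b := ⟨⟨b, hb⟩, rfl⟩
    obtain ⟨c, rfl⟩ : ∃ a' : Fin n, (a' : ℕ) = c := ⟨⟨c, hc⟩, rfl⟩
    obtain ⟨d, rfl⟩ : ∃ a' : Fin n, (a' : ℕ) = d := ⟨⟨d, hd⟩, rfl⟩
    have hab' : a < b := hab
    have hbc' : b < c := hbc
    have hcd' : c < d := hcd
    have xbc : D.x b < D.x c := D.mono hbc'
    have xcd : D.x c < D.x d := D.mono hcd'
    have h1 := D.adj_right hbc' hcd' (t := D.x c) ⟨le_refl _, xcd⟩
    have h2 := D.adj_right hab' (hbc'.trans hcd') (t := D.x c) ⟨xbc.le, xcd⟩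
    have h3 := D.adj_right (hab'.trans hbc') hcd' (t := D.x c) ⟨le_refl _, xcd⟩
    cases hs : D.sg b c d
    · rw [hs] at h
      have e1 := h1.2.2 hs
      have e2 := h2.2.2 h.symm
      exact h3.2.1 (e1.trans e2)
    · rw [hs] at h
      have e1 := h1.1.2 hs
      have e2 := h2.1.2 h.symm
      exact h3.1.1 (e2.trans e1)

end H75M
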