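import Pool.Agent.Lib.H75M.T1

/-! # H75M, chunk T4 (M): the vertices on the sides of a triangle -/

namespace H75M

variable {n : ℕ}

theorem t4_core (A B Y : ℝ) (s : Bool) (h1 : B < A ↔ s = true) (h2 : A < B ↔ s = false) (hA : A ≠ Y) (hB : B ≠ Y) :
    (min A B < Y ∧ Y < max A B) ↔ (((decide (B < Y) == s) && (decide (A < Y) != s)) = true) := by
  cases s
  · have h : A < B := h2.2 rfl
    rw [min_eq_left h.le, max_eq_right h.le]
    rcases lt_or_gt_of_ne hA with ha | ha <;> rcases lt_or_gt_of_ne hB with hb | hb <;>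
      simp [ha, hb, not_lt.2 ha.le, not_lt.2 hb.le]
  · have h : B < A := h1.2 rfl
    rw [min_eq_right h.le, max_eq_left h.le]
    rcases lt_or_gt_of_ne hA with ha | ha <;> rcases lt_or_gt_of_ne hB with hb | hb <;>
      simp [ha, hb, not_lt.2 ha.le, not_lt.2 hb.le]

/-- (T4a, M) PROOF. If `w < i` or `w > k` then `D.x w` is not in the interval, and `inT` is false. Let `i < w < j`: `path` at `D.x w` is `D.f i j (D.x w)`, and `sg i w k`, `sg i w j` compare `D.y w` with `D.f i k (D.x w)`, `D.f i j (D.x w)` (never equal, `avoid`).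
If `sg i j k = true` then `D.f i k < D.f i j` at `D.x w` (`adj_left`), so the strict inequalities say `sg i w k = true` and `sg i w j = false`; if `sg i j k = false` then `D.f i j < D.f i k`: `sg i w j = true`, `sg i w k = false`. Let `j < w < k`: `path` is `D.f j k (D.x w)`, the same with `adj_right` for `i j k` and `sg j w k`. -/
theorem MDrawing.strict_iff (D : MDrawing n) {i j k w : Fin n} (hij : i < j) (hjk : j < k)
    (hwi : w ≠ i) (hwj : w ≠ j) (hwk : w ≠ k) :
    (D.x i < D.x w ∧ D.x w < D.x k ∧ min (D.path i j k (D.x w)) (D.f i k (D.x w)) < D.y w ∧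
      D.y w < max (D.path i j k (D.x w)) (D.f i k (D.x w))) ↔ inT D.sg i j k w = true := by
  unfold inT
  rw [D.mono.lt_iff_lt, D.mono.lt_iff_lt]
  rcases lt_or_gt_of_ne hwi with h | hi
  · constructor
    · intro h'
      exact absurd h'.1 (not_lt.2 h.le)
    · intro h'
      have e : decide ((i : ℕ) < w) = false := decide_eq_false (not_lt.2 (Fin.lt_def.1 h).le)
      rw [e] at h'
      simp at h'
  rcases lt_or_gt_of_ne hwk with hk | h
  swap
  · constructor
    · intro h'
      exact absurd h'.2.1 (not_lt.2 h.le)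
    · intro h'
      have e : decide ((w : ℕ) < k) = false := decide_eq_false (not_lt.2 (Fin.lt_def.1 h).le)
      rw [e] at h'
      simp at h'
  have ei : decide ((i : ℕ) < w) = true := decide_eq_true (Fin.lt_def.1 hi)
  have ek : decide ((w : ℕ) < k) = true := decide_eq_true (Fin.lt_def.1 hk)
  rw [ei, ek, Bool.true_and, Bool.true_and, D.sg_eq i w k]
  rcases lt_or_gt_of_ne hwj with hj | hj
  · rw [if_pos (Fin.lt_def.1 hj), D.sg_eq i w j]
    have hp : D.path i j k (D.x w) = D.f i j (D.x w) := by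
      unfold MDrawing.path
      rw [if_pos (D.mono hj).le]
    rw [hp]
    have ha := D.adj_left hij hjk (t := D.x w) ⟨D.mono hi, (D.mono hj).le⟩
    rw [← t4_core _ _ _ _ ha.1 ha.2 (D.avoid i w j hi hj) (D.avoid i w k hi hk)]
    exact ⟨fun h => h.2.2, fun h => ⟨hi, hk, h⟩⟩
  · have hj' : decide ((j : ℕ) < w) = true := decide_eq_true (Fin.lt_def.1 hj)
    rw [if_neg (not_lt.2 (Fin.lt_def.1 hj).le), D.sg_eq j w k, hj', Bool.true_and]
    have hp : D.path i j k (D.x w) = D.f j k (D.x w) := by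
      unfold MDrawing.path
      rw [if_neg (not_le.2 (D.mono hj))]
    rw [hp]
    have ha := D.adj_right hij hjk (t := D.x w) ⟨(D.mono hj).le, D.mono hk⟩
    rw [← t4_core _ _ _ _ ha.1 ha.2 (D.avoid j w k hj hk) (D.avoid i w k hi hk)]
    exact ⟨fun h => h.2.2, fun h => ⟨hi, hk, h⟩⟩

/-- (T4b, S/M) PROOF. `strict_iff`: because of `avoid` and `w ≠ i, k` the inequalities in `inner` are strict (`D.y w` is different from `D.path i j k (D.x w)` and from `D.f i k (D.x w)` if `i < w < k`). -/
theorem MDrawing.mem_inner (D : MDrawing n) {i j k w : Fin n} (hij : i < j) (hjk : j < k)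
    (hwi : w ≠ i) (hwj : w ≠ j) (hwk : w ≠ k) (h : (D.x w, D.y w) ∈ D.inner i j k) :
    inT D.sg i j k w = true := by
  obtain ⟨h1, h2, h3, h4⟩ := h
  simp only at h1 h2 h3 h4
  have hi : i < w := lt_of_le_of_ne (D.mono.le_iff_le.1 h1) hwi.symm
  have hk : w < k := lt_of_le_of_ne (D.mono.le_iff_le.1 h2) hwk
  have hB := D.avoid i w k hi hk
  have hA : D.path i j k (D.x w) ≠ D.y w := by
    unfold MDrawing.path
    rcases lt_or_gt_of_ne hwj with hj | hj
    · rw [if_pos (D.mono hj).le]
      exact D.avoid i w j hi hj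
    · rw [if_neg (not_le.2 (D.mono hj))]
      exact D.avoid j w k hj hk
  refine (D.strict_iff hij hjk hwi hwj hwk).1 ⟨D.mono hi, D.mono hk, lt_of_le_of_ne h3 ?_, lt_of_le_of_ne h4 ?_⟩
  · rcases min_choice (D.path i j k (D.x w)) (D.f i k (D.x w)) with e | e <;> rw [e]
    · exact hA
    · exact hB
  · rcases max_choice (D.path i j k (D.x w)) (D.f i k (D.x w)) with e | e <;> rw [e]
    · exact hA.symm
    · exact hB.symm

/-- (T4c, S) PROOF. `strict_iff`. -/
theorem MDrawing.mem_outer (D : MDrawing n) {i j k w : Fin n} (hij : i < j) (hjk : j < k)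
    (hwi : w ≠ i) (hwj : w ≠ j) (hwk : w ≠ k) (h : (D.x w, D.y w) ∈ D.outer i j k) :
    inT D.sg i j k w = false := by
  rw [Bool.eq_false_iff]
  intro h'
  exact h ((D.strict_iff hij hjk hwi hwj hwk).2 h')

end H75M
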