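import Pool.Agent.Lib.H75M.Draw

/-! # H75M, chunk T5A (S): the path is continuous -/

namespace H75M

variable {n : ℕ}

/-- (T5a, S) PROOF. `ContinuousOn.if_Iic..` / `ContinuousOn.union_of_isClosed` for `Set.Icc (D.x i) (D.x j)` and `Set.Icc (D.x j) (D.x k)`; at `D.x j` both functions have the value `D.y j`. -/
theorem MDrawing.path_cont (D : MDrawing n) {i j k : Fin n} (hij : i < j) (hjk : j < k) :
    ContinuousOn (D.path i j k) (Set.Icc (D.x i) (D.x k)) := by
  have h1 : ContinuousOn (D.path i j k) (Set.Icc (D.x i) (D.x j)) := by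
    refine (D.cont i j hij).congr fun t ht => ?_
    unfold MDrawing.path
    rw [if_pos ht.2]
  have h2 : ContinuousOn (D.path i j k) (Set.Icc (D.x j) (D.x k)) := by
    refine (D.cont j k hjk).congr fun t ht => ?_
    unfold MDrawing.path
    split_ifs with h
    · have e : t = D.x j := le_antisymm h ht.1
      rw [e, D.right i j hij, D.left j k hjk]
    · rfl
  have h3 := h1.union_of_isClosed h2 isClosed_Icc isClosed_Icc
  rwa [Set.Icc_union_Icc_eq_Icc (D.mono hij).le (D.mono hjk).le] at h3

end H75M
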