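import Pool.Agent.Lib.H75M.T2B

/-! # H75M, chunk T5B (M): two points on a triangle -/

namespace H75M

variable {n : ℕ}

theorem MDrawing.t5b_edge (D : MDrawing n) {u v a b : Fin n} (huv : u < v) (hab : a < b)
    (hne : ¬ (u = a ∧ v = b)) {t : ℝ}
    (ht : t ∈ Set.Icc (D.x u) (D.x v)) (ht' : t ∈ Set.Icc (D.x a) (D.x b))
    (h : D.f u v t = D.f a b t) :
    cx D.sg u v a b = true ∨ ∃ p : Fin n, (p = u ∨ p = v) ∧ (p = a ∨ p = b) ∧ t = D.x p := by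
  by_cases hc : u = a ∨ u = b ∨ v = a ∨ v = b
  · exact Or.inr (D.meet_common huv hab hne hc ht ht' h)
  · rw [not_or, not_or, not_or] at hc
    exact Or.inl (D.meet_cx huv hab hc.1 hc.2.1 hc.2.2.1 hc.2.2.2 ht ht' h)

theorem MDrawing.t5b_point (D : MDrawing n) {i j k u v : Fin n} (hij : i < j) (hjk : j < k)
    (huv : u < v) (hnT : ¬ ((u = i ∨ u = j ∨ u = k) ∧ (v = i ∨ v = j ∨ v = k))) {t : ℝ}
    (ht : t ∈ Set.Icc (D.x u) (D.x v)) (ht' : t ∈ Set.Icc (D.x i) (D.x k))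
    (e : D.f u v t = D.path i j k t ∨ D.f u v t = D.f i k t) :
    cT D.sg i j k u v = true ∨
      ∃ p : Fin n, (p = u ∨ p = v) ∧ (p = i ∨ p = j ∨ p = k) ∧ t = D.x p := by
  have key : (∃ a b : Fin n, a < b ∧ t ∈ Set.Icc (D.x a) (D.x b) ∧ D.f u v t = D.f a b t ∧
      ((a = i ∧ b = j) ∨ (a = j ∧ b = k) ∨ (a = i ∧ b = k))) := by
    rcases e with e | e
    · unfold MDrawing.path at e
      by_cases h1 : t ≤ D.x j
      · rw [if_pos h1] at e
        exact ⟨i, j, hij, ⟨ht'.1, h1⟩, e, Or.inl ⟨rfl, rfl⟩⟩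
      · rw [if_neg h1] at e
        exact ⟨j, k, hjk, ⟨(not_le.1 h1).le, ht'.2⟩, e, Or.inr (Or.inl ⟨rfl, rfl⟩)⟩
    · exact ⟨i, k, hij.trans hjk, ht', e, Or.inr (Or.inr ⟨rfl, rfl⟩)⟩
  obtain ⟨a, b, hab, hta, hf, hcase⟩ := key
  have hne : ¬ (u = a ∧ v = b) := by
    rintro ⟨rfl, rfl⟩
    apply hnT
    rcases hcase with ⟨h1, h2⟩ | ⟨h1, h2⟩ | ⟨h1, h2⟩
    · exact ⟨Or.inl h1, Or.inr (Or.inl h2)⟩
    · exact ⟨Or.inr (Or.inl h1), Or.inr (Or.inr h2)⟩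
    · exact ⟨Or.inl h1, Or.inr (Or.inr h2)⟩
  rcases D.t5b_edge huv hab hne ht hta hf with h | ⟨p, hp1, hp2, hp3⟩
  · left
    unfold cT
    rcases hcase with ⟨h1, h2⟩ | ⟨h1, h2⟩ | ⟨h1, h2⟩
    · rw [h1, h2] at h
      rw [h]
      rfl
    · rw [h1, h2] at h
      rw [h, Bool.or_true]
      rfl
    · rw [h1, h2] at h
      rw [h, Bool.or_true]
  · right
    refine ⟨p, hp1, ?_, hp3⟩
    rcases hcase with ⟨h1, h2⟩ | ⟨h1, h2⟩ | ⟨h1, h2⟩ <;> rcases hp2 with h3 | h3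
    · exact Or.inl (h3.trans h1)
    · exact Or.inr (Or.inl (h3.trans h2))
    · exact Or.inr (Or.inl (h3.trans h1))
    · exact Or.inr (Or.inr (h3.trans h2))
    · exact Or.inl (h3.trans h1)
    · exact Or.inr (Or.inr (h3.trans h2))

/-- (T5b, M) The edge `uv` is not an edge of the triangle and has two points on the triangle: it crosses an edge of the triangle. PROOF. At `t₁` the edge `uv` meets the edge `ij` (if `t₁ ≤ D.x j`), `jk` (if `D.x j ≤ t₁`) or `ik`. If this edge has no common end with `uv`: `meet_cx`, a clause of `cT`.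
Otherwise `t₁ = D.x p` with `p ∈ {u, v}` and `p ∈ {i, j, k}` (`meet_common`; the two edges are different by `hnT`). The same for `t₂`: `t₂ = D.x q`; `p ≠ q`, so `{p, q} = {u, v}` and `u, v ∈ {i, j, k}`, contradiction to `hnT`. -/
theorem MDrawing.two_points (D : MDrawing n) {i j k u v : Fin n} (hij : i < j) (hjk : j < k)
    (huv : u < v) (hnT : ¬ ((u = i ∨ u = j ∨ u = k) ∧ (v = i ∨ v = j ∨ v = k))) {t₁ t₂ : ℝ}
    (h12 : t₁ < t₂) (h1 : t₁ ∈ Set.Icc (D.x u) (D.x v)) (h1' : t₁ ∈ Set.Icc (D.x i) (D.x k))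
    (h2 : t₂ ∈ Set.Icc (D.x u) (D.x v)) (h2' : t₂ ∈ Set.Icc (D.x i) (D.x k))
    (e1 : D.f u v t₁ = D.path i j k t₁ ∨ D.f u v t₁ = D.f i k t₁)
    (e2 : D.f u v t₂ = D.path i j k t₂ ∨ D.f u v t₂ = D.f i k t₂) :
    cT D.sg i j k u v = true := by
  rcases D.t5b_point hij hjk huv hnT h1 h1' e1 with h | ⟨p, hp1, hp2, hp3⟩
  · exact h
  rcases D.t5b_point hij hjk huv hnT h2 h2' e2 with h | ⟨q, hq1, hq2, hq3⟩
  · exact h
  exfalso
  have hpq : p < q := by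
    rw [hp3, hq3] at h12
    exact D.mono.lt_iff_lt.1 h12
  apply hnT
  rcases hp1 with rfl | rfl
  · rcases hq1 with rfl | rfl
    · exact absurd hpq (lt_irrefl _)
    · exact ⟨hp2, hq2⟩
  · rcases hq1 with rfl | rfl
    · exact absurd (hpq.trans huv) (lt_irrefl _)
    · exact absurd hpq (lt_irrefl _)

end H75M
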