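import Pool.Agent.Lib.H75M.T0
import Pool.Agent.Lib.H75M.T5A
import Pool.Agent.Lib.H75M.T5B

/-! # H75M, chunk T6 (M): leaving the inner side -/

namespace H75M

variable {n : ℕ}

theorem MDrawing.t6_tri (D : MDrawing n) {i j k u v : Fin n} (hij : i < j) (hjk : j < k)
    (huv : u < v) (hT : (u = i ∨ u = j ∨ u = k) ∧ (v = i ∨ v = j ∨ v = k)) {t : ℝ}
    (ht : t ∈ Set.Icc (D.x u) (D.x v)) :
    D.f u v t = D.path i j k t ∨ D.f u v t = D.f i k t := by
  have hik := hij.trans hjk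
  have key : (u = i ∧ v = j) ∨ (u = j ∧ v = k) ∨ (u = i ∧ v = k) := by
    rcases hT.1 with h1 | h1 | h1 <;> rcases hT.2 with h2 | h2 | h2
    · exact absurd (h1.trans h2.symm) huv.ne
    · exact Or.inl ⟨h1, h2⟩
    · exact Or.inr (Or.inr ⟨h1, h2⟩)
    · rw [h1, h2] at huv
      exact absurd (huv.trans hij) (lt_irrefl _)
    · exact absurd (h1.trans h2.symm) huv.ne
    · exact Or.inr (Or.inl ⟨h1, h2⟩)
    · rw [h1, h2] at huv
      exact absurd (huv.trans hik) (lt_irrefl _)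
    · rw [h1, h2] at huv
      exact absurd (huv.trans hjk) (lt_irrefl _)
    · exact absurd (h1.trans h2.symm) huv.ne
  rcases key with ⟨h1, h2⟩ | ⟨h1, h2⟩ | ⟨h1, h2⟩
  · left
    rw [h1, h2] at ht ⊢
    unfold MDrawing.path
    rw [if_pos ht.2]
  · left
    rw [h1, h2] at ht ⊢
    unfold MDrawing.path
    by_cases h3 : t ≤ D.x j
    · have h4 : t = D.x j := le_antisymm h3 ht.1
      rw [if_pos h3, h4, D.left j k hjk, D.right i j hij]
    · rw [if_neg h3]
  · right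
    rw [h1, h2]

/-- (T6, M) PROOF. `u, v ∈ {i, j, k}` is impossible: then `uv` is one of the edges `ij`, `jk`, `ik` and the arc is in the boundary of `inner` (at `t ≤ D.x j` resp. `t ≥ D.x j`, at `t = D.x j` both functions are `D.y j`). Let `t₀ ∈ [D.x u, D.x v]` with `(t₀, D.f u v t₀)` not in `inner`; `D.x i ≤ D.x u`, `D.x v ≤ D.x k`,
so `D.f u v t₀ > max ..` or `D.f u v t₀ < min ..` at `t₀`. The maximum (minimum) of `D.path i j k` and `D.f i k` is continuous on `[D.x i, D.x k]` (`path_cont`), and `D.f u v = D.y u ≤ max ..` at `D.x u`, `D.y v ≤ max ..` at `D.x v`; `exists_meet` on `[D.x u, t₀]` and on `[t₀, D.x v]` gives `t₁ ≤ t₀ ≤ t₂`, `t₁ ≠ t₀ ≠ t₂`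
with `D.f u v = max ..` there; the maximum is one of the two functions (`max_choice`). `two_points`. -/
theorem MDrawing.leave_inner (D : MDrawing n) {i j k u v : Fin n} (hij : i < j) (hjk : j < k)
    (huv : u < v) (hu : (D.x u, D.y u) ∈ D.inner i j k) (hv : (D.x v, D.y v) ∈ D.inner i j k)
    (h : ¬ D.arc u v ⊆ D.inner i j k) : cT D.sg i j k u v = true := by
  obtain ⟨p, hp, hpn⟩ := Set.not_subset.1 h
  obtain ⟨hp1, hp2, hp3⟩ := hp
  obtain ⟨hu1, hu2, hu3, hu4⟩ := hu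
  obtain ⟨hv1, hv2, hv3, hv4⟩ := hv
  simp only at hu1 hu2 hu3 hu4 hv1 hv2 hv3 hv4
  have hx : ∀ t ∈ Set.Icc (D.x u) (D.x v), t ∈ Set.Icc (D.x i) (D.x k) := fun t ht =>
    ⟨hu1.trans ht.1, ht.2.trans hv2⟩
  have ht0 : p.1 ∈ Set.Icc (D.x u) (D.x v) := ⟨hp1, hp2⟩
  have hcf : ContinuousOn (D.f u v) (Set.Icc (D.x u) (D.x v)) := D.cont u v huv
  have hcp : ContinuousOn (D.path i j k) (Set.Icc (D.x i) (D.x k)) := D.path_cont hij hjk
  have hci : ContinuousOn (D.f i k) (Set.Icc (D.x i) (D.x k)) := D.cont i k (hij.trans hjk)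
  have hnT : ¬ ((u = i ∨ u = j ∨ u = k) ∧ (v = i ∨ v = j ∨ v = k)) := by
    intro hT
    apply hpn
    refine ⟨(hx _ ht0).1, (hx _ ht0).2, ?_, ?_⟩
    · rw [hp3]
      rcases D.t6_tri hij hjk huv hT ht0 with e | e
      · rw [e]
        exact min_le_left _ _
      · rw [e]
        exact min_le_right _ _
    · rw [hp3]
      rcases D.t6_tri hij hjk huv hT ht0 with e | e
      · rw [e]
        exact le_max_left _ _
      · rw [e]
        exact le_max_right _ _
  have hfu : D.f u v (D.x u) = D.y u := D.left u v huv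
  have hfv : D.f u v (D.x v) = D.y v := D.right u v huv
  have hs1 : Set.Icc (D.x u) p.1 ⊆ Set.Icc (D.x u) (D.x v) := Set.Icc_subset_Icc le_rfl hp2
  have hs2 : Set.Icc p.1 (D.x v) ⊆ Set.Icc (D.x u) (D.x v) := Set.Icc_subset_Icc hp1 le_rfl
  have hs3 : Set.Icc (D.x u) (D.x v) ⊆ Set.Icc (D.x i) (D.x k) := Set.Icc_subset_Icc hu1 hv2
  -- the common end of both cases
  have key : ∀ M : ℝ → ℝ, (∀ t, M t = D.path i j k t ∨ M t = D.f i k t) →
      ContinuousOn M (Set.Icc (D.x i) (D.x k)) → D.f u v p.1 ≠ M p.1 →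
      ((D.y u ≤ M (D.x u) ∧ M p.1 ≤ D.f u v p.1 ∧ D.y v ≤ M (D.x v)) ∨
        (M (D.x u) ≤ D.y u ∧ D.f u v p.1 ≤ M p.1 ∧ M (D.x v) ≤ D.y v)) →
      cT D.sg i j k u v = true := by
    intro M hM hMc hne hh
    obtain ⟨t1, ht1, e1⟩ := exists_meet hp1 (hcf.mono hs1) (hMc.mono (hs1.trans hs3)) (by
      rcases hh with hh | hh
      · exact Or.inl ⟨by rw [hfu]; exact hh.1, hh.2.1⟩
      · exact Or.inr ⟨by rw [hfu]; exact hh.1, hh.2.1⟩)
    obtain ⟨t2, ht2, e2⟩ := exists_meet hp2 (hcf.mono hs2) (hMc.mono (hs2.trans hs3)) (by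
      rcases hh with hh | hh
      · exact Or.inr ⟨hh.2.1, by rw [hfv]; exact hh.2.2⟩
      · exact Or.inl ⟨hh.2.1, by rw [hfv]; exact hh.2.2⟩)
    have hn1 : t1 ≠ p.1 := by
      intro hc
      rw [hc] at e1
      exact hne e1
    have hn2 : t2 ≠ p.1 := by
      intro hc
      rw [hc] at e2
      exact hne e2
    have h12 : t1 < t2 := (lt_of_le_of_ne ht1.2 hn1).trans (lt_of_le_of_ne ht2.1 hn2.symm)
    refine D.two_points hij hjk huv hnT h12 (hs1 ht1) (hs3 (hs1 ht1)) (hs2 ht2) (hs3 (hs2 ht2)) ?_ ?_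
    · rw [e1]
      exact hM t1
    · rw [e2]
      exact hM t2
  by_cases hA : D.f u v p.1 ≤ max (D.path i j k p.1) (D.f i k p.1)
  · have hB : D.f u v p.1 < min (D.path i j k p.1) (D.f i k p.1) := by
      by_contra hB
      apply hpn
      refine ⟨(hx _ ht0).1, (hx _ ht0).2, ?_, ?_⟩
      · rw [hp3]
        exact not_lt.1 hB
      · rw [hp3]
        exact hA
    refine key (fun t => min (D.path i j k t) (D.f i k t)) (fun t => min_choice _ _) (hcp.inf hci) hB.ne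
      (Or.inr ⟨hu3, hB.le, hv3⟩)
  · have hA' := not_le.1 hA
    exact key (fun t => max (D.path i j k t) (D.f i k t)) (fun t => max_choice _ _) (hcp.sup hci) hA'.ne'
      (Or.inl ⟨hu4, hA'.le, hv4⟩)

end H75M
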