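import Pool.Agent.Lib.H75M.T0
import Pool.Agent.Lib.H75M.T5A
import Pool.Agent.Lib.H75M.T5B

/-! # H75M, chunk T7 (M): leaving the outer side -/

namespace H75M

variable {n : ℕ}

theorem MDrawing.t7_tri (D : MDrawing n) {i j k u v : Fin n} (hij : i < j) (hjk : j < k)
    (huv : u < v) (hT : (u = i ∨ u = j ∨ u = k) ∧ (v = i ∨ v = j ∨ v = k)) {t : ℝ}
    (ht : t ∈ Set.Icc (D.x u) (D.x v)) :
    D.f u v t = D.path i j k t ∨ D.f u v t = D.f i k t := by
  have hik := hij.trans hjk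
  have key : (u = i ∧ v = j) ∨ (u = j ∧ v = k) ∨ (u = i ∧ v = k) := by
    rcases hT.1 with h1 | h1 | h1 <;> rcases hT.2 with h2 | h2 | h2
    · exact absurd (h1.trans h2.symm) huv.ne
    · exact Or.inl ⟨h1, h2⟩
    · exact Or.inr (Or.inr ⟨h1, h2⟩)
    · rw [h1, h2] at huv
      exact absurd (huv.trans hij) (lt_irrefl _)
    · exact absurd (h1.trans h2.symm) huv.ne
    · exact Or.inr (Or.inl ⟨h1, h2⟩)
    · rw [h1, h2] at huv
      exact absurd (huv.trans hik) (lt_irrefl _)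
    · rw [h1, h2] at huv
      exact absurd (huv.trans hjk) (lt_irrefl _)
    · exact absurd (h1.trans h2.symm) huv.ne
  rcases key with ⟨h1, h2⟩ | ⟨h1, h2⟩ | ⟨h1, h2⟩
  · left
    rw [h1, h2] at ht ⊢
    unfold MDrawing.path
    rw [if_pos ht.2]
  · left
    rw [h1, h2] at ht ⊢
    unfold MDrawing.path
    by_cases h3 : t ≤ D.x j
    · have h4 : t = D.x j := le_antisymm h3 ht.1
      rw [if_pos h3, h4, D.left j k hjk, D.right i j hij]
    · rw [if_neg h3]
  · right
    rw [h1, h2]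

/-- A function between two others stays between them until it meets one of them. -/
theorem t7_hit {I : Set ℝ} (hI : I.OrdConnected) {g L U : ℝ → ℝ} (hg : ContinuousOn g I)
    (hL : ContinuousOn L I) (hU : ContinuousOn U I) {s t : ℝ} (hs : s ∈ I) (ht : t ∈ I)
    (h1 : L s < g s) (h2 : g s < U s) (hn : ¬ (L t < g t ∧ g t < U t)) :
    ∃ r ∈ I, g r = L r ∨ g r = U r := by
  by_contra hc
  have hc1 : ∀ r ∈ I, L r ≠ g r := fun r hr h => hc ⟨r, hr, Or.inl h.symm⟩
  have hc2 : ∀ r ∈ I, g r ≠ U r := fun r hr h => hc ⟨r, hr, Or.inr h⟩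
  exact hn ⟨const_sign hI hL hg hc1 hs ht h1, const_sign hI hg hU hc2 hs ht h2⟩

/-- (T7, M) PROOF. Let `t₀ ∈ [D.x u, D.x v]`, `D.x i < t₀ < D.x k`, `min .. < D.f u v t₀ < max ..` at `t₀` (`L`, `U` for the minimum and maximum of `D.path i j k`, `D.f i k`, continuous on `[D.x i, D.x k]`, `path_cont`). `u, v ∈ {i, j, k}` is impossible: then `D.f u v t₀` is `D.path i j k t₀` or `D.f i k t₀`, i.e. `L` or `U`.
There is `t₂ ∈ (t₀, q]`, `q = min (D.x v) (D.x k)`, with `D.f u v t₂ = L t₂` or `= U t₂`: otherwise `L < D.f u v < U` on `[t₀, q]` (`const_sign` twice); if `q = D.x k` then `L = U = D.y k` there, contradiction; if `q = D.x v < D.x k` then `(D.x v, D.y v)` is strictly inside, contradiction to `hv`.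
In the same way `t₁ ∈ [max (D.x u) (D.x i), t₀)`. The minimum and the maximum are one of the two functions (`min_choice`, `max_choice`). `two_points`. -/
theorem MDrawing.leave_outer (D : MDrawing n) {i j k u v : Fin n} (hij : i < j) (hjk : j < k)
    (huv : u < v) (hu : (D.x u, D.y u) ∈ D.outer i j k) (hv : (D.x v, D.y v) ∈ D.outer i j k)
    (h : ¬ D.arc u v ⊆ D.outer i j k) : cT D.sg i j k u v = true := by
  obtain ⟨p, hp, hpn⟩ := Set.not_subset.1 h
  obtain ⟨hp1, hp2, hp3⟩ := hp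
  have hpn' : D.x i < p.1 ∧ p.1 < D.x k ∧ min (D.path i j k p.1) (D.f i k p.1) < p.2 ∧
    p.2 < max (D.path i j k p.1) (D.f i k p.1) := not_not.1 hpn
  rw [hp3] at hpn'
  obtain ⟨hi0, hk0, hL0, hU0⟩ := hpn'
  have hu' : ¬ (D.x i < D.x u ∧ D.x u < D.x k ∧ min (D.path i j k (D.x u)) (D.f i k (D.x u)) < D.y u ∧
    D.y u < max (D.path i j k (D.x u)) (D.f i k (D.x u))) := hu
  have hv' : ¬ (D.x i < D.x v ∧ D.x v < D.x k ∧ min (D.path i j k (D.x v)) (D.f i k (D.x v)) < D.y v ∧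
    D.y v < max (D.path i j k (D.x v)) (D.f i k (D.x v))) := hv
  have hik := hij.trans hjk
  have ht0 : p.1 ∈ Set.Icc (D.x u) (D.x v) := ⟨hp1, hp2⟩
  have hfu : D.f u v (D.x u) = D.y u := D.left u v huv
  have hfv : D.f u v (D.x v) = D.y v := D.right u v huv
  have hcf : ContinuousOn (D.f u v) (Set.Icc (D.x u) (D.x v)) := D.cont u v huv
  have hcp : ContinuousOn (D.path i j k) (Set.Icc (D.x i) (D.x k)) := D.path_cont hij hjk
  have hci : ContinuousOn (D.f i k) (Set.Icc (D.x i) (D.x k)) := D.cont i k hik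
  obtain ⟨L, hL⟩ : ∃ L : ℝ → ℝ, L = fun t => min (D.path i j k t) (D.f i k t) := ⟨_, rfl⟩
  obtain ⟨U, hU⟩ : ∃ U : ℝ → ℝ, U = fun t => max (D.path i j k t) (D.f i k t) := ⟨_, rfl⟩
  have hLe : ∀ t, min (D.path i j k t) (D.f i k t) = L t := fun t => by rw [hL]
  have hUe : ∀ t, max (D.path i j k t) (D.f i k t) = U t := fun t => by rw [hU]
  have hLc : ContinuousOn L (Set.Icc (D.x i) (D.x k)) := by
    rw [hL]
    exact hcp.inf hci
  have hUc : ContinuousOn U (Set.Icc (D.x i) (D.x k)) := by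
    rw [hU]
    exact hcp.sup hci
  have hLch : ∀ t, L t = D.path i j k t ∨ L t = D.f i k t := fun t => by
    rw [hL]
    exact min_choice _ _
  have hUch : ∀ t, U t = D.path i j k t ∨ U t = D.f i k t := fun t => by
    rw [hU]
    exact max_choice _ _
  rw [hLe, hUe] at hu' hv'
  rw [hLe] at hL0
  rw [hUe] at hU0
  have hnT : ¬ ((u = i ∨ u = j ∨ u = k) ∧ (v = i ∨ v = j ∨ v = k)) := by
    intro hT
    rw [← hLe] at hL0
    rw [← hUe] at hU0
    rcases D.t7_tri hij hjk huv hT ht0 with e | e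
    · rw [e] at hL0 hU0
      have h1 := (min_lt_iff.1 hL0).resolve_left (lt_irrefl _)
      have h2 := (lt_max_iff.1 hU0).resolve_left (lt_irrefl _)
      exact absurd (h1.trans h2) (lt_irrefl _)
    · rw [e] at hL0 hU0
      have h1 := (min_lt_iff.1 hL0).resolve_right (lt_irrefl _)
      have h2 := (lt_max_iff.1 hU0).resolve_right (lt_irrefl _)
      exact absurd (h1.trans h2) (lt_irrefl _)
  have hxij : D.x i < D.x j := D.mono hij
  have hxjk : D.x j < D.x k := D.mono hjk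
  have hendk : L (D.x k) = U (D.x k) := by
    rw [← hLe, ← hUe]
    have h1 : D.path i j k (D.x k) = D.y k := by
      unfold MDrawing.path
      rw [if_neg (not_le.2 hxjk), D.right j k hjk]
    rw [h1, D.right i k hik, min_self, max_self]
  have hendi : L (D.x i) = U (D.x i) := by
    rw [← hLe, ← hUe]
    have h1 : D.path i j k (D.x i) = D.y i := by
      unfold MDrawing.path
      rw [if_pos hxij.le, D.left i j hij]
    rw [h1, D.left i k hik, min_self, max_self]
  -- the right point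
  have hr : ∃ r ∈ Set.Icc p.1 (min (D.x v) (D.x k)), D.f u v r = L r ∨ D.f u v r = U r := by
    have hs1 : Set.Icc p.1 (min (D.x v) (D.x k)) ⊆ Set.Icc (D.x u) (D.x v) :=
      Set.Icc_subset_Icc hp1 (min_le_left _ _)
    have hs2 : Set.Icc p.1 (min (D.x v) (D.x k)) ⊆ Set.Icc (D.x i) (D.x k) :=
      Set.Icc_subset_Icc hi0.le (min_le_right _ _)
    have hle : p.1 ≤ min (D.x v) (D.x k) := le_min hp2 hk0.le
    refine t7_hit Set.ordConnected_Icc (hcf.mono hs1) (hLc.mono hs2) (hUc.mono hs2)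
      (Set.left_mem_Icc.2 hle) (Set.right_mem_Icc.2 hle) hL0 hU0 ?_
    rcases le_or_gt (D.x k) (D.x v) with h1 | h1
    · rw [min_eq_right h1]
      rintro ⟨h2, h3⟩
      rw [hendk] at h2
      exact absurd (h2.trans h3) (lt_irrefl _)
    · rw [min_eq_left h1.le, hfv]
      rintro ⟨h2, h3⟩
      exact hv' ⟨hi0.trans_le hp2, h1, h2, h3⟩
  -- the left point
  have hl : ∃ r ∈ Set.Icc (max (D.x u) (D.x i)) p.1, D.f u v r = L r ∨ D.f u v r = U r := by
    have hs1 : Set.Icc (max (D.x u) (D.x i)) p.1 ⊆ Set.Icc (D.x u) (D.x v) :=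
      Set.Icc_subset_Icc (le_max_left _ _) hp2
    have hs2 : Set.Icc (max (D.x u) (D.x i)) p.1 ⊆ Set.Icc (D.x i) (D.x k) :=
      Set.Icc_subset_Icc (le_max_right _ _) hk0.le
    have hle : max (D.x u) (D.x i) ≤ p.1 := max_le hp1 hi0.le
    refine t7_hit Set.ordConnected_Icc (hcf.mono hs1) (hLc.mono hs2) (hUc.mono hs2)
      (Set.right_mem_Icc.2 hle) (Set.left_mem_Icc.2 hle) hL0 hU0 ?_
    rcases le_or_gt (D.x u) (D.x i) with h1 | h1
    · rw [max_eq_right h1]
      rintro ⟨h2, h3⟩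
      rw [hendi] at h2
      exact absurd (h2.trans h3) (lt_irrefl _)
    · rw [max_eq_left h1.le, hfu]
      rintro ⟨h2, h3⟩
      exact hu' ⟨h1, hp1.trans_lt hk0, h2, h3⟩
  obtain ⟨t2, ht2, e2⟩ := hr
  obtain ⟨t1, ht1, e1⟩ := hl
  have hn : ∀ r, D.f u v r = L r ∨ D.f u v r = U r → r ≠ p.1 := by
    intro r hr hc
    rw [hc] at hr
    rcases hr with hr | hr
    · exact absurd hr hL0.ne'
    · exact absurd hr hU0.ne
  have h12 : t1 < t2 := (lt_of_le_of_ne ht1.2 (hn t1 e1)).trans (lt_of_le_of_ne ht2.1 (hn t2 e2).symm)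
  have hcase : ∀ r, D.f u v r = L r ∨ D.f u v r = U r → D.f u v r = D.path i j k r ∨ D.f u v r = D.f i k r := by
    intro r hr
    rcases hr with hr | hr
    · rw [hr]
      exact hLch r
    · rw [hr]
      exact hUch r
  exact D.two_points hij hjk huv hnT h12
    ⟨(le_max_left _ _).trans ht1.1, ht1.2.trans hp2⟩ ⟨(le_max_right _ _).trans ht1.1, ht1.2.trans hk0.le⟩
    ⟨hp1.trans ht2.1, ht2.2.trans (min_le_left _ _)⟩ ⟨hi0.le.trans ht2.1, ht2.2.trans (min_le_right _ _)⟩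
    (hcase t1 e1) (hcase t2 e2)

end H75M
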