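import Pool.Agent.Lib.H75M.Q4
import Pool.Agent.Lib.H75M.T1
import Pool.Agent.Lib.H75M.T4
import Pool.Agent.Lib.H75M.T6
import Pool.Agent.Lib.H75M.T7

/-! # H75M, chunk G3A (S/M): a drawing which is not convex has a state -/

namespace H75M

variable {n : ℕ}

/-- (G3a, S/M) PROOF. `u < v` in the side with an edge which leaves it. For each of the two: it is a vertex of the triangle or `mem_inner` (`mem_outer`) applies; `leave_inner` (`leave_outer`) gives `cT`. -/
theorem MDrawing.wit (D : MDrawing n) {i j k : Fin n} (hij : i < j) (hjk : j < k) :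
    (¬ D.ConvexSide (D.inner i j k) → Wit D.sg (Finset.range n) i j k true) ∧
      (¬ D.ConvexSide (D.outer i j k) → Wit D.sg (Finset.range n) i j k false) := by
  constructor
  · intro h
    unfold MDrawing.ConvexSide at h
    push Not at h
    obtain ⟨u, v, huv, hu, hv, hl⟩ := h
    have hcT := D.leave_inner hij hjk huv hu hv hl
    have key : ∀ w : Fin n, (D.x w, D.y w) ∈ D.inner i j k →
        ((w : ℕ) = i ∨ (w : ℕ) = j ∨ (w : ℕ) = k ∨ inT D.sg i j k w = true) := by
      intro w hw
      by_cases h1 : w = i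
      · exact Or.inl (by rw [h1])
      by_cases h2 : w = j
      · exact Or.inr (Or.inl (by rw [h2]))
      by_cases h3 : w = k
      · exact Or.inr (Or.inr (Or.inl (by rw [h3])))
      exact Or.inr (Or.inr (Or.inr (D.mem_inner hij hjk h1 h2 h3 hw)))
    exact ⟨u, Finset.mem_range.2 u.2, v, Finset.mem_range.2 v.2, huv, key u hu, key v hv, hcT⟩
  · intro h
    unfold MDrawing.ConvexSide at h
    push Not at h
    obtain ⟨u, v, huv, hu, hv, hl⟩ := h
    have hcT := D.leave_outer hij hjk huv hu hv hl
    have key : ∀ w : Fin n, (D.x w, D.y w) ∈ D.outer i j k →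
        ((w : ℕ) = i ∨ (w : ℕ) = j ∨ (w : ℕ) = k ∨ inT D.sg i j k w = false) := by
      intro w hw
      by_cases h1 : w = i
      · exact Or.inl (by rw [h1])
      by_cases h2 : w = j
      · exact Or.inr (Or.inl (by rw [h2]))
      by_cases h3 : w = k
      · exact Or.inr (Or.inr (Or.inl (by rw [h3])))
      exact Or.inr (Or.inr (Or.inr (D.mem_outer hij hjk h1 h2 h3 hw)))
    exact ⟨u, Finset.mem_range.2 u.2, v, Finset.mem_range.2 v.2, huv, key u hu, key v hv, hcT⟩

/-- (G3b, S) PROOF. `MDrawing.wit`, `state_of_wit`, `SS_sg`. -/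
theorem MDrawing.hasState (D : MDrawing n) (h : ¬ D.Convex) : HasState D.sg (Finset.range n) := by
  unfold MDrawing.Convex at h
  push Not at h
  obtain ⟨i, j, k, hij, hjk, h1, h2⟩ := h
  exact state_of_wit D.SS_sg (Finset.mem_range.2 i.2) (Finset.mem_range.2 j.2) (Finset.mem_range.2 k.2) hij hjk
    ((D.wit hij hjk).1 h1) ((D.wit hij hjk).2 h2)

end H75M
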