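import Pool.Agent.Lib.H75M.Draw
import Pool.Agent.Lib.H75M.T0

/-! # H75M, chunk T2A (S/M): crossings in terms of signs -/

namespace H75M

variable {n : ℕ}

/-- (T2a, S) -/
theorem MDrawing.meet_ab_cd (D : MDrawing n) {a b c d : Fin n} (hbc : b < c) :
    ¬ D.Meet a b c d := by
  rintro ⟨t, ht, -⟩
  exact absurd (ht.2.1.trans ht.1.2) (not_le.2 (D.mono hbc))

/-- (T2b, S/M) PROOF. `Set.Icc (D.x a) (D.x c) ∩ Set.Icc (D.x b) (D.x d) = Set.Icc (D.x b) (D.x c)`. `meet_iff` for `g = D.f a c`, `h = D.f b d` on `[D.x b, D.x c]` (`avoid` for the ends, `once`, `proper`): `g (D.x b) < h (D.x b) = D.y b` means `sg a b c = true`, `h (D.x c) < g (D.x c) = D.y c` means `sg b c d = true`. -/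
theorem MDrawing.meet_ac_bd (D : MDrawing n) {a b c d : Fin n} (hab : a < b) (hbc : b < c)
    (hcd : c < d) : D.Meet a c b d ↔ D.sg a b c = D.sg b c d := by
  have xab : D.x a < D.x b := D.mono hab
  have xbc : D.x b < D.x c := D.mono hbc
  have xcd : D.x c < D.x d := D.mono hcd
  have hset : Set.Icc (D.x a) (D.x c) ∩ Set.Icc (D.x b) (D.x d) = Set.Icc (D.x b) (D.x c) := by
    ext t
    simp only [Set.mem_inter_iff, Set.mem_Icc]
    constructor
    · rintro ⟨⟨h1, h2⟩, h3, h4⟩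
      exact ⟨h3, h2⟩
    · rintro ⟨h1, h2⟩
      exact ⟨⟨by linarith, h2⟩, h1, by linarith⟩
  have hg : ContinuousOn (D.f a c) (Set.Icc (D.x b) (D.x c)) :=
    (D.cont a c (hab.trans hbc)).mono (Set.Icc_subset_Icc_left xab.le)
  have hh : ContinuousOn (D.f b d) (Set.Icc (D.x b) (D.x c)) :=
    (D.cont b d (hbc.trans hcd)).mono (Set.Icc_subset_Icc_right xcd.le)
  have hb : D.f b d (D.x b) = D.y b := D.left b d (hbc.trans hcd)
  have hc : D.f a c (D.x c) = D.y c := D.right a c (hab.trans hbc)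
  have hp : D.f a c (D.x b) ≠ D.f b d (D.x b) := by
    rw [hb]; exact D.avoid a b c hab hbc
  have hq : D.f a c (D.x c) ≠ D.f b d (D.x c) := by
    rw [hc]; exact (D.avoid b c d hbc hcd).symm
  have ho := D.once a c b d (hab.trans hbc) (hbc.trans hcd) hab hbc.ne' hcd.ne
  have hpr := D.proper a c b d (hab.trans hbc) (hbc.trans hcd) hab hbc.ne' hcd.ne
  rw [hset] at ho hpr
  have key := meet_iff xbc.le hg hh hp hq ho hpr
  rw [hb, hc] at key
  unfold MDrawing.Meet
  rw [hset, key, D.sg_eq, D.sg_eq, decide_eq_decide]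

/-- (T2c, S/M) PROOF. The same for `g = D.f a d`, `h = D.f b c` on `[D.x b, D.x c]`: `g (D.x b) < D.y b` means `sg a b d = true`; `h (D.x c) = D.y c < g (D.x c)` means `sg a c d = false`. -/
theorem MDrawing.meet_ad_bc (D : MDrawing n) {a b c d : Fin n} (hab : a < b) (hbc : b < c)
    (hcd : c < d) : D.Meet a d b c ↔ D.sg a b d ≠ D.sg a c d := by
  have xab : D.x a < D.x b := D.mono hab
  have xbc : D.x b < D.x c := D.mono hbc
  have xcd : D.x c < D.x d := D.mono hcd
  have hset : Set.Icc (D.x a) (D.x d) ∩ Set.Icc (D.x b) (D.x c) = Set.Icc (D.x b) (D.x c) :=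
    Set.inter_eq_right.2 (Set.Icc_subset_Icc xab.le xcd.le)
  have hg : ContinuousOn (D.f a d) (Set.Icc (D.x b) (D.x c)) :=
    (D.cont a d ((hab.trans hbc).trans hcd)).mono (Set.Icc_subset_Icc xab.le xcd.le)
  have hh : ContinuousOn (D.f b c) (Set.Icc (D.x b) (D.x c)) := D.cont b c hbc
  have hb : D.f b c (D.x b) = D.y b := D.left b c hbc
  have hc : D.f b c (D.x c) = D.y c := D.right b c hbc
  have hp : D.f a d (D.x b) ≠ D.f b c (D.x b) := by
    rw [hb]; exact D.avoid a b d hab (hbc.trans hcd)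
  have hq : D.f a d (D.x c) ≠ D.f b c (D.x c) := by
    rw [hc]; exact D.avoid a c d (hab.trans hbc) hcd
  have ho := D.once a d b c ((hab.trans hbc).trans hcd) hbc hab (hbc.trans hcd).ne' hcd.ne'
  have hpr := D.proper a d b c ((hab.trans hbc).trans hcd) hbc hab (hbc.trans hcd).ne' hcd.ne'
  rw [hset] at ho hpr
  have key := meet_iff xbc.le hg hh hp hq ho hpr
  rw [hb, hc] at key
  unfold MDrawing.Meet
  rw [hset, key, D.sg_eq, D.sg_eq, ne_eq, decide_eq_decide]
  have h3 : D.f a d (D.x c) ≠ D.y c := D.avoid a c d (hab.trans hbc) hcd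
  have h4 : D.y c < D.f a d (D.x c) ↔ ¬ (D.f a d (D.x c) < D.y c) := by
    rw [not_lt]
    exact ⟨fun h => h.le, fun h => lt_of_le_of_ne h h3.symm⟩
  rw [h4]
  tauto

end H75M
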