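import Pool.Agent.Lib.H75M.C1A
import Pool.Agent.Lib.H75M.T2A

/-! # H75M, chunk T3 (M/L): the number of crossings in terms of signs -/

namespace H75M

variable {n : ℕ}

/-- the indicator of the two kinds of crossings, over `Fin n` -/
theorem t3_point (D : MDrawing n) (i j k l : Fin n) [Decidable (i < j ∧ k < l ∧ i < k ∧ j ≠ k ∧ j ≠ l ∧
      D.Meet i j k l)] :
    (if i < j ∧ k < l ∧ i < k ∧ j ≠ k ∧ j ≠ l ∧ D.Meet i j k l then 1 else 0 : ℕ) =
      (if (i : ℕ) < k ∧ (k : ℕ) < j ∧ (j : ℕ) < l then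
        (if D.sg i k j = D.sg k j l then 1 else 0) else 0) +
      (if (i : ℕ) < k ∧ (k : ℕ) < l ∧ (l : ℕ) < j then
        (if D.sg i k j = D.sg i l j then 0 else 1) else 0) := by
  by_cases hik : i < k
  swap
  · have e1 : ¬ (i : ℕ) < k := hik
    rw [if_neg (fun h => hik h.2.2.1), if_neg (fun h => e1 h.1), if_neg (fun h => e1 h.1)]
  have e1 : (i : ℕ) < k := hik
  by_cases hkl : k < l
  swap
  · have e2 : ¬ (k : ℕ) < l := hkl
    rw [if_neg (fun h => hkl h.2.1), if_neg (fun h => e2 (h.2.1.trans h.2.2)),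
      if_neg (fun h => e2 h.2.1)]
  have e2 : (k : ℕ) < l := hkl
  rcases lt_trichotomy j k with hjk | hjk | hkj
  · have e3 : (j : ℕ) < k := hjk
    rw [if_neg (fun h => D.meet_ab_cd hjk h.2.2.2.2.2), if_neg (fun h => lt_asymm e3 h.2.1),
      if_neg (fun h => lt_asymm e3 (h.2.1.trans h.2.2))]
  · subst hjk
    rw [if_neg (fun h => h.2.2.2.1 rfl), if_neg (fun h => lt_irrefl _ h.2.1),
      if_neg (fun h => lt_asymm h.2.1 h.2.2)]
  have e3 : (k : ℕ) < j := hkj
  rcases lt_trichotomy j l with hjl | hjl | hlj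
  · have e4 : (j : ℕ) < l := hjl
    rw [if_neg (fun h : (i : ℕ) < k ∧ (k : ℕ) < l ∧ (l : ℕ) < j => lt_asymm e4 h.2.2), add_zero,
      if_pos (show (i : ℕ) < k ∧ (k : ℕ) < j ∧ (j : ℕ) < l from ⟨e1, e3, e4⟩)]
    have hm := D.meet_ac_bd hik hkj hjl
    by_cases hs : D.sg i k j = D.sg k j l
    · rw [if_pos hs, if_pos ⟨hik.trans hkj, hkl, hik, hkj.ne', hjl.ne, hm.2 hs⟩]
    · rw [if_neg hs, if_neg (fun h => hs (hm.1 h.2.2.2.2.2))]
  · subst hjl
    rw [if_neg (fun h => h.2.2.2.2.1 rfl), if_neg (fun h => lt_irrefl _ h.2.2),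
      if_neg (fun h => lt_irrefl _ h.2.2)]
  · have e4 : (l : ℕ) < j := hlj
    rw [if_neg (fun h : (i : ℕ) < k ∧ (k : ℕ) < j ∧ (j : ℕ) < l => lt_asymm e4 h.2.2), zero_add,
      if_pos (show (i : ℕ) < k ∧ (k : ℕ) < l ∧ (l : ℕ) < j from ⟨e1, e2, e4⟩)]
    have hm := D.meet_ad_bc hik hkl hlj
    by_cases hs : D.sg i k j = D.sg i l j
    · rw [if_pos hs, if_neg (fun h => (hm.1 h.2.2.2.2.2) hs)]
    · rw [if_neg hs, if_pos ⟨hik.trans hkj, hkl, hik, hkj.ne', hlj.ne', hm.2 hs⟩]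

/-- (T3, M) PROOF. Let `i < j`, `k < l`, `i < k`, `j ≠ k`, `j ≠ l`. If `j < k`: no crossing (`meet_ab_cd`). If `k < j < l`: crossing if and only if `sg i k j = sg k j l` (`meet_ac_bd` for `i k j l`). If `l < j`: if and only if `sg i k j ≠ sg i l j` (`meet_ad_bc` for `i k l j`).
So `D.cr` is the number of `a < b < c < d` in `Fin n` with `sg a b c = sg b c d` (`((a, c), (b, d))`) plus the number of those with `sg a b d ≠ sg a c d` (`((a, d), (b, c))`); this is `crs D.sg (Finset.range n) = sum4 (Finset.range n) (c4 D.sg)` by definition of `c4` (`sum4_eq`; sums over `Finset.range n` are sums over `Fin n`, `Finset.sum_range`,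
and `D.cr` is a sum over `Fin n` four times of `if .. then 1 else 0`: `Finset.card_filter`, `Fintype.sum_prod_type`; split the indicator by the order of `k, l` and `j`, and rename variables by `Finset.sum_comm`). -/
theorem MDrawing.cr_eq (D : MDrawing n) : D.cr = crs D.sg (Finset.range n) := by
  classical
  have h1 : D.cr = ∑ i : Fin n, ∑ j : Fin n, ∑ k : Fin n, ∑ l : Fin n,
      (if i < j ∧ k < l ∧ i < k ∧ j ≠ k ∧ j ≠ l ∧ D.Meet i j k l then 1 else 0 : ℕ) := by
    unfold MDrawing.cr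
    rw [Finset.card_filter, Fintype.sum_prod_type, Fintype.sum_prod_type]
    refine Finset.sum_congr rfl (fun i _ => Finset.sum_congr rfl (fun j _ => ?_))
    rw [Fintype.sum_prod_type]
  have h2 : crs D.sg (Finset.range n) = ∑ a : Fin n, ∑ b : Fin n, ∑ c : Fin n, ∑ d : Fin n,
      (if (a : ℕ) < b ∧ (b : ℕ) < c ∧ (c : ℕ) < d then c4 D.sg a b c d else 0) := by
    have := sum4_eq (Finset.range n) (c4 D.sg)
    unfold sum4 at this
    unfold crs
    rw [this, Finset.sum_range]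
    refine Finset.sum_congr rfl (fun a _ => ?_)
    rw [Finset.sum_range]
    refine Finset.sum_congr rfl (fun b _ => ?_)
    rw [Finset.sum_range]
    refine Finset.sum_congr rfl (fun c _ => ?_)
    rw [Finset.sum_range]
  have h3 : (∑ i : Fin n, ∑ j : Fin n, ∑ k : Fin n, ∑ l : Fin n,
      (if (i : ℕ) < k ∧ (k : ℕ) < j ∧ (j : ℕ) < l then
        (if D.sg i k j = D.sg k j l then 1 else 0) else 0)) =
      ∑ a : Fin n, ∑ b : Fin n, ∑ c : Fin n, ∑ d : Fin n,
      (if (a : ℕ) < b ∧ (b : ℕ) < c ∧ (c : ℕ) < d then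
        (if D.sg a b c = D.sg b c d then 1 else 0) else 0) := by
    refine Finset.sum_congr rfl (fun a _ => ?_)
    rw [Finset.sum_comm]
  have h4 : (∑ i : Fin n, ∑ j : Fin n, ∑ k : Fin n, ∑ l : Fin n,
      (if (i : ℕ) < k ∧ (k : ℕ) < l ∧ (l : ℕ) < j then
        (if D.sg i k j = D.sg i l j then 0 else 1) else 0)) =
      ∑ a : Fin n, ∑ b : Fin n, ∑ c : Fin n, ∑ d : Fin n,
      (if (a : ℕ) < b ∧ (b : ℕ) < c ∧ (c : ℕ) < d then
        (if D.sg a b d = D.sg a c d then 0 else 1) else 0) := by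
    refine Finset.sum_congr rfl (fun a _ => ?_)
    rw [Finset.sum_comm]
    refine Finset.sum_congr rfl (fun b _ => ?_)
    rw [Finset.sum_comm]
  rw [h1, h2]
  have h5 : (∑ i : Fin n, ∑ j : Fin n, ∑ k : Fin n, ∑ l : Fin n,
      (if i < j ∧ k < l ∧ i < k ∧ j ≠ k ∧ j ≠ l ∧ D.Meet i j k l then 1 else 0 : ℕ)) =
      (∑ i : Fin n, ∑ j : Fin n, ∑ k : Fin n, ∑ l : Fin n,
      (if (i : ℕ) < k ∧ (k : ℕ) < j ∧ (j : ℕ) < l then
        (if D.sg i k j = D.sg k j l then 1 else 0) else 0)) +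
      (∑ i : Fin n, ∑ j : Fin n, ∑ k : Fin n, ∑ l : Fin n,
      (if (i : ℕ) < k ∧ (k : ℕ) < l ∧ (l : ℕ) < j then
        (if D.sg i k j = D.sg i l j then 0 else 1) else 0)) := by
    simp only [← Finset.sum_add_distrib]
    refine Finset.sum_congr rfl (fun i _ => Finset.sum_congr rfl (fun j _ =>
      Finset.sum_congr rfl (fun k _ => Finset.sum_congr rfl (fun l _ => ?_))))
    exact t3_point D i j k l
  rw [h5, h3, h4]
  simp only [← Finset.sum_add_distrib]
  refine Finset.sum_congr rfl (fun a _ => Finset.sum_congr rfl (fun b _ =>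
      Finset.sum_congr rfl (fun c _ => Finset.sum_congr rfl (fun d _ => ?_))))
  unfold c4
  split_ifs <;> rfl

end H75M
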