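import Pool.Agent.Lib.H75M.QDefs

/-! # H75M, Q1: the kernel checks for five points -/

namespace H75M

/-- (Q1a) 1024 cases in the kernel -/
theorem check1 : ∀ b012 b013 b014 b023 b024 b034 b123 b124 b134 b234 : Bool,
    ok5 (tab b012 b013 b014 b023 b024 b034 b123 b124 b134 b234) = true →
      tri5.all (chk1 (tab b012 b013 b014 b023 b024 b034 b123 b124 b134 b234)) = true := by
  decide +kernel

/-- (Q1b) 1024 cases in the kernel -/
theorem check2 : ∀ b012 b013 b014 b023 b024 b034 b123 b124 b134 b234 : Bool,
    ok5 (tab b012 b013 b014 b023 b024 b034 b123 b124 b134 b234) = true →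
      tri5.all (chk2 (tab b012 b013 b014 b023 b024 b034 b123 b124 b134 b234)) = true := by
  decide +kernel

end H75M
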