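import Pool.Agent.Lib.H75M.C1A
import Pool.Agent.Lib.H75M.Q1
import Pool.Agent.Lib.H75M.G2A

/-! # H75M, chunk X6 (M): six vertices -/

namespace H75M

/-- four signs `abc, abd, acd, bcd` satisfy the two conditions -/
def x6_q (p q r t : Bool) : Bool := !((p == r) && (q != p)) && !((t == q) && (r != t))

/-- number of crossings -/
def x6_c (p q r t : Bool) : ℕ := (if p = t then 1 else 0) + (if q = r then 0 else 1)

/-- the total number of crossings of six points is at least 5 or no five of the points contain a state -/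
def x6_fin (b012 b013 b023 b123 b014 b024 b124 b034 b134 b234 b015 b025 b125 b035 b135 b235 b045
    b145 b245 b345 : Bool) : Bool :=
  Nat.ble 5 (x6_c b012 b013 b023 b123 + x6_c b012 b014 b024 b124 + x6_c b012 b015 b025 b125 +
    x6_c b013 b014 b034 b134 + x6_c b013 b015 b035 b135 + x6_c b014 b015 b045 b145 +
    x6_c b023 b024 b034 b234 + x6_c b023 b025 b035 b235 + x6_c b024 b025 b045 b245 +
    x6_c b034 b035 b045 b345 + x6_c b123 b124 b134 b234 + x6_c b123 b125 b135 b235 +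
    x6_c b124 b125 b145 b245 + x6_c b134 b135 b145 b345 + x6_c b234 b235 b245 b345) ||
  !(st5 (tab b123 b124 b125 b134 b135 b145 b234 b235 b245 b345) ||
    st5 (tab b023 b024 b025 b034 b035 b045 b234 b235 b245 b345) ||
    st5 (tab b013 b014 b015 b034 b035 b045 b134 b135 b145 b345) ||
    st5 (tab b012 b014 b015 b024 b025 b045 b124 b125 b145 b245) ||
    st5 (tab b012 b013 b015 b023 b025 b035 b123 b125 b135 b235) ||
    st5 (tab b012 b013 b014 b023 b024 b034 b123 b124 b134 b234))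

/-- both values -/
def x6_al (f : Bool → Bool) : Bool := f false && f true

/-- implication, evaluated only if the condition holds -/
def x6_im (c : Bool) (r : Bool) : Bool := if c = true then r else true

theorem x6_al_spec {f : Bool → Bool} (h : x6_al f = true) (b : Bool) : f b = true := by
  unfold x6_al at h
  rw [Bool.and_eq_true] at h
  cases b
  · exact h.1
  · exact h.2

theorem x6_im_spec {c r : Bool} (h : x6_im c r = true) (hc : c = true) : r = true := by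
  unfold x6_im at h
  rw [if_pos hc] at h
  exact h

/-- the check as a Bool -/
def x6_all : Bool :=
  x6_al fun b012 => x6_al fun b013 => x6_al fun b023 => x6_al fun b123 =>
  x6_im (x6_q b012 b013 b023 b123) <|
  x6_al fun b014 => x6_al fun b024 => x6_al fun b124 => x6_im (x6_q b012 b014 b024 b124) <|
  x6_al fun b034 => x6_al fun b134 => x6_im (x6_q b013 b014 b034 b134) <|
  x6_al fun b234 => x6_im (x6_q b023 b024 b034 b234) <| x6_im (x6_q b123 b124 b134 b234) <|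
  x6_al fun b015 => x6_al fun b025 => x6_al fun b125 => x6_im (x6_q b012 b015 b025 b125) <|
  x6_al fun b035 => x6_al fun b135 => x6_im (x6_q b013 b015 b035 b135) <|
  x6_al fun b235 => x6_im (x6_q b023 b025 b035 b235) <| x6_im (x6_q b123 b125 b135 b235) <|
  x6_al fun b045 => x6_al fun b145 => x6_im (x6_q b014 b015 b045 b145) <|
  x6_al fun b245 => x6_im (x6_q b024 b025 b045 b245) <| x6_im (x6_q b124 b125 b145 b245) <|
  x6_al fun b345 => x6_im (x6_q b034 b035 b045 b345) <| x6_im (x6_q b134 b135 b145 b345) <|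
  x6_im (x6_q b234 b235 b245 b345) <|
  x6_fin b012 b013 b023 b123 b014 b024 b124 b034 b134 b234 b015 b025 b125 b035 b135 b235 b045
      b145 b245 b345

theorem x6_all_true : x6_all = true := by
  decide +kernel


theorem x6_fin6 (G : Fin 6 → Fin 6 → Fin 6 → Fin 6 → ℕ) :
    ∑ i : Fin 6, ∑ j ∈ Finset.univ.filter (fun j => i < j), ∑ k ∈ Finset.univ.filter (fun k => j < k),
      ∑ l ∈ Finset.univ.filter (fun l => k < l), G i j k l =
    G 0 1 2 3 + G 0 1 2 4 + G 0 1 2 5 + G 0 1 3 4 + G 0 1 3 5 + G 0 1 4 5 + G 0 2 3 4 + G 0 2 3 5 +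
      G 0 2 4 5 + G 0 3 4 5 + G 1 2 3 4 + G 1 2 3 5 + G 1 2 4 5 + G 1 3 4 5 + G 2 3 4 5 := by
  have e0 : (Finset.univ.filter (fun j : Fin 6 => 0 < j)) = {1, 2, 3, 4, 5} := by decide
  have e1 : (Finset.univ.filter (fun j : Fin 6 => 1 < j)) = {2, 3, 4, 5} := by decide
  have e2 : (Finset.univ.filter (fun j : Fin 6 => 2 < j)) = {3, 4, 5} := by decide
  have e3 : (Finset.univ.filter (fun j : Fin 6 => 3 < j)) = {4, 5} := by decide
  have e4 : (Finset.univ.filter (fun j : Fin 6 => 4 < j)) = {5} := by decide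
  have e5 : (Finset.univ.filter (fun j : Fin 6 => 5 < j)) = ∅ := by decide
  rw [Fin.sum_univ_six]
  simp [e0, e1, e2, e3, e4, e5]
  ring

variable {s : ℕ → ℕ → ℕ → Bool} {V : Finset ℕ}

theorem x6_qs (hs : SS s V) {a b c d : ℕ} (ha : a ∈ V) (hb : b ∈ V) (hc : c ∈ V) (hd : d ∈ V)
    (h1 : a < b) (h2 : b < c) (h3 : c < d) :
    x6_q (s a b c) (s a b d) (s a c d) (s b c d) = true := by
  have e1 := hs.l a ha b hb c hc d hd h1 h2 h3
  have e2 := hs.r a ha b hb c hc d hd h1 h2 h3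
  revert e1 e2
  generalize s a b c = p
  generalize s a b d = q
  generalize s a c d = r
  generalize s b c d = t
  revert p q r t
  decide

theorem x6_pts (hs : SS s V) (h : HasState s V) : ∃ y0 ∈ V, ∃ y1 ∈ V, ∃ y2 ∈ V, ∃ y3 ∈ V,
    ∃ y4 ∈ V, y0 < y1 ∧ y1 < y2 ∧ y2 < y3 ∧ y3 < y4 ∧
      st5 (tab (s y0 y1 y2) (s y0 y1 y3) (s y0 y1 y4) (s y0 y2 y3) (s y0 y2 y4) (s y0 y3 y4)
        (s y1 y2 y3) (s y1 y2 y4) (s y1 y3 y4) (s y2 y3 y4)) = true := by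
  rcases h with ⟨e, a, b, c, d, f, ⟨ha, hb, hc, hd, hf⟩, ⟨h1, h2, h3, k1, k2, k3⟩, h4, k4⟩ |
    ⟨e, a, b, c, d, u, ⟨ha, hb, hc, hd, hf⟩, ⟨h1, h2, h3, k1, k2, k3⟩, h4, k4⟩ |
    ⟨e, a, b, c, d, v, ⟨ha, hb, hc, hd, hf⟩, hk, h4, h5, k4⟩ |
    ⟨e, u, x, y, z, v, ⟨ha, hb, hc, hd, hf⟩, ⟨h1, h2, h3, h4⟩, k1, k2, k3, k4⟩
  · refine ⟨a, ha, b, hb, c, hc, d, hd, f, hf, h1, h2, h3, h4, ?_⟩
    simp only [st5, st5e, kapB, tab, k1, k2, k3, k4]
    cases e <;> simp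
  · refine ⟨u, hf, a, ha, b, hb, c, hc, d, hd, h4, h1, h2, h3, ?_⟩
    simp only [st5, st5e, kapB, tab, k1, k2, k3, k4]
    cases e <;> simp
  · have k5 := kap_acd hs ha hb hc hd hk
    obtain ⟨h1, h2, h3, k1, k2, k3⟩ := hk
    rcases lt_trichotomy v b with hv | hv | hv
    · refine ⟨a, ha, v, hf, b, hb, c, hc, d, hd, h4, hv, h2, h3, ?_⟩
      simp only [st5, st5e, kapB, tab, k1, k2, k3, k4, k5]
      cases e <;> simp
    · rw [hv, k2] at k4
      cases e <;> simp at k4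
    · rcases lt_trichotomy v c with hv2 | hv2 | hv2
      · refine ⟨a, ha, b, hb, v, hf, c, hc, d, hd, h1, hv, hv2, h3, ?_⟩
        simp only [st5, st5e, kapB, tab, k1, k2, k3, k4, k5]
        cases e <;> simp
      · rw [hv2, k5] at k4
        cases e <;> simp at k4
      · refine ⟨a, ha, b, hb, c, hc, v, hf, d, hd, h1, h2, hv2, h5, ?_⟩
        simp only [st5, st5e, kapB, tab, k1, k2, k3, k4, k5]
        cases e <;> simp
  · refine ⟨u, ha, x, hb, y, hc, z, hd, v, hf, h1, h2, h3, h4, ?_⟩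
    simp only [st5, st5e, kapB, tab, k1, k2, k3, k4]
    cases e <;> simp

theorem x6_crs (p : Fin 6 ↪o ℕ) (hV : V = Finset.univ.map p.toEmbedding) :
    crs s V = ∑ i : Fin 6, ∑ j ∈ Finset.univ.filter (fun j => i < j),
      ∑ k ∈ Finset.univ.filter (fun k => j < k), ∑ l ∈ Finset.univ.filter (fun l => k < l),
        c4 s (p i) (p j) (p k) (p l) := by
  have key : ∀ (i : Fin 6) (g : ℕ → ℕ), ∑ b ∈ V.filter (fun b => p i < b), g b =
      ∑ j ∈ Finset.univ.filter (fun j => i < j), g (p j) := by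
    intro i g
    rw [hV, Finset.filter_map, Finset.sum_map]
    refine Finset.sum_congr ?_ fun j _ => rfl
    ext j
    simp
  unfold crs
  have h0 : ∀ g : ℕ → ℕ, ∑ a ∈ V, g a = ∑ i : Fin 6, g (p i) := by
    intro g
    rw [hV, Finset.sum_map]
    rfl
  rw [h0]
  refine Finset.sum_congr rfl fun i _ => ?_
  rw [key]
  refine Finset.sum_congr rfl fun j _ => ?_
  rw [key]
  refine Finset.sum_congr rfl fun k _ => ?_
  rw [key]

theorem x6_main (hs : SS s V) {y0 y1 y2 y3 y4 y5 : ℕ} (h0 : y0 ∈ V) (h1 : y1 ∈ V) (h2 : y2 ∈ V)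
    (h3 : y3 ∈ V) (h4 : y4 ∈ V) (h5 : y5 ∈ V) (l1 : y0 < y1) (l2 : y1 < y2) (l3 : y2 < y3)
    (l4 : y3 < y4) (l5 : y4 < y5) :
    x6_fin (s y0 y1 y2) (s y0 y1 y3) (s y0 y2 y3) (s y1 y2 y3) (s y0 y1 y4) (s y0 y2 y4)
      (s y1 y2 y4) (s y0 y3 y4) (s y1 y3 y4) (s y2 y3 y4) (s y0 y1 y5) (s y0 y2 y5) (s y1 y2 y5)
      (s y0 y3 y5) (s y1 y3 y5) (s y2 y3 y5) (s y0 y4 y5) (s y1 y4 y5) (s y2 y4 y5)
      (s y3 y4 y5) = true := by
  have q : ∀ a ∈ V, ∀ b ∈ V, ∀ c ∈ V, ∀ d ∈ V, a < b → b < c → c < d →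
      x6_q (s a b c) (s a b d) (s a c d) (s b c d) = true :=
    fun a ha b hb c hc d hd h1 h2 h3 => x6_qs hs ha hb hc hd h1 h2 h3
  have H := x6_all_true
  unfold x6_all at H
  have H := x6_al_spec (x6_al_spec (x6_al_spec (x6_al_spec H (s y0 y1 y2)) (s y0 y1 y3))
    (s y0 y2 y3)) (s y1 y2 y3)
  have H := x6_im_spec H (q _ h0 _ h1 _ h2 _ h3 l1 l2 l3)
  have H := x6_al_spec (x6_al_spec (x6_al_spec H (s y0 y1 y4)) (s y0 y2 y4)) (s y1 y2 y4)
  have H := x6_im_spec H (q _ h0 _ h1 _ h2 _ h4 l1 l2 (l3.trans l4))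
  have H := x6_al_spec (x6_al_spec H (s y0 y3 y4)) (s y1 y3 y4)
  have H := x6_im_spec H (q _ h0 _ h1 _ h3 _ h4 l1 (l2.trans l3) l4)
  have H := x6_al_spec H (s y2 y3 y4)
  have H := x6_im_spec (x6_im_spec H (q _ h0 _ h2 _ h3 _ h4 (l1.trans l2) l3 l4))
    (q _ h1 _ h2 _ h3 _ h4 l2 l3 l4)
  have H := x6_al_spec (x6_al_spec (x6_al_spec H (s y0 y1 y5)) (s y0 y2 y5)) (s y1 y2 y5)
  have H := x6_im_spec H (q _ h0 _ h1 _ h2 _ h5 l1 l2 (l3.trans (l4.trans l5)))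
  have H := x6_al_spec (x6_al_spec H (s y0 y3 y5)) (s y1 y3 y5)
  have H := x6_im_spec H (q _ h0 _ h1 _ h3 _ h5 l1 (l2.trans l3) (l4.trans l5))
  have H := x6_al_spec H (s y2 y3 y5)
  have H := x6_im_spec (x6_im_spec H (q _ h0 _ h2 _ h3 _ h5 (l1.trans l2) l3 (l4.trans l5)))
    (q _ h1 _ h2 _ h3 _ h5 l2 l3 (l4.trans l5))
  have H := x6_al_spec (x6_al_spec H (s y0 y4 y5)) (s y1 y4 y5)
  have H := x6_im_spec H (q _ h0 _ h1 _ h4 _ h5 l1 (l2.trans (l3.trans l4)) l5)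
  have H := x6_al_spec H (s y2 y4 y5)
  have H := x6_im_spec (x6_im_spec H (q _ h0 _ h2 _ h4 _ h5 (l1.trans l2) (l3.trans l4) l5))
    (q _ h1 _ h2 _ h4 _ h5 l2 (l3.trans l4) l5)
  have H := x6_al_spec H (s y3 y4 y5)
  have H := x6_im_spec (x6_im_spec H (q _ h0 _ h3 _ h4 _ h5 (l1.trans (l2.trans l3)) l4 l5))
    (q _ h1 _ h3 _ h4 _ h5 (l2.trans l3) l4 l5)
  exact x6_im_spec H (q _ h2 _ h3 _ h4 _ h5 l3 l4 l5)

/-- (X6, M) kernel check for six vertices -/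
theorem six_state (hs : SS s V) (hV : V.card = 6) (h : HasState s V) : 5 ≤ crs s V := by
  obtain ⟨p, hp⟩ : ∃ p : Fin 6 ↪o ℕ, V = Finset.univ.map p.toEmbedding :=
    ⟨V.orderEmbOfFin hV, (Finset.map_orderEmbOfFin_univ V hV).symm⟩
  have hm : ∀ i, p i ∈ V := by
    intro i
    rw [hp]
    simp
  have hl : ∀ i j : Fin 6, i < j → p i < p j := fun i j hij => p.lt_iff_lt.2 hij
  have H := x6_main hs (hm 0) (hm 1) (hm 2) (hm 3) (hm 4) (hm 5) (hl _ _ (by decide))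
    (hl _ _ (by decide)) (hl _ _ (by decide)) (hl _ _ (by decide)) (hl _ _ (by decide))
  rw [x6_crs p hp, x6_fin6]
  unfold x6_fin at H
  rw [Bool.or_eq_true] at H
  rcases H with H | H
  · exact Nat.le_of_ble_eq_true H
  · exfalso
    rw [Bool.not_eq_true', Bool.or_eq_false_iff, Bool.or_eq_false_iff, Bool.or_eq_false_iff,
      Bool.or_eq_false_iff, Bool.or_eq_false_iff] at H
    obtain ⟨⟨⟨⟨⟨g0, g1⟩, g2⟩, g3⟩, g4⟩, g5⟩ := H
    obtain ⟨y0, m0, y1, m1, y2, m2, y3, m3, y4, m4, l1, l2, l3, l4, hst⟩ := x6_pts hs h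
    have hk : ∀ y ∈ V, ∃ i : Fin 6, p i = y := by
      intro y hy
      rw [hp] at hy
      simpa using hy
    obtain ⟨i0, rfl⟩ := hk _ m0
    obtain ⟨i1, rfl⟩ := hk _ m1
    obtain ⟨i2, rfl⟩ := hk _ m2
    obtain ⟨i3, rfl⟩ := hk _ m3
    obtain ⟨i4, rfl⟩ := hk _ m4
    have c1 : i0 < i1 := p.lt_iff_lt.1 l1
    have c2 : i1 < i2 := p.lt_iff_lt.1 l2
    have c3 : i2 < i3 := p.lt_iff_lt.1 l3
    have c4 : i3 < i4 := p.lt_iff_lt.1 l4
    have hcase : (i0 = 1 ∧ i1 = 2 ∧ i2 = 3 ∧ i3 = 4 ∧ i4 = 5) ∨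
        (i0 = 0 ∧ i1 = 2 ∧ i2 = 3 ∧ i3 = 4 ∧ i4 = 5) ∨
        (i0 = 0 ∧ i1 = 1 ∧ i2 = 3 ∧ i3 = 4 ∧ i4 = 5) ∨
        (i0 = 0 ∧ i1 = 1 ∧ i2 = 2 ∧ i3 = 4 ∧ i4 = 5) ∨
        (i0 = 0 ∧ i1 = 1 ∧ i2 = 2 ∧ i3 = 3 ∧ i4 = 5) ∨
        (i0 = 0 ∧ i1 = 1 ∧ i2 = 2 ∧ i3 = 3 ∧ i4 = 4) := by
      simp only [Fin.lt_def, Fin.ext_iff] at *
      have := i4.2
      simp only [Fin.val_zero, Fin.val_one] at *
      omega
    rcases hcase with ⟨rfl, rfl, rfl, rfl, rfl⟩ | ⟨rfl, rfl, rfl, rfl, rfl⟩ |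
      ⟨rfl, rfl, rfl, rfl, rfl⟩ | ⟨rfl, rfl, rfl, rfl, rfl⟩ | ⟨rfl, rfl, rfl, rfl, rfl⟩ |
      ⟨rfl, rfl, rfl, rfl, rfl⟩
    · exact absurd (hst.symm.trans g0) (by simp)
    · exact absurd (hst.symm.trans g1) (by simp)
    · exact absurd (hst.symm.trans g2) (by simp)
    · exact absurd (hst.symm.trans g3) (by simp)
    · exact absurd (hst.symm.trans g4) (by simp)
    · exact absurd (hst.symm.trans g5) (by simp)

end H75M
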