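import Pool.Agent.Lib.H75M.G2
import Pool.Agent.Lib.H75M.G3A
import Pool.Agent.Lib.H75M.T3
import Pool.Agent.Lib.H75M.X6

/-! # H75M, chunk G3 (S/M): the theorem -/

namespace H75M

variable {n : ℕ}

/-- (G3, S/M) PROOF. By contradiction with `MDrawing.hasState`; `n ≥ 5` (`HasState.five`), `n = 2 m + 1` or `n = 2 m + 2`; `cr_eq`, `odd_state`; `six_state` for `n = 6` (`hill 6 = 3`), `even_state` for `n = 2 m + 2`, `m ≥ 3`. -/
theorem MDrawing.main (D : MDrawing n) (h : D.cr ≤ hill n + 1) : D.Convex := by
  by_contra hc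
  have hst := D.hasState hc
  have hss := D.SS_sg
  have hcard : (Finset.range n).card = n := Finset.card_range n
  have h5 := hst.five hss
  rw [hcard] at h5
  rw [D.cr_eq] at h
  rcases Nat.even_or_odd' n with ⟨m, hm | hm⟩
  · rcases lt_or_ge m 4 with hm4 | hm4
    · have h6 : n = 6 := by omega
      have h7 := six_state hss (by rw [hcard]; exact h6) hst
      have h8 : hill n = 3 := by rw [h6]; decide
      omega
    · obtain ⟨r, rfl⟩ : ∃ r, m = r + 1 := ⟨m - 1, by omega⟩
      have h6 : n = 2 * r + 2 := by omega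
      have h7 := even_state hss (by rw [hcard]; exact h6) (by omega) hst
      rw [← h6] at h7
      omega
  · have h7 := odd_state hss (by rw [hcard]; exact hm) hst
    rw [← hm] at h7
    omega

end H75M
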