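import Pool.Agent.Lib.H75M.Defs

/-! # H75M, chunk O1 (S/M): the orders at a vertex -/

namespace H75M

variable {s : ℕ → ℕ → ℕ → Bool} {V : Finset ℕ}

theorem o1_1 {x y v : ℕ} (h : v < x) : ab s x y v = !(s v x y) := by
  unfold ab
  rw [if_pos h]

theorem o1_2 {x y v : ℕ} (h : x < v) (h2 : v < y) : ab s x y v = s x v y := by
  unfold ab
  rw [if_neg (by omega), if_pos h2]

theorem o1_3 {x y v : ℕ} (h : x < y) (h2 : y < v) : ab s x y v = !(s x y v) := by
  unfold ab
  rw [if_neg (by omega), if_neg (by omega)]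

/-- (O1a, S) unfold `ab`, cases `x < w`, `w < x`. -/
theorem ab_left_anti {x w y : ℕ} (hxy : x < y) (hwy : w < y) (hxw : x ≠ w) :
    ab s w y x = !(ab s x y w) := by
  rcases lt_or_gt_of_ne hxw with h | h
  · rw [o1_1 h, o1_2 h hwy]
  · rw [o1_2 h hxy, o1_1 h, Bool.not_not]

/-- (O1b, S/M) The edges `xy`, `x < y`, are linearly ordered at `y`. PROOF. Unfold `ab`; six orders of the distinct numbers `x, w, z < y`
(`lt_trichotomy`), in each one instance of `SS.r` for the sorted triple and `y`; the values are Bool, finish with `cases`/`simp_all`/`decide`. -/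
theorem ab_left_trans (hs : SS s V) {x w z y : ℕ} (hx : x ∈ V) (hw : w ∈ V) (hz : z ∈ V)
    (hy : y ∈ V) (hxy : x < y) (hwy : w < y) (hzy : z < y) (hxw : x ≠ w) (hxz : x ≠ z)
    (hwz : w ≠ z) {σ : Bool} (h1 : ab s x y w = σ) (h2 : ab s w y z = σ) : ab s x y z = σ := by
  rcases lt_or_gt_of_ne hxw with h | h <;> rcases lt_or_gt_of_ne hxz with h' | h' <;>
    rcases lt_or_gt_of_ne hwz with h'' | h''
  · have H := hs.r x hx w hw z hz y hy h h'' hzy
    rw [o1_2 h hwy] at h1
    rw [o1_2 h'' hzy] at h2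
    rw [o1_2 h' hzy]
    revert h1 h2 H
    cases s x w y <;> cases s w z y <;> cases s x z y <;> cases σ <;> decide
  · have H := hs.r x hx z hz w hw y hy h' h'' hwy
    rw [o1_2 h hwy] at h1
    rw [o1_1 h''] at h2
    rw [o1_2 h' hzy]
    revert h1 h2 H
    cases s x w y <;> cases s z w y <;> cases s x z y <;> cases σ <;> decide
  · omega
  · have H := hs.r z hz x hx w hw y hy h' h hwy
    rw [o1_2 h hwy] at h1
    rw [o1_1 h''] at h2
    rw [o1_1 h']
    revert h1 h2 H
    cases s x w y <;> cases s z w y <;> cases s z x y <;> cases σ <;> decide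
  · have H := hs.r w hw x hx z hz y hy h h' hzy
    rw [o1_1 h] at h1
    rw [o1_2 h'' hzy] at h2
    rw [o1_2 h' hzy]
    revert h1 h2 H
    cases s w x y <;> cases s w z y <;> cases s x z y <;> cases σ <;> decide
  · omega
  · have H := hs.r w hw z hz x hx y hy h'' h' hxy
    rw [o1_1 h] at h1
    rw [o1_2 h'' hzy] at h2
    rw [o1_1 h']
    revert h1 h2 H
    cases s w x y <;> cases s w z y <;> cases s z x y <;> cases σ <;> decide
  · have H := hs.r z hz w hw x hx y hy h'' h hxy
    rw [o1_1 h] at h1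
    rw [o1_1 h''] at h2
    rw [o1_1 h']
    revert h1 h2 H
    cases s w x y <;> cases s z w y <;> cases s z x y <;> cases σ <;> decide

/-- (O1c, S) unfold `ab`, cases `q < r`, `r < q`. -/
theorem ab_right_anti {p q r : ℕ} (hpq : p < q) (hpr : p < r) (hqr : q ≠ r) :
    ab s p r q = !(ab s p q r) := by
  rcases lt_or_gt_of_ne hqr with h | h
  · rw [o1_2 hpq h, o1_3 hpq h, Bool.not_not]
  · rw [o1_3 hpr h, o1_2 hpr h]

/-- (O1d, S/M) The edges `pq`, `q > p`, are linearly ordered at `p`. PROOF as O1b with `SS.l`. -/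
theorem ab_right_trans (hs : SS s V) {p q r t : ℕ} (hp : p ∈ V) (hq : q ∈ V) (hr : r ∈ V)
    (ht : t ∈ V) (hpq : p < q) (hpr : p < r) (hpt : p < t) (hqr : q ≠ r) (hqt : q ≠ t)
    (hrt : r ≠ t) {σ : Bool} (h1 : ab s p q r = σ) (h2 : ab s p r t = σ) : ab s p q t = σ := by
  rcases lt_or_gt_of_ne hqr with h | h <;> rcases lt_or_gt_of_ne hqt with h' | h' <;>
    rcases lt_or_gt_of_ne hrt with h'' | h''
  · have H := hs.l p hp q hq r hr t ht hpq h h''
    rw [o1_3 hpq h] at h1
    rw [o1_3 hpr h''] at h2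
    rw [o1_3 hpq h']
    revert h1 h2 H
    cases s p q r <;> cases s p r t <;> cases s p q t <;> cases σ <;> decide
  · have H := hs.l p hp q hq t ht r hr hpq h' h''
    rw [o1_3 hpq h] at h1
    rw [o1_2 hpt h''] at h2
    rw [o1_3 hpq h']
    revert h1 h2 H
    cases s p q r <;> cases s p t r <;> cases s p q t <;> cases σ <;> decide
  · omega
  · have H := hs.l p hp t ht q hq r hr hpt h' h
    rw [o1_3 hpq h] at h1
    rw [o1_2 hpt h''] at h2
    rw [o1_2 hpt h']
    revert h1 h2 H
    cases s p q r <;> cases s p t r <;> cases s p t q <;> cases σ <;> decide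
  · have H := hs.l p hp r hr q hq t ht hpr h h'
    rw [o1_2 hpr h] at h1
    rw [o1_3 hpr h''] at h2
    rw [o1_3 hpq h']
    revert h1 h2 H
    cases s p r q <;> cases s p r t <;> cases s p q t <;> cases σ <;> decide
  · omega
  · have H := hs.l p hp r hr t ht q hq hpr h'' h'
    rw [o1_2 hpr h] at h1
    rw [o1_3 hpr h''] at h2
    rw [o1_2 hpt h']
    revert h1 h2 H
    cases s p r q <;> cases s p r t <;> cases s p t q <;> cases σ <;> decide
  · have H := hs.l p hp t ht r hr q hq hpt h'' h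
    rw [o1_2 hpr h] at h1
    rw [o1_2 hpt h''] at h2
    rw [o1_2 hpt h']
    revert h1 h2 H
    cases s p r q <;> cases s p t r <;> cases s p t q <;> cases σ <;> decide

end H75M
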