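import Pool.Agent.Lib.H75M.O2

/-! # H75M, chunk O3 (S): natural ranks -/

namespace H75M

theorem o3_sum (K : ℕ) : 2 * ∑ i ∈ Finset.range (K + 1), (K + 1 - i) = (K + 1) * (K + 2) := by
  induction K with
  | zero => simp
  | succ K ih =>
    rw [Finset.sum_range_succ']
    have e : ∑ i ∈ Finset.range (K + 1), (K + 1 + 1 - (i + 1)) = ∑ i ∈ Finset.range (K + 1), (K + 1 - i) := by
      refine Finset.sum_congr rfl fun i _ => ?_
      omega
    rw [e, mul_add, ih]
    simp only [Nat.sub_zero]
    ring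

/-- (O2c, S/M) PROOF. `rank_sum` for the reversed order of the natural numbers (`lt q r := r < q`) and `g i = K + 1 - i`; then `∑ i ∈ range n, (K + 1 - i)` for `K + 1 ≤ n`: the terms `i ≥ K + 1` vanish,
`2 * ∑ i ∈ range (K + 1), (K + 1 - i) = (K + 1) * (K + 2)` (induction on `K`, or `Finset.sum_range_reflect` and `Finset.sum_range_id_mul_two`). -/
theorem sum_lf (V : Finset ℕ) (K : ℕ) (hK : K + 1 ≤ V.card) :
    2 * ∑ p ∈ V, (K + 1 - (V.filter (fun v => v < p)).card) = (K + 1) * (K + 2) := by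
  have h := rank_sum V (fun q r => r < q) (fun x _ => lt_irrefl x) (fun x _ y _ z _ h1 h2 => lt_trans h2 h1)
    (fun x _ y _ h => (lt_or_gt_of_ne h).symm) (fun i => K + 1 - i)
  rw [h, ← o3_sum K]
  congr 1
  symm
  refine Finset.sum_subset (fun i hi => ?_) (fun i _ hi => ?_)
  · rw [Finset.mem_range] at hi ⊢
    omega
  · rw [Finset.mem_range] at hi
    omega

end H75M
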