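import Pool.Agent.Lib.H75M.Defs

/-! # H75M, chunk P0 (S): disjoint caps -/

namespace H75M

variable {s : ℕ → ℕ → ℕ → Bool} {V : Finset ℕ}

theorem p0_sub {A : Finset ℕ} (hA : IsCap s V A) : A ⊆ V := by
  rcases hA with ⟨x, _, y, _, σ, _, h, _⟩ | ⟨x, _, y, _, h, _⟩
  · rw [h]
    exact Finset.filter_subset _ _
  · rw [h]
    exact Finset.filter_subset _ _

/-- (P0a, S) PROOF. If `A`, `B` were disjoint: `A, B ⊆ V` (they are filters of `V`), `A ∪ B ∪ S ⊆ V` with disjoint parts, so `A.card + B.card + 4 ≤ V.card` and `Pair s V`. -/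
theorem hit_of_not_pair {A B : Finset ℕ} (hA : IsCap s V A) (hB : IsCap s V B) (S : Finset ℕ)
    (hS : S ⊆ V) (h4 : S.card = 4) (hSA : ∀ x ∈ S, x ∉ A) (hSB : ∀ x ∈ S, x ∉ B)
    (hn : ¬ Pair s V) : ∃ w ∈ V, w ∈ A ∧ w ∈ B := by
  by_contra hc
  have hAV := p0_sub hA
  have hBV := p0_sub hB
  have hd : Disjoint A B := by
    rw [Finset.disjoint_left]
    intro w hwA hwB
    exact hc ⟨w, hAV hwA, hwA, hwB⟩
  have hd2 : Disjoint (A ∪ B) S := by
    rw [Finset.disjoint_right]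
    intro x hxS hx
    rcases Finset.mem_union.1 hx with h | h
    · exact hSA x hxS h
    · exact hSB x hxS h
  apply hn
  refine ⟨A, B, hA, hB, hd, ?_⟩
  have h1 : (A ∪ B ∪ S).card ≤ V.card :=
    Finset.card_le_card (Finset.union_subset (Finset.union_subset hAV hBV) hS)
  rw [Finset.card_union_of_disjoint hd2, Finset.card_union_of_disjoint hd, h4] at h1
  exact h1

/-- (P0b, S) the basic pattern: `acd` is also `!e` (`SS.l`: otherwise `abc = acd`, `abd = abc`). -/
theorem kap_acd (hs : SS s V) {e : Bool} {a b c d : ℕ} (ha : a ∈ V) (hb : b ∈ V) (hc : c ∈ V)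
    (hd : d ∈ V) (h : kap s e a b c d) : s a c d = !e := by
  obtain ⟨hab, hbc, hcd, h1, h2, h3⟩ := h
  by_contra hne
  have h4 : s a c d = e := by
    cases e <;> cases h5 : s a c d <;> simp_all
  have h5 := hs.l a ha b hb c hc d hd hab hbc hcd (by rw [h1, h4])
  rw [h1, h2] at h5
  cases e <;> simp at h5

end H75M
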