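import Pool.Agent.Lib.H75M.PL
import Pool.Agent.Lib.H75M.PR
import Pool.Agent.Lib.H75M.P1

/-! # H75M, chunk P2A (M): the step for L-states, first case -/

namespace H75M

variable {s : ℕ → ℕ → ℕ → Bool} {V : Finset ℕ}

/-- (P2a, M) Case `w < a`. PROOF. `wac = !e` (`SS.r`, `w a b c`: `abc = e`; if `wac = e`.. careful: `SS.r` says `bcd = abd → acd = bcd`; here the quadruple is `w a b c`: if `s a b c = s w a c` then `s w b c = s a b c = e`, contradiction, so `wac = !e`);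
`R0 = Rst s V e a b c d w` (`wbc = !e`). `Rst.hit`: `v > c`, `v ≠ d`, `bcv = !e`, `acv = e`. `Rst.step` for `R0` and `v`: if `v > d`: `abv = e` (`SS.l`, `a b c v`), `bdv = !e` (`SS.l`, `b c d v`: if `bdv = e = bcd` then `bcv = bcd = e`), so `kap s (!e) a b d v` (`abd = !e`, `abv = e`, `bdv = !e`) and
`Rst s V (!e) a b d v w` (`wbd = e`): `LR s V b d`, `c < d`. If `c < v < d` then `LR s V b v` with `c < v`, or `Lst s V (!e) w b c v d` with `v < d`. -/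
theorem Lst.step_left (hs : SS s V) (hn : ¬ Pair s V) {e : Bool} {a b c d f w : ℕ}
    (h : Lst s V e a b c d f) (hw : w ∈ V) (hwa : w < a) (h1 : s w b c = !e)
    (h2 : s w b d = e) :
    (∃ c', c < c' ∧ LR s V b c') ∨ (∃ e' a' d' f', d' < d ∧ Lst s V e' a' b c d' f') := by
  obtain ⟨⟨ha, hb, hc, hd, hf⟩, hk, hdf, hbcf⟩ := h
  obtain ⟨hab, hbc, hcd, h3, h4, h5⟩ := hk
  have hk : kap s e a b c d := ⟨hab, hbc, hcd, h3, h4, h5⟩
  have R0 : Rst s V e a b c d w := ⟨⟨ha, hb, hc, hd, hw⟩, hk, hwa, h1⟩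
  obtain ⟨v, hv, hcv, hvd, hbcv, hacv⟩ := R0.hit hs hn
  rcases R0.step hs hv hcv hvd hbcv hacv with ⟨hdv, _⟩ | ⟨_, _, hR⟩ | ⟨_, hlt, hL⟩
  · left
    refine ⟨d, hcd, Or.inr ⟨!e, a, v, w, ⟨ha, hb, hd, hv, hw⟩, ⟨hab, hbc.trans hcd, hdv, h4, ?_, ?_⟩, hwa, ?_⟩⟩
    · have h6 := hs.l a ha b hb c hc v hv hab hbc hcv (by rw [h3, hacv])
      rw [h6, h3, Bool.not_not]
    · by_contra hne
      have h7 : s b d v = e := by
        cases e <;> cases hx : s b d v <;> simp_all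
      have h8 := hs.l b hb c hc d hd v hv hbc hcd hdv (by rw [h5, h7])
      rw [hbcv, h5] at h8
      cases e <;> simp_all
    · rw [h2, Bool.not_not]
  · left
    exact ⟨v, hcv, Or.inr ⟨e, a, d, w, hR⟩⟩
  · right
    exact ⟨!e, w, v, d, hlt, hL⟩

end H75M
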