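import Pool.Agent.Lib.H75M.P0

/-! # H75M, chunk PL (S/M): L-states are hit -/

namespace H75M

variable {s : ℕ → ℕ → ℕ → Bool} {V : Finset ℕ}

/-- (P0c, S/M) L-states are hit. PROOF. `s b d f = !e` (`SS.l` for `b c d f`: `bcd = e`, `bcf = !e`). The caps `cap s V b d (!e)` (witnesses `a`: `ab = !(s a b d) = e`; `f`: `ab = !(s b d f) = e`) and `cap s V b c e` (witnesses `a`: `ab = !(s a b c) = !e`; `d`: `ab = !(s b c d) = !e`) are valid;
`S = {a, b, c, d}` is outside of both (`c`: `ab s b d c = s b c d = e`). `hit_of_not_pair`: `w` in both caps. `w < b`: by unfolding `ab`: `s w b c = !e`, `s w b d = e`; `s w c d = e` by `SS.r` for `w b c d` (`bcd = e = wbd`).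
`b < w < c`: `bwc = e`, `bwd = !e`, `bcd = e` contradicts `SS.l`; `c < w < d`: `bcw = !e`, `bwd = !e`, `bcd = e` contradicts `SS.l` (`b c w d`); `w > d`: `bcw = !e`, `bdw = e`, `bcd = e` contradicts `SS.l` (`b c d w`). -/
theorem Lst.hit (hs : SS s V) (hn : ¬ Pair s V) {e : Bool} {a b c d f : ℕ}
    (h : Lst s V e a b c d f) : ∃ w ∈ V, w < b ∧ s w b c = !e ∧ s w b d = e ∧ s w c d = e := by
  obtain ⟨⟨ha, hb, hc, hd, hf⟩, ⟨hab, hbc, hcd, h1, h2, h3⟩, hdf, h4⟩ := h
  have h5 : s b d f = !e := by
    by_contra hne
    have h6 : s b d f = e := by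
      cases hx : s b d f <;> cases e <;> simp_all
    have h7 := hs.l b hb c hc d hd f hf hbc hcd hdf (by rw [h3, h6])
    rw [h4, h3] at h7
    cases e <;> simp at h7
  have nbe : ∀ x : Bool, (!x) ≠ x := by decide
  have nbe' : ∀ x : Bool, x ≠ (!x) := by decide
  have bb : ∀ x : Bool, (!(!x)) = x := by decide
  -- values of `ab`
  have v1 : ab s b d a = e := by
    rw [ab, if_pos hab, h2, bb]
  have v2 : ab s b d f = e := by
    rw [ab, if_neg (by omega), if_neg (by omega), h5, bb]
  have v3 : ab s b c a = !e := by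
    rw [ab, if_pos hab, h1]
  have v4 : ab s b c d = !e := by
    rw [ab, if_neg (by omega), if_neg (by omega), h3]
  have v5 : ab s b d c = e := by
    rw [ab, if_neg (by omega), if_pos hcd, h3]
  have n1 : a ∉ cap s V b d (!e) := by
    simp only [cap, Finset.mem_filter, v1]
    rintro ⟨_, _, _, h⟩
    exact nbe' e h
  have n2 : f ∉ cap s V b d (!e) := by
    simp only [cap, Finset.mem_filter, v2]
    rintro ⟨_, _, _, h⟩
    exact nbe' e h
  have n3 : a ∉ cap s V b c e := by
    simp only [cap, Finset.mem_filter, v3]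
    rintro ⟨_, _, _, h⟩
    exact nbe e h
  have n4 : d ∉ cap s V b c e := by
    simp only [cap, Finset.mem_filter, v4]
    rintro ⟨_, _, _, h⟩
    exact nbe e h
  have n5 : c ∉ cap s V b d (!e) := by
    simp only [cap, Finset.mem_filter, v5]
    rintro ⟨_, _, _, h⟩
    exact nbe' e h
  have hA : IsCap s V (cap s V b d (!e)) :=
    Or.inl ⟨b, hb, d, hd, !e, by omega, rfl, ⟨a, ha, hab, n1⟩, ⟨f, hf, hdf, n2⟩⟩
  have hB : IsCap s V (cap s V b c e) :=
    Or.inl ⟨b, hb, c, hc, e, hbc, rfl, ⟨a, ha, hab, n3⟩, ⟨d, hd, hcd, n4⟩⟩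
  obtain ⟨w, hw, wA, wB⟩ := hit_of_not_pair hA hB {a, b, c, d}
    (by
      intro x hx
      simp only [Finset.mem_insert, Finset.mem_singleton] at hx
      rcases hx with rfl | rfl | rfl | rfl
      · exact ha
      · exact hb
      · exact hc
      · exact hd)
    (by
      rw [Finset.card_insert_of_notMem, Finset.card_insert_of_notMem,
        Finset.card_insert_of_notMem, Finset.card_singleton]
      · simp; omega
      · simp; omega
      · simp; omega)
    (by
      intro x hx
      simp only [Finset.mem_insert, Finset.mem_singleton] at hx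
      rcases hx with rfl | rfl | rfl | rfl
      · exact n1
      · simp [cap]
      · exact n5
      · simp [cap])
    (by
      intro x hx
      simp only [Finset.mem_insert, Finset.mem_singleton] at hx
      rcases hx with rfl | rfl | rfl | rfl
      · exact n3
      · simp [cap]
      · simp [cap]
      · exact n4) hn
  simp only [cap, Finset.mem_filter] at wA wB
  obtain ⟨_, wb, wd, wA⟩ := wA
  obtain ⟨_, _, wc, wB⟩ := wB
  rcases lt_or_gt_of_ne wb with hwb | hwb
  · rw [ab, if_pos hwb] at wA wB
    have e1 : s w b d = e := by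
      cases hx : s w b d <;> cases e <;> simp_all
    have e2 : s w b c = !e := by
      cases hx : s w b c <;> cases e <;> simp_all
    refine ⟨w, hw, hwb, e2, e1, ?_⟩
    have := hs.r w hw b hb c hc d hd hwb hbc hcd (by rw [h3, e1])
    rw [this, h3]
  · exfalso
    rw [ab, if_neg (by omega)] at wA wB
    rcases lt_or_gt_of_ne wc with hwc | hwc
    · rw [if_pos (by omega)] at wA wB
      have := hs.l b hb w hw c hc d hd hwb hwc hcd (by rw [wB, h3])
      rw [wA, wB] at this
      exact nbe e this
    · rw [if_neg (by omega)] at wB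
      have e2 : s b c w = !e := by
        cases hx : s b c w <;> cases e <;> simp_all
      rcases lt_or_gt_of_ne wd with hwd | hwd
      · rw [if_pos hwd] at wA
        have := hs.l b hb c hc w hw d hd hbc hwc hwd (by rw [e2, wA])
        rw [h3, e2] at this
        exact nbe' e this
      · rw [if_neg (by omega)] at wA
        have e1 : s b d w = e := by
          cases hx : s b d w <;> cases e <;> simp_all
        have := hs.l b hb c hc d hd w hw hbc hcd hwd (by rw [h3, e1])
        rw [e2, h3] at this
        exact nbe e this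

end H75M
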