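import Pool.Agent.Lib.H75M.Q1

/-! # H75M, chunk Q2A (S/M): five vertices, the conditions and the states -/

namespace H75M

variable {s : ℕ → ℕ → ℕ → Bool} {V : Finset ℕ}

/-- five points as a function -/
def five (x0 x1 x2 x3 x4 : ℕ) : ℕ → ℕ
  | 0 => x0
  | 1 => x1
  | 2 => x2
  | 3 => x3
  | _ => x4

/-- the table of five points -/
def tabOf (s : ℕ → ℕ → ℕ → Bool) (x0 x1 x2 x3 x4 : ℕ) : ℕ → ℕ → ℕ → Bool :=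
  tab (s x0 x1 x2) (s x0 x1 x3) (s x0 x1 x4) (s x0 x2 x3) (s x0 x2 x4) (s x0 x3 x4) (s x1 x2 x3)
    (s x1 x2 x4) (s x1 x3 x4) (s x2 x3 x4)

theorem q2a_ok4 {t : ℕ → ℕ → ℕ → Bool} {a b c d : ℕ} (h1 : t a b c = t a c d → t a b d = t a b c)
    (h2 : t b c d = t a b d → t a c d = t b c d) : ok4 t a b c d = true := by
  unfold ok4
  revert h1 h2
  cases t a b c <;> cases t a b d <;> cases t a c d <;> cases t b c d <;> decide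

theorem q2a_ne {b e : Bool} (h : b ≠ e) : b = !e := by
  cases b <;> cases e <;> simp_all

/-- (Q2a, S) PROOF. `simp [ok5, ok4, tabOf, tab]` and the ten instances of `SS.l`, `SS.r`. -/
theorem ok5_tabOf (hs : SS s V) {x0 x1 x2 x3 x4 : ℕ} (h0 : x0 ∈ V) (h1 : x1 ∈ V) (h2 : x2 ∈ V)
    (h3 : x3 ∈ V) (h4 : x4 ∈ V) (h01 : x0 < x1) (h12 : x1 < x2) (h23 : x2 < x3) (h34 : x3 < x4) :
    ok5 (tabOf s x0 x1 x2 x3 x4) = true := by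
  unfold ok5
  simp only [Bool.and_eq_true]
  exact ⟨⟨⟨⟨
    q2a_ok4 (hs.l x0 h0 x1 h1 x2 h2 x3 h3 h01 h12 h23) (hs.r x0 h0 x1 h1 x2 h2 x3 h3 h01 h12 h23),
    q2a_ok4 (hs.l x0 h0 x1 h1 x2 h2 x4 h4 h01 h12 (h23.trans h34))
      (hs.r x0 h0 x1 h1 x2 h2 x4 h4 h01 h12 (h23.trans h34))⟩,
    q2a_ok4 (hs.l x0 h0 x1 h1 x3 h3 x4 h4 h01 (h12.trans h23) h34)
      (hs.r x0 h0 x1 h1 x3 h3 x4 h4 h01 (h12.trans h23) h34)⟩,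
    q2a_ok4 (hs.l x0 h0 x2 h2 x3 h3 x4 h4 (h01.trans h12) h23 h34)
      (hs.r x0 h0 x2 h2 x3 h3 x4 h4 (h01.trans h12) h23 h34)⟩,
    q2a_ok4 (hs.l x1 h1 x2 h2 x3 h3 x4 h4 h12 h23 h34) (hs.r x1 h1 x2 h2 x3 h3 x4 h4 h12 h23 h34)⟩

theorem q2a_e {x0 x1 x2 x3 x4 : ℕ} (h0 : x0 ∈ V) (h1 : x1 ∈ V) (h2 : x2 ∈ V)
    (h3 : x3 ∈ V) (h4 : x4 ∈ V) (h01 : x0 < x1) (h12 : x1 < x2) (h23 : x2 < x3) (h34 : x3 < x4)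
    {e : Bool} (h : st5e (tabOf s x0 x1 x2 x3 x4) e = true) : HasState s V := by
  simp only [st5e, kapB, Bool.or_eq_true, Bool.and_eq_true, beq_iff_eq, bne_iff_ne] at h
  rcases h with (((((⟨⟨⟨p, q⟩, r⟩, t⟩ | ⟨⟨⟨p, q⟩, r⟩, t⟩) | ⟨⟨⟨p, q⟩, r⟩, t⟩) | ⟨⟨⟨p, q⟩, r⟩, t⟩) |
    ⟨⟨⟨p, q⟩, r⟩, t⟩) | ⟨⟨⟨p, q⟩, r⟩, t⟩)
  · exact Or.inl ⟨e, x0, x1, x2, x3, x4, ⟨h0, h1, h2, h3, h4⟩, ⟨h01, h12, h23, p, q2a_ne q, r⟩, h34,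
      q2a_ne t⟩
  · exact Or.inr (Or.inl ⟨e, x1, x2, x3, x4, x0, ⟨h1, h2, h3, h4, h0⟩,
      ⟨h12, h23, h34, p, q2a_ne q, r⟩, h01, q2a_ne t⟩)
  · exact Or.inr (Or.inr (Or.inl ⟨e, x0, x1, x2, x4, x3, ⟨h0, h1, h2, h4, h3⟩,
      ⟨h01, h12, h23.trans h34, p, q2a_ne q, r⟩, (h01.trans h12).trans h23, h34, t⟩))
  · exact Or.inr (Or.inr (Or.inl ⟨e, x0, x1, x3, x4, x2, ⟨h0, h1, h3, h4, h2⟩,
      ⟨h01, h12.trans h23, h34, p, q2a_ne q, r⟩, h01.trans h12, h23.trans h34, t⟩))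
  · exact Or.inr (Or.inr (Or.inl ⟨e, x0, x2, x3, x4, x1, ⟨h0, h2, h3, h4, h1⟩,
      ⟨h01.trans h12, h23, h34, p, q2a_ne q, r⟩, h01, (h12.trans h23).trans h34, t⟩))
  · exact Or.inr (Or.inr (Or.inr ⟨e, x0, x1, x2, x3, x4, ⟨h0, h1, h2, h3, h4⟩,
      ⟨h01, h12, h23, h34⟩, p, q2a_ne q, r, q2a_ne t⟩))

/-- (Q2b, S/M) PROOF. `simp` with `st5`, `st5e`, `kapB`, `tabOf`, `tab`; the twelve cases: L-state on `x0 x1 x2 x3; x4`, R-state on `x1 x2 x3 x4; x0`, W-states on `x0 .. x4` with `v = x3, x2, x1`, Z-state on `x0 .. x4`, with `e = true` and `e = false`. -/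
theorem state_of_st5 {x0 x1 x2 x3 x4 : ℕ} (h0 : x0 ∈ V) (h1 : x1 ∈ V) (h2 : x2 ∈ V)
    (h3 : x3 ∈ V) (h4 : x4 ∈ V) (h01 : x0 < x1) (h12 : x1 < x2) (h23 : x2 < x3) (h34 : x3 < x4)
    (h : st5 (tabOf s x0 x1 x2 x3 x4) = true) : HasState s V := by
  simp only [st5, Bool.or_eq_true] at h
  rcases h with h | h
  · exact q2a_e h0 h1 h2 h3 h4 h01 h12 h23 h34 h
  · exact q2a_e h0 h1 h2 h3 h4 h01 h12 h23 h34 h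

end H75M
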