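import Pool.Agent.Lib.H75M.Q2A

/-! # H75M, chunk Q2B (S/M): five vertices, the crossings -/

set_option linter.unusedSimpArgs false

namespace H75M

variable {s : ℕ → ℕ → ℕ → Bool} {V : Finset ℕ}

/-- (Q2c, S/M) PROOF. `min`, `max` and `<` of the five increasing points are those of `0, .., 4`; for all distinct `a, b, c, d ≤ 4` (e.g. first `crX` for `a < b`, `c < d`; `interval_cases` or a case distinction over all four values, `simp [crX, cx, tabOf, tab, five]` with `omega` facts). -/
theorem cx_tabOf {x0 x1 x2 x3 x4 : ℕ} (h01 : x0 < x1) (h12 : x1 < x2) (h23 : x2 < x3)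
    (h34 : x3 < x4) (a b c d : ℕ) (ha : a < 5) (hb : b < 5) (hc : c < 5) (hd : d < 5)
    (hab : a ≠ b) (hcd : c ≠ d) :
    cx (tabOf s x0 x1 x2 x3 x4) a b c d = cx s (five x0 x1 x2 x3 x4 a) (five x0 x1 x2 x3 x4 b)
      (five x0 x1 x2 x3 x4 c) (five x0 x1 x2 x3 x4 d) := by
  have h02 : x0 < x2 := by omega
  have h03 : x0 < x3 := by omega
  have h04 : x0 < x4 := by omega
  have h13 : x1 < x3 := by omega
  have h14 : x1 < x4 := by omega
  have h24 : x2 < x4 := by omega
  interval_cases a <;> interval_cases b <;> first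
    | exact absurd rfl hab
    | (interval_cases c <;> interval_cases d <;> first
        | exact absurd rfl hcd
        | simp [cx, crX, tabOf, tab, five, h01, h12, h23, h34, h02, h03, h04, h13, h14, h24, h01.le, h12.le, h23.le,
            h34.le, h02.le, h03.le, h04.le, h13.le, h14.le, h24.le, h01.not_gt, h12.not_gt, h23.not_gt,
            h34.not_gt, h02.not_gt, h03.not_gt, h04.not_gt, h13.not_gt, h14.not_gt, h24.not_gt])

/-- (Q2d, S/M) PROOF. As Q2c. -/
theorem inT_tabOf {x0 x1 x2 x3 x4 : ℕ} (h01 : x0 < x1) (h12 : x1 < x2) (h23 : x2 < x3)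
    (h34 : x3 < x4) (i j k w : ℕ) (hij : i < j) (hjk : j < k) (hk : k < 5) (hw : w < 5) :
    inT (tabOf s x0 x1 x2 x3 x4) i j k w = inT s (five x0 x1 x2 x3 x4 i)
      (five x0 x1 x2 x3 x4 j) (five x0 x1 x2 x3 x4 k) (five x0 x1 x2 x3 x4 w) := by
  have h02 : x0 < x2 := by omega
  have h03 : x0 < x3 := by omega
  have h04 : x0 < x4 := by omega
  have h13 : x1 < x3 := by omega
  have h14 : x1 < x4 := by omega
  have h24 : x2 < x4 := by omega
  interval_cases k <;> interval_cases j <;> interval_cases i <;> interval_cases w <;>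
    simp [inT, tabOf, tab, five, h01, h12, h23, h34, h02, h03, h04, h13, h14, h24, h01.le, h12.le, h23.le,
            h34.le, h02.le, h03.le, h04.le, h13.le, h14.le, h24.le, h01.not_gt, h12.not_gt, h23.not_gt,
            h34.not_gt, h02.not_gt, h03.not_gt, h04.not_gt, h13.not_gt, h14.not_gt, h24.not_gt]

end H75M
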