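import Pool.Agent.Lib.H75M.Q2A

/-! # H75M, chunk Q3A (S/M): the ten orders -/

namespace H75M

/-- (Q3a, S/M) Every triangle `i < j < k` and two other points `u < v` are the image of an element of `tri5`. PROOF. Ten orders. -/
theorem exists_five {i j k u v : ℕ} (hij : i < j) (hjk : j < k) (huv : u < v) (hui : u ≠ i)
    (huj : u ≠ j) (huk : u ≠ k) (hvi : v ≠ i) (hvj : v ≠ j) (hvk : v ≠ k) :
    ∃ x0 x1 x2 x3 x4 : ℕ, x0 < x1 ∧ x1 < x2 ∧ x2 < x3 ∧ x3 < x4 ∧
      (∀ y, (y = x0 ∨ y = x1 ∨ y = x2 ∨ y = x3 ∨ y = x4) → (y = i ∨ y = j ∨ y = k ∨ y = u ∨ y = v)) ∧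
      ∃ t ∈ tri5, five x0 x1 x2 x3 x4 t.1 = i ∧ five x0 x1 x2 x3 x4 t.2.1 = j ∧
        five x0 x1 x2 x3 x4 t.2.2.1 = k ∧ five x0 x1 x2 x3 x4 t.2.2.2.1 = u ∧
        five x0 x1 x2 x3 x4 t.2.2.2.2 = v := by
  rcases lt_or_gt_of_ne hui with h1 | h1
  · rcases lt_or_gt_of_ne hvi with h2 | h2
    · exact ⟨u, v, i, j, k, by omega, by omega, by omega, by omega, fun y hy => by tauto, (2, 3, 4, 0, 1), by simp [tri5], rfl, rfl, rfl, rfl, rfl⟩
    · rcases lt_or_gt_of_ne hvj with h3 | h3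
      · exact ⟨u, i, v, j, k, by omega, by omega, by omega, by omega, fun y hy => by tauto, (1, 3, 4, 0, 2), by simp [tri5], rfl, rfl, rfl, rfl, rfl⟩
      · rcases lt_or_gt_of_ne hvk with h4 | h4
        · exact ⟨u, i, j, v, k, by omega, by omega, by omega, by omega, fun y hy => by tauto, (1, 2, 4, 0, 3), by simp [tri5], rfl, rfl, rfl, rfl, rfl⟩
        · exact ⟨u, i, j, k, v, by omega, by omega, by omega, by omega, fun y hy => by tauto, (1, 2, 3, 0, 4), by simp [tri5], rfl, rfl, rfl, rfl, rfl⟩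
  · rcases lt_or_gt_of_ne huj with h2 | h2
    · rcases lt_or_gt_of_ne hvj with h3 | h3
      · exact ⟨i, u, v, j, k, by omega, by omega, by omega, by omega, fun y hy => by tauto, (0, 3, 4, 1, 2), by simp [tri5], rfl, rfl, rfl, rfl, rfl⟩
      · rcases lt_or_gt_of_ne hvk with h4 | h4
        · exact ⟨i, u, j, v, k, by omega, by omega, by omega, by omega, fun y hy => by tauto, (0, 2, 4, 1, 3), by simp [tri5], rfl, rfl, rfl, rfl, rfl⟩
        · exact ⟨i, u, j, k, v, by omega, by omega, by omega, by omega, fun y hy => by tauto, (0, 2, 3, 1, 4), by simp [tri5], rfl, rfl, rfl, rfl, rfl⟩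
    · rcases lt_or_gt_of_ne huk with h3 | h3
      · rcases lt_or_gt_of_ne hvk with h4 | h4
        · exact ⟨i, j, u, v, k, by omega, by omega, by omega, by omega, fun y hy => by tauto, (0, 1, 4, 2, 3), by simp [tri5], rfl, rfl, rfl, rfl, rfl⟩
        · exact ⟨i, j, u, k, v, by omega, by omega, by omega, by omega, fun y hy => by tauto, (0, 1, 3, 2, 4), by simp [tri5], rfl, rfl, rfl, rfl, rfl⟩
      · exact ⟨i, j, k, u, v, by omega, by omega, by omega, by omega, fun y hy => by tauto, (0, 1, 2, 3, 4), by simp [tri5], rfl, rfl, rfl, rfl, rfl⟩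

end H75M
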