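import Pool.Agent.Lib.H75M.Q2B
import Pool.Agent.Lib.H75M.Q3A

/-! # H75M, chunk Q3B (M): the checks for five vertices -/

namespace H75M

variable {s : ℕ → ℕ → ℕ → Bool} {V : Finset ℕ}

theorem q3b_tri : ∀ t ∈ tri5, t.1 < t.2.1 ∧ t.2.1 < t.2.2.1 ∧ t.2.2.1 < 5 ∧ t.2.2.2.1 < 5 ∧ t.2.2.2.2 < 5 ∧
    t.2.2.2.1 ≠ t.1 ∧ t.2.2.2.1 ≠ t.2.1 ∧ t.2.2.2.1 ≠ t.2.2.1 ∧ t.2.2.2.2 ≠ t.1 ∧ t.2.2.2.2 ≠ t.2.1 ∧
    t.2.2.2.2 ≠ t.2.2.1 ∧ t.2.2.2.1 ≠ t.2.2.2.2 := by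
  decide

theorem q3b_W4 {x0 x1 x2 x3 x4 : ℕ} (h01 : x0 < x1) (h12 : x1 < x2) (h23 : x2 < x3)
    (h34 : x3 < x4) (i j k w : ℕ) (hij : i < j) (hjk : j < k) (hk : k < 5) (hw : w < 5)
    (h1 : w ≠ i) (h2 : w ≠ j) (h3 : w ≠ k) :
    W4 (tabOf s x0 x1 x2 x3 x4) i j k w = W4 s (five x0 x1 x2 x3 x4 i)
      (five x0 x1 x2 x3 x4 j) (five x0 x1 x2 x3 x4 k) (five x0 x1 x2 x3 x4 w) := by
  unfold W4
  rw [cx_tabOf h01 h12 h23 h34 i w j k (by omega) hw (by omega) hk (Ne.symm h1) (by omega),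
    cx_tabOf h01 h12 h23 h34 j w i k (by omega) hw (by omega) hk (Ne.symm h2) (by omega),
    cx_tabOf h01 h12 h23 h34 k w i j hk hw (by omega) (by omega) (Ne.symm h3) (by omega)]

theorem q3b_cT {x0 x1 x2 x3 x4 : ℕ} (h01 : x0 < x1) (h12 : x1 < x2) (h23 : x2 < x3)
    (h34 : x3 < x4) (i j k u v : ℕ) (hij : i < j) (hjk : j < k) (hk : k < 5) (hu : u < 5) (hv : v < 5)
    (huv : u ≠ v) :
    cT (tabOf s x0 x1 x2 x3 x4) i j k u v = cT s (five x0 x1 x2 x3 x4 i)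
      (five x0 x1 x2 x3 x4 j) (five x0 x1 x2 x3 x4 k) (five x0 x1 x2 x3 x4 u)
      (five x0 x1 x2 x3 x4 v) := by
  unfold cT
  rw [cx_tabOf h01 h12 h23 h34 u v i j hu hv (by omega) (by omega) huv (by omega),
    cx_tabOf h01 h12 h23 h34 u v j k hu hv (by omega) hk huv (by omega),
    cx_tabOf h01 h12 h23 h34 u v i k hu hv (by omega) hk huv (by omega)]

/-- (Q3b, M) PROOF. `exists_five`, `check1` for `tabOf s x0 .. x4` (`ok5_tabOf`), `List.all_eq_true`, `chk1`; translate with `cx_tabOf`, `inT_tabOf` (the elements of `tri5` have distinct entries `< 5` and the first three are increasing: `∀ t ∈ tri5, ..` by `decide`), `state_of_st5`. -/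
theorem core1 (hs : SS s V) {i j k u v : ℕ} (hi : i ∈ V) (hj : j ∈ V) (hk : k ∈ V) (hu : u ∈ V)
    (hv : v ∈ V) (hij : i < j) (hjk : j < k) (huv : u < v) (hui : u ≠ i)
    (huj : u ≠ j) (huk : u ≠ k) (hvi : v ≠ i) (hvj : v ≠ j) (hvk : v ≠ k)
    (h1 : inT s i j k u = inT s i j k v) (h2 : cT s i j k u v = true) :
    W4 s i j k u = true ∨ W4 s i j k v = true ∨ HasState s V := by
  obtain ⟨x0, x1, x2, x3, x4, h01, h12, h23, h34, hmem, t, ht, e1, e2, e3, e4, e5⟩ :=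
    exists_five hij hjk huv hui huj huk hvi hvj hvk
  have hV : ∀ y, (y = x0 ∨ y = x1 ∨ y = x2 ∨ y = x3 ∨ y = x4) → y ∈ V := by
    intro y hy
    rcases hmem y hy with h | h | h | h | h <;> rw [h] <;> assumption
  have m0 := hV x0 (by simp)
  have m1 := hV x1 (by simp)
  have m2 := hV x2 (by simp)
  have m3 := hV x3 (by simp)
  have m4 := hV x4 (by simp)
  obtain ⟨t1, t2, t3, t4, t5, t6, t7, t8, t9, t10, t11, t12⟩ := q3b_tri t ht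
  have hchk : chk1 (tabOf s x0 x1 x2 x3 x4) t = true :=
    List.all_eq_true.1 (check1 _ _ _ _ _ _ _ _ _ _ (ok5_tabOf hs m0 m1 m2 m3 m4 h01 h12 h23 h34)) t ht
  unfold chk1 at hchk
  rw [inT_tabOf h01 h12 h23 h34 _ _ _ _ t1 t2 t3 t4, inT_tabOf h01 h12 h23 h34 _ _ _ _ t1 t2 t3 t5,
    q3b_cT h01 h12 h23 h34 _ _ _ _ _ t1 t2 t3 t4 t5 t12, q3b_W4 h01 h12 h23 h34 _ _ _ _ t1 t2 t3 t4 t6 t7 t8,
    q3b_W4 h01 h12 h23 h34 _ _ _ _ t1 t2 t3 t5 t9 t10 t11, e1, e2, e3, e4, e5, h1, h2] at hchk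
  rcases hW : W4 s i j k u with _ | _
  · rcases hW' : W4 s i j k v with _ | _
    · rw [hW, hW'] at hchk
      right
      right
      refine state_of_st5 m0 m1 m2 m3 m4 h01 h12 h23 h34 ?_
      simpa using hchk
    · right
      left
      rfl
  · left
    rfl

/-- (Q3c, M) PROOF. As `core1` with `check2`. -/
theorem core2 (hs : SS s V) {i j k u v : ℕ} (hi : i ∈ V) (hj : j ∈ V) (hk : k ∈ V) (hu : u ∈ V)
    (hv : v ∈ V) (hij : i < j) (hjk : j < k) (huv : u < v) (hui : u ≠ i)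
    (huj : u ≠ j) (huk : u ≠ k) (hvi : v ≠ i) (hvj : v ≠ j) (hvk : v ≠ k)
    (h1 : inT s i j k u ≠ inT s i j k v) (h2 : W4 s i j k u = true) (h3 : W4 s i j k v = true) :
    HasState s V := by
  obtain ⟨x0, x1, x2, x3, x4, h01, h12, h23, h34, hmem, t, ht, e1, e2, e3, e4, e5⟩ :=
    exists_five hij hjk huv hui huj huk hvi hvj hvk
  have hV : ∀ y, (y = x0 ∨ y = x1 ∨ y = x2 ∨ y = x3 ∨ y = x4) → y ∈ V := by
    intro y hy
    rcases hmem y hy with h | h | h | h | h <;> rw [h] <;> assumption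
  have m0 := hV x0 (by simp)
  have m1 := hV x1 (by simp)
  have m2 := hV x2 (by simp)
  have m3 := hV x3 (by simp)
  have m4 := hV x4 (by simp)
  obtain ⟨t1, t2, t3, t4, t5, t6, t7, t8, t9, t10, t11, t12⟩ := q3b_tri t ht
  have hchk : chk2 (tabOf s x0 x1 x2 x3 x4) t = true :=
    List.all_eq_true.1 (check2 _ _ _ _ _ _ _ _ _ _ (ok5_tabOf hs m0 m1 m2 m3 m4 h01 h12 h23 h34)) t ht
  unfold chk2 at hchk
  rw [inT_tabOf h01 h12 h23 h34 _ _ _ _ t1 t2 t3 t4, inT_tabOf h01 h12 h23 h34 _ _ _ _ t1 t2 t3 t5,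
    q3b_W4 h01 h12 h23 h34 _ _ _ _ t1 t2 t3 t4 t6 t7 t8,
    q3b_W4 h01 h12 h23 h34 _ _ _ _ t1 t2 t3 t5 t9 t10 t11, e1, e2, e3, e4, e5, h2, h3] at hchk
  refine state_of_st5 m0 m1 m2 m3 m4 h01 h12 h23 h34 ?_
  have h4 : (inT s i j k u != inT s i j k v) = true := by simpa using h1
  rw [h4] at hchk
  simpa using hchk

end H75M
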