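import Pool.Agent.Lib.H75M.Q3B

/-! # H75M, chunk Q4 (S/M): nonconvexity witnesses give a state -/

namespace H75M

variable {s : ℕ → ℕ → ℕ → Bool} {V : Finset ℕ}

/-- (Q4a, S) `cx` is 0 for edges with a common vertex. PROOF. Unfold; the strict inequalities. -/
theorem cx_share {a b c d : ℕ} (h : a = c ∨ a = d ∨ b = c ∨ b = d) : cx s a b c d = false := by
  have q4_aux : ∀ p q r t : ℕ, (p = r ∨ p = t ∨ q = r ∨ q = t) → crX s p q r t = false := by
    intro p q r t h
    unfold crX
    simp only [Bool.or_eq_false_iff, Bool.and_eq_false_iff, decide_eq_false_iff_not]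
    rcases h with h | h | h | h <;> subst h <;> refine ⟨⟨⟨?_, ?_⟩, ?_⟩, ?_⟩ <;> left <;> omega
  unfold cx
  apply q4_aux
  omega

/-- (Q4b, S) -/
theorem cx_symm {a b c d : ℕ} : cx s a b c d = cx s b a c d := by
  unfold cx
  rw [min_comm a b, max_comm a b]

theorem q4_self (y c d : ℕ) : cx s y y c d = false := by
  have q4_aux : ∀ r t : ℕ, crX s y y r t = false := by
    intro r t
    unfold crX
    simp only [Bool.or_eq_false_iff, Bool.and_eq_false_iff, decide_eq_false_iff_not]
    refine ⟨⟨⟨?_, ?_⟩, ?_⟩, ?_⟩ <;> left <;> omega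
  unfold cx
  rw [min_self, max_self]
  exact q4_aux _ _

/-- (Q4c, S/M) PROOF. `u, v` from the definition of `Wit`. If `u` is a vertex of the triangle then `cT s i j k u v = true` and `cx_share` imply that `uv` crosses the opposite edge and that `v` is not a vertex of the triangle: `W4 s i j k v = true` and `inT s i j k v = τ`; take `w = v`.
Similarly (`cx_symm`) if `v` is a vertex of the triangle. If both are not: `core1`. -/
theorem Wit.w4 (hs : SS s V) {i j k : ℕ} (hi : i ∈ V) (hj : j ∈ V) (hk : k ∈ V) (hij : i < j)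
    (hjk : j < k) {τ : Bool} (h : Wit s V i j k τ) :
    HasState s V ∨ ∃ w ∈ V, w ≠ i ∧ w ≠ j ∧ w ≠ k ∧ inT s i j k w = τ ∧ W4 s i j k w = true := by
  have q4_t : ∀ x y : ℕ, (x = i ∨ x = j ∨ x = k) → cT s i j k x y = true →
      W4 s i j k y = true ∧ y ≠ i ∧ y ≠ j ∧ y ≠ k := by
    intro x y hx hc
    unfold cT at hc
    unfold W4
    rcases hx with rfl | rfl | rfl
    · rw [cx_share (a := x) (b := y) (c := x) (d := j) (Or.inl rfl),
        cx_share (a := x) (b := y) (c := x) (d := k) (Or.inl rfl)] at hc
      simp only [Bool.false_or, Bool.or_false] at hc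
      refine ⟨by rw [hc]; rfl, ?_, ?_, ?_⟩
      · rintro rfl
        rw [q4_self] at hc
        exact absurd hc (by decide)
      · rintro rfl
        rw [cx_share (Or.inr (Or.inr (Or.inl rfl)))] at hc
        exact absurd hc (by decide)
      · rintro rfl
        rw [cx_share (Or.inr (Or.inr (Or.inr rfl)))] at hc
        exact absurd hc (by decide)
    · rw [cx_share (a := x) (b := y) (c := i) (d := x) (Or.inr (Or.inl rfl)),
        cx_share (a := x) (b := y) (c := x) (d := k) (Or.inl rfl)] at hc
      simp only [Bool.false_or] at hc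
      refine ⟨by rw [hc, Bool.or_true]; rfl, ?_, ?_, ?_⟩
      · rintro rfl
        rw [cx_share (Or.inr (Or.inr (Or.inl rfl)))] at hc
        exact absurd hc (by decide)
      · rintro rfl
        rw [q4_self] at hc
        exact absurd hc (by decide)
      · rintro rfl
        rw [cx_share (Or.inr (Or.inr (Or.inr rfl)))] at hc
        exact absurd hc (by decide)
    · rw [cx_share (a := x) (b := y) (c := j) (d := x) (Or.inr (Or.inl rfl)),
        cx_share (a := x) (b := y) (c := i) (d := x) (Or.inr (Or.inl rfl))] at hc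
      simp only [Bool.or_false] at hc
      refine ⟨by rw [hc, Bool.or_true], ?_, ?_, ?_⟩
      · rintro rfl
        rw [cx_share (Or.inr (Or.inr (Or.inl rfl)))] at hc
        exact absurd hc (by decide)
      · rintro rfl
        rw [cx_share (Or.inr (Or.inr (Or.inr rfl)))] at hc
        exact absurd hc (by decide)
      · rintro rfl
        rw [q4_self] at hc
        exact absurd hc (by decide)
  obtain ⟨u, hu, v, hv, huv, h1, h2, h3⟩ := h
  by_cases hu3 : u = i ∨ u = j ∨ u = k
  · right
    obtain ⟨h4, h5, h6, h7⟩ := q4_t u v hu3 h3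
    refine ⟨v, hv, h5, h6, h7, ?_, h4⟩
    rcases h2 with h2 | h2 | h2 | h2
    · exact absurd h2 h5
    · exact absurd h2 h6
    · exact absurd h2 h7
    · exact h2
  · by_cases hv3 : v = i ∨ v = j ∨ v = k
    · right
      have h3' : cT s i j k v u = true := by
        unfold cT at h3 ⊢
        rw [cx_symm (a := v) (c := i) (d := j), cx_symm (a := v) (c := j) (d := k),
          cx_symm (a := v) (c := i) (d := k)]
        exact h3
      obtain ⟨h4, h5, h6, h7⟩ := q4_t v u hv3 h3'
      refine ⟨u, hu, h5, h6, h7, ?_, h4⟩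
      rcases h1 with h1 | h1 | h1 | h1
      · exact absurd h1 h5
      · exact absurd h1 h6
      · exact absurd h1 h7
      · exact h1
    · push Not at hu3 hv3
      have h1' : inT s i j k u = τ := by
        rcases h1 with h1 | h1 | h1 | h1
        · exact absurd h1 hu3.1
        · exact absurd h1 hu3.2.1
        · exact absurd h1 hu3.2.2
        · exact h1
      have h2' : inT s i j k v = τ := by
        rcases h2 with h2 | h2 | h2 | h2
        · exact absurd h2 hv3.1
        · exact absurd h2 hv3.2.1
        · exact absurd h2 hv3.2.2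
        · exact h2
      rcases core1 hs hi hj hk hu hv hij hjk huv hu3.1 hu3.2.1 hu3.2.2 hv3.1 hv3.2.1 hv3.2.2
        (h1'.trans h2'.symm) h3 with h4 | h4 | h4
      · exact Or.inr ⟨u, hu, hu3.1, hu3.2.1, hu3.2.2, h1', h4⟩
      · exact Or.inr ⟨v, hv, hv3.1, hv3.2.1, hv3.2.2, h2', h4⟩
      · exact Or.inl h4

/-- (Q4d, S) PROOF. `Wit.w4` for both sides, the two points `w`, `w'` are different (`inT` is true and false), `core2` for the smaller and the larger one. -/
theorem state_of_wit (hs : SS s V) {i j k : ℕ} (hi : i ∈ V) (hj : j ∈ V) (hk : k ∈ V)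
    (hij : i < j) (hjk : j < k) (h1 : Wit s V i j k true) (h2 : Wit s V i j k false) :
    HasState s V := by
  rcases h1.w4 hs hi hj hk hij hjk with h | ⟨w, hw, a1, a2, a3, a4, a5⟩
  · exact h
  rcases h2.w4 hs hi hj hk hij hjk with h | ⟨w', hw', b1, b2, b3, b4, b5⟩
  · exact h
  have hne : w ≠ w' := by
    rintro rfl
    rw [a4] at b4
    exact absurd b4 (by decide)
  rcases lt_or_gt_of_ne hne with hlt | hgt
  · exact core2 hs hi hj hk hw hw' hij hjk hlt a1 a2 a3 b1 b2 b3 (by rw [a4, b4]; decide) a5 b5
  · exact core2 hs hi hj hk hw' hw hij hjk hgt b1 b2 b3 a1 a2 a3 (by rw [a4, b4]; decide) b5 a5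

end H75M
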