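import Pool.Agent.Lib.H75M.Defs

/-! # H75M: triangles and crossings in terms of signs -/

namespace H75M

/-- the vertex `w` is strictly between the edge `ik` and the path `ijk` (`i < j < k`) -/
def inT (s : ℕ → ℕ → ℕ → Bool) (i j k w : ℕ) : Bool :=
  decide (i < w) && decide (w < k) && (s i w k == s i j k) &&
    (if w < j then s i w j != s i j k else decide (j < w) && (s j w k != s i j k))

/-- the edges `ab` and `cd` cross (`a < b`, `c < d`) -/
def crX (s : ℕ → ℕ → ℕ → Bool) (a b c d : ℕ) : Bool :=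
  (decide (a < c) && decide (c < b) && decide (b < d) && (s a c b == s c b d)) ||
  (decide (a < c) && decide (c < d) && decide (d < b) && (s a c b != s a d b)) ||
  (decide (c < a) && decide (a < d) && decide (d < b) && (s c a d == s a d b)) ||
  (decide (c < a) && decide (a < b) && decide (b < d) && (s c a d != s c b d))

/-- the edges `{a, b}` and `{c, d}` cross -/
def cx (s : ℕ → ℕ → ℕ → Bool) (a b c d : ℕ) : Bool :=
  crX s (min a b) (max a b) (min c d) (max c d)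

/-- an edge from a vertex of the triangle to `w` crosses the opposite edge -/
def W4 (s : ℕ → ℕ → ℕ → Bool) (i j k w : ℕ) : Bool :=
  cx s i w j k || cx s j w i k || cx s k w i j

/-- the edge `uv` crosses an edge of the triangle `ijk` -/
def cT (s : ℕ → ℕ → ℕ → Bool) (i j k u v : ℕ) : Bool :=
  cx s u v i j || cx s u v j k || cx s u v i k

/-- the table of ten signs on five points `0, .., 4` -/
def tab (b012 b013 b014 b023 b024 b034 b123 b124 b134 b234 : Bool) (a b c : ℕ) : Bool :=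
  match a, b, c with
  | 0, 1, 2 => b012
  | 0, 1, 3 => b013
  | 0, 1, 4 => b014
  | 0, 2, 3 => b023
  | 0, 2, 4 => b024
  | 0, 3, 4 => b034
  | 1, 2, 3 => b123
  | 1, 2, 4 => b124
  | 1, 3, 4 => b134
  | 2, 3, 4 => b234
  | _, _, _ => false

/-- four points `a < b < c < d` satisfy the two conditions of `SS` -/
def ok4 (s : ℕ → ℕ → ℕ → Bool) (a b c d : ℕ) : Bool :=
  !((s a b c == s a c d) && (s a b d != s a b c)) && !((s b c d == s a b d) && (s a c d != s b c d))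

/-- the points `0, .., 4` satisfy `SS` -/
def ok5 (s : ℕ → ℕ → ℕ → Bool) : Bool :=
  ok4 s 0 1 2 3 && ok4 s 0 1 2 4 && ok4 s 0 1 3 4 && ok4 s 0 2 3 4 && ok4 s 1 2 3 4

/-- the basic pattern as a Bool -/
def kapB (s : ℕ → ℕ → ℕ → Bool) (e : Bool) (a b c d : ℕ) : Bool :=
  (s a b c == e) && (s a b d != e) && (s b c d == e)

/-- the points `0, .., 4` contain a state with sign `e` -/
def st5e (s : ℕ → ℕ → ℕ → Bool) (e : Bool) : Bool :=
  (kapB s e 0 1 2 3 && (s 1 2 4 != e)) || (kapB s e 1 2 3 4 && (s 0 2 3 != e)) ||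
  (kapB s e 0 1 2 4 && (s 0 3 4 == e)) || (kapB s e 0 1 3 4 && (s 0 2 4 == e)) ||
  (kapB s e 0 2 3 4 && (s 0 1 4 == e)) ||
  ((s 0 1 2 == e) && (s 0 2 3 != e) && (s 1 2 4 == e) && (s 2 3 4 != e))

/-- the points `0, .., 4` contain a state -/
def st5 (s : ℕ → ℕ → ℕ → Bool) : Bool := st5e s true || st5e s false

/-- the ten triangles `i < j < k` of `0, .., 4` with the two other points `u < v` -/
def tri5 : List (ℕ × ℕ × ℕ × ℕ × ℕ) :=
  [(0,1,2,3,4), (0,1,3,2,4), (0,1,4,2,3), (0,2,3,1,4), (0,2,4,1,3), (0,3,4,1,2), (1,2,3,0,4),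
   (1,2,4,0,3), (1,3,4,0,2), (2,3,4,0,1)]

/-- first check: if `u`, `v` are on the same side of `ijk` and `uv` crosses the triangle then `u` or `v` is a witness with four points, or there is a state -/
def chk1 (s : ℕ → ℕ → ℕ → Bool) (t : ℕ × ℕ × ℕ × ℕ × ℕ) : Bool :=
  !((inT s t.1 t.2.1 t.2.2.1 t.2.2.2.1 == inT s t.1 t.2.1 t.2.2.1 t.2.2.2.2) &&
      cT s t.1 t.2.1 t.2.2.1 t.2.2.2.1 t.2.2.2.2) ||
    W4 s t.1 t.2.1 t.2.2.1 t.2.2.2.1 || W4 s t.1 t.2.1 t.2.2.1 t.2.2.2.2 || st5 s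

/-- second check: two witnesses with four points on different sides give a state -/
def chk2 (s : ℕ → ℕ → ℕ → Bool) (t : ℕ × ℕ × ℕ × ℕ × ℕ) : Bool :=
  !((inT s t.1 t.2.1 t.2.2.1 t.2.2.2.1 != inT s t.1 t.2.1 t.2.2.1 t.2.2.2.2) &&
      W4 s t.1 t.2.1 t.2.2.1 t.2.2.2.1 && W4 s t.1 t.2.1 t.2.2.1 t.2.2.2.2) || st5 s

/-- a nonconvexity witness for one side of the triangle `ijk` (`τ = true`: inside) -/
def Wit (s : ℕ → ℕ → ℕ → Bool) (V : Finset ℕ) (i j k : ℕ) (τ : Bool) : Prop :=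
  ∃ u ∈ V, ∃ v ∈ V, u < v ∧ (u = i ∨ u = j ∨ u = k ∨ inT s i j k u = τ) ∧
    (v = i ∨ v = j ∨ v = k ∨ inT s i j k v = τ) ∧ cT s i j k u v = true

end H75M
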