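import Pool.Agent.Lib.H75M.T2A

/-! # H75M, chunk T2B (S/M): common points of two edges -/

namespace H75M

variable {n : ℕ}

/-- (T2d, S/M) PROOF. Four orders (`v < a` and `b < u` are impossible, `meet_ab_cd`): `u < a < v < b`, `u < a < b < v`, `a < u < b < v`, `a < u < v < b`; `meet_ac_bd` or `meet_ad_bc`, the four clauses of `crX`. (`cx` of values of `Fin n`: the minimum and maximum of `u < v` are `u`, `v`.) -/
theorem MDrawing.meet_cx (D : MDrawing n) {u v a b : Fin n} (huv : u < v) (hab : a < b)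
    (h1 : u ≠ a) (h2 : u ≠ b) (h3 : v ≠ a) (h4 : v ≠ b) {t : ℝ}
    (ht : t ∈ Set.Icc (D.x u) (D.x v)) (ht' : t ∈ Set.Icc (D.x a) (D.x b))
    (h : D.f u v t = D.f a b t) : cx D.sg u v a b = true := by
  have m1 : D.Meet u v a b := ⟨t, ⟨ht, ht'⟩, h⟩
  have m2 : D.Meet a b u v := ⟨t, ⟨ht', ht⟩, h.symm⟩
  have huv' : (u : ℕ) < (v : ℕ) := huv
  have hab' : (a : ℕ) < (b : ℕ) := hab
  unfold cx
  rw [min_eq_left huv'.le, max_eq_right huv'.le, min_eq_left hab'.le, max_eq_right hab'.le]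
  unfold crX
  simp only [Bool.or_eq_true, Bool.and_eq_true, decide_eq_true_eq, beq_iff_eq, bne_iff_ne]
  rcases lt_or_gt_of_ne h1 with hua | hau
  · have hav : a < v := by
      rcases lt_or_gt_of_ne h3 with hh | hh
      · exact absurd m1 (D.meet_ab_cd hh)
      · exact hh
    rcases lt_or_gt_of_ne h4 with hvb | hbv
    · exact Or.inl (Or.inl (Or.inl ⟨⟨⟨hua, hav⟩, hvb⟩, (D.meet_ac_bd hua hav hvb).1 m1⟩))
    · exact Or.inl (Or.inl (Or.inr ⟨⟨⟨hua, hab⟩, hbv⟩, (D.meet_ad_bc hua hab hbv).1 m1⟩))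
  · have hub : u < b := by
      rcases lt_or_gt_of_ne h2 with hh | hh
      · exact hh
      · exact absurd m2 (D.meet_ab_cd hh)
    rcases lt_or_gt_of_ne h4 with hvb | hbv
    · exact Or.inr ⟨⟨⟨hau, huv⟩, hvb⟩, (D.meet_ad_bc hau huv hvb).1 m2⟩
    · exact Or.inl (Or.inr ⟨⟨⟨hau, hub⟩, hbv⟩, (D.meet_ac_bd hau hub hbv).1 m2⟩)

/-- (T2e, S/M) Two different edges with a common end meet only there. PROOF. Common left end: `adjL`; common right end: `adjR`; `v = a` or `u = b`: `t ≤ D.x v = D.x a ≤ t`. -/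
theorem MDrawing.meet_common (D : MDrawing n) {u v a b : Fin n} (huv : u < v) (hab : a < b)
    (hne : ¬ (u = a ∧ v = b)) (hc : u = a ∨ u = b ∨ v = a ∨ v = b) {t : ℝ}
    (ht : t ∈ Set.Icc (D.x u) (D.x v)) (ht' : t ∈ Set.Icc (D.x a) (D.x b))
    (h : D.f u v t = D.f a b t) : ∃ p : Fin n, (p = u ∨ p = v) ∧ (p = a ∨ p = b) ∧ t = D.x p := by
  rcases hc with rfl | rfl | rfl | rfl
  · refine ⟨u, Or.inl rfl, Or.inl rfl, ?_⟩
    by_contra hcon
    have hlt : D.x u < t := lt_of_le_of_ne ht.1 (Ne.symm hcon)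
    have hvb : v ≠ b := fun e => hne ⟨rfl, e⟩
    rcases lt_or_gt_of_ne hvb with hh | hh
    · exact D.adjL u v b huv hh t ⟨hlt, ht.2⟩ h
    · exact D.adjL u b v hab hh t ⟨hlt, ht'.2⟩ h.symm
  · exact ⟨u, Or.inl rfl, Or.inr rfl, le_antisymm ht'.2 ht.1⟩
  · exact ⟨v, Or.inr rfl, Or.inl rfl, le_antisymm ht.2 ht'.1⟩
  · refine ⟨v, Or.inr rfl, Or.inr rfl, ?_⟩
    by_contra hcon
    have hlt : t < D.x v := lt_of_le_of_ne ht.2 hcon
    have hua : u ≠ a := fun e => hne ⟨e, rfl⟩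
    rcases lt_or_gt_of_ne hua with hh | hh
    · exact D.adjR u a v hh hab t ⟨ht'.1, hlt⟩ h
    · exact D.adjR a u v hh huv t ⟨ht.1, hlt⟩ h.symm

end H75M
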